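import Pool.Agent.P.MP_9014a2_lc.Defs
import Pool.Agent.P.MP_1a00c7_lc.Basic

/-!
Relative computability toolbox.  `CI X f`: the total function `f` is computable in the oracle `X`.
`DI X p`: the predicate `p` is decidable in `X`.  `Sig X p`: `p` is c.e. in `X`.
`CI` and `DI` goals are closed by `fun_prop`.
-/

namespace Pool.Agent.P.MP_9014a2_lc

open Pool.Agent.Lib.Helper43 Encodable

/-- oracles (only used in the signatures of `CI` and `DI`; write `ℕ → Bool` elsewhere) -/
abbrev O := ℕ → Bool

/-- initial segment of an oracle -/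
def seg (X : ℕ → Bool) (n : ℕ) : List Bool := (List.range n).map X

/-- `f` is computable in `X` -/
@[fun_prop] def CI (X : O) {α β : Type} [Primcodable α] [Primcodable β] (f : α → β) : Prop :=
  ComputableIn {chi X} f

open Classical in
/-- `p` is decidable in `X` -/
@[fun_prop] def DI (X : O) {α : Type} [Primcodable α] (p : α → Prop) : Prop :=
  CI X fun a => decide (p a)

/-- `p` is c.e. in `X` -/
def Sig (X : ℕ → Bool) {α : Type} [Primcodable α] (p : α → Prop) : Prop :=
  ∃ q : α × ℕ → Prop, DI X q ∧ ∀ a, p a ↔ ∃ n, q (a, n)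

/-- Turing reducibility -/
def Red (A B : ℕ → Bool) : Prop := CI B A

variable {α β γ δ σ : Type} [Primcodable α] [Primcodable β] [Primcodable γ] [Primcodable δ]
  [Primcodable σ] {X Y Z : ℕ → Bool}

namespace CI

theorem of_eq {f g : α → β} (hf : CI X f) (h : ∀ a, f a = g a) : CI X g :=
  (funext h : f = g) ▸ hf

@[fun_prop] theorem of_comp {f : α → β} (hf : Computable f) : CI X f := hf.computableIn

@[fun_prop] theorem id : CI X (fun a : α => a) := of_comp Computable.id

@[fun_prop] theorem const (b : β) : CI X (fun _ : α => b) := of_comp (Computable.const b)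

@[fun_prop] theorem comp {f : β → γ} {g : α → β} (hf : CI X f) (hg : CI X g) :
    CI X (fun a => f (g a)) := by
  refine (Nat.RecursiveIn.comp hf hg).of_eq fun n => ?_
  cases h : decode (α := α) n <;> simp [encodek]

@[fun_prop] theorem prodMk {f : α → β} {g : α → γ} (hf : CI X f) (hg : CI X g) :
    CI X (fun a => (f a, g a)) := by
  refine (Nat.RecursiveIn.pair hf hg).of_eq fun n => ?_
  cases h : decode (α := α) n <;> simp [Seq.seq]

@[fun_prop] theorem fst {f : α → β × γ} (hf : CI X f) : CI X (fun a => (f a).1) :=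
  (of_comp Computable.fst).comp hf

@[fun_prop] theorem snd {f : α → β × γ} (hf : CI X f) : CI X (fun a => (f a).2) :=
  (of_comp Computable.snd).comp hf

theorem oracle : CI X X := by
  have h1 : CI X (fun n => (X n).toNat) :=
    RecursiveIn.iff_nat.2 (Nat.RecursiveIn.oracle _ (Set.mem_singleton _))
  exact (comp (f := fun m : ℕ => decide (m = 1)) (of_comp (by fun_prop)) h1).of_eq fun n => by
    cases X n <;> simp

theorem mono {f : α → β} (hf : CI X f) (h : Red X Y) : CI Y f := by
  refine RecursiveIn.subst hf ?_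
  rintro g rfl
  exact comp (f := Bool.toNat) (of_comp (Primrec.dom_bool Bool.toNat).to_comp) h

theorem natRec {f : α → ℕ} {g : α → σ} {h : α → ℕ → σ → σ} (hf : CI X f)
    (hg : CI X g) (hh : CI X (fun p : α × ℕ × σ => h p.1 p.2.1 p.2.2)) :
    CI X (fun a => @Nat.rec (fun _ => σ) (g a) (fun n ih => h a n ih) (f a)) := by
  have h1 := Nat.RecursiveIn.prec hg hh
  have h2 : CI X (fun a => (a, f a)) := prodMk id hf
  refine (Nat.RecursiveIn.comp h1 h2).of_eq fun n => ?_
  cases hd : decode (α := α) n with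
  | none => simp
  | some a =>
    simp only [Part.coe_some, Part.bind_some, Part.map_some, encode_prod_val, encode_nat,
      Part.bind_eq_bind, Nat.unpair_pair, encodek]
    induction f a with
    | zero => simp
    | succ m ih =>
      dsimp only at ih ⊢
      rw [ih]
      simp [encodek]

/-- unbounded search for a witness that is known to exist -/
theorem findB {p : α → ℕ → Bool} (hp : CI X (fun q : α × ℕ => p q.1 q.2))
    (hex : ∀ a, ∃ n, p a n = true) : CI X (fun a => Nat.find (hex a)) := by
  have h0 : CI X (fun q : α × ℕ => bif p q.1 q.2 then 0 else 1) :=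
    comp (f := fun b : Bool => bif b then 0 else 1) (of_comp (by fun_prop)) hp
  have h1 := Nat.RecursiveIn.rfind h0
  have h2 : CI X (fun a : α => a) := id
  refine (Nat.RecursiveIn.comp h1 h2).of_eq fun n => ?_
  cases hd : decode (α := α) n with
  | none => simp
  | some a =>
    simp only [Part.coe_some, Part.bind_some, Part.map_some, encode_nat, Part.bind_eq_bind]
    rw [Part.eq_some_iff, Nat.mem_rfind]
    refine ⟨by simp [encodek, Nat.find_spec (hex a)], fun {m} hm => ?_⟩
    have := Nat.find_min (hex a) hm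
    simp [encodek, this]

@[fun_prop] theorem cond {c : α → Bool} {f g : α → β} (hc : CI X c) (hf : CI X f)
    (hg : CI X g) : CI X (fun a => bif c a then f a else g a) :=
  comp (f := fun p : Bool × β × β => bif p.1 then p.2.1 else p.2.2) (of_comp (by fun_prop))
    (prodMk hc (prodMk hf hg))

@[fun_prop] theorem ite {c : α → Prop} {inst : ∀ a, Decidable (c a)} {f g : α → β}
    (hc : DI X c) (hf : CI X f) (hg : CI X g) :
    CI X (fun a => @_root_.ite _ (c a) (inst a) (f a) (g a)) :=
  (cond hc hf hg).of_eq (fun a => by by_cases h : c a <;> simp [h])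

@[fun_prop] theorem decide {c : α → Prop} {inst : ∀ a, Decidable (c a)} (hc : DI X c) :
    CI X (fun a => @Decidable.decide (c a) (inst a)) :=
  of_eq hc fun a => by congr

@[fun_prop] theorem optMap {f : α → Option β} {g : α → β → γ} (hf : CI X f)
    (hg : CI X (fun p : α × β => g p.1 p.2)) : CI X (fun a => (f a).map (g a)) := by
  by_cases hne : Nonempty β
  · obtain ⟨b⟩ := hne
    have h1 : CI X (fun a => g a ((f a).getD b)) :=
      hg.comp (g := fun a => (a, (f a).getD b)) (by fun_prop)
    have h2 : CI X (fun a => bif (f a).isSome then some (g a ((f a).getD b)) else none) := by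
      fun_prop
    exact h2.of_eq fun a => by cases f a <;> simp
  · exact (const (none : Option γ)).of_eq fun a => by
      cases h : f a with
      | none => rfl
      | some b => exact absurd ⟨b⟩ hne

@[fun_prop] theorem foldl {l : α → List β} {s : α → σ} {h : α → σ → β → σ}
    (hh : CI X (fun p : α × σ × β => h p.1 p.2.1 p.2.2)) (hs : CI X s)
    (hl : CI X l) : CI X (fun a => (l a).foldl (h a) (s a)) := by
  have h1 : CI X (fun a => @Nat.rec (fun _ => σ) (s a)
      (fun i ih => (((l a)[i]?).map (h a ih)).getD ih) (l a).length) := by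
    refine natRec (by fun_prop) hs ?_
    have h2 : CI X (fun p : α × ℕ × σ => ((l p.1)[p.2.1]?).map (h p.1 p.2.2)) := by
      refine optMap (by fun_prop) ?_
      exact hh.comp (g := fun q : (α × ℕ × σ) × β => (q.1.1, q.1.2.2, q.2)) (by fun_prop)
    fun_prop
  exact h1.of_eq (fun a => by rw [CFP.foldl_aux]; simp)

@[fun_prop] theorem flatMap {l : α → List β} {g : α → β → List γ}
    (hg : CI X (fun p : α × β => g p.1 p.2)) (hl : CI X l) :
    CI X (fun a => (l a).flatMap (g a)) := by
  have h1 : CI X (fun a => (l a).foldl (fun acc x => acc ++ g a x) []) := by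
    refine foldl ?_ (const _) hl
    have := hg.comp (g := fun q : α × List γ × β => (q.1, q.2.2)) (by fun_prop)
    fun_prop
  refine h1.of_eq (fun a => ?_)
  have : ∀ (m : List β) (acc : List γ),
      m.foldl (fun acc x => acc ++ g a x) acc = acc ++ m.flatMap (g a) := by
    intro m
    induction m with
    | nil => simp
    | cons x m ih => intro acc; simp [ih]
  simpa using this (l a) []

@[fun_prop] theorem map {l : α → List β} {g : α → β → γ}
    (hg : CI X (fun p : α × β => g p.1 p.2)) (hl : CI X l) :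
    CI X (fun a => (l a).map (g a)) :=
  (flatMap (g := fun a x => [g a x]) (by fun_prop) hl).of_eq (fun a => by
    induction l a with
    | nil => rfl
    | cons x m ih => simp [List.flatMap_cons, ih])

@[fun_prop] theorem filter {l : α → List β} {g : α → β → Bool}
    (hg : CI X (fun p : α × β => g p.1 p.2)) (hl : CI X l) :
    CI X (fun a => (l a).filter (g a)) :=
  (flatMap (g := fun a x => bif g a x then [x] else []) (cond hg (by fun_prop) (const _)) hl).of_eq
    (fun a => by
      induction l a with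
      | nil => rfl
      | cons x m ih => cases h : g a x <;> simp [List.flatMap_cons, ih, h])

@[fun_prop] theorem any {l : α → List β} {g : α → β → Bool}
    (hg : CI X (fun p : α × β => g p.1 p.2)) (hl : CI X l) :
    CI X (fun a => (l a).any (g a)) := by
  have h1 : CI X (fun a => ((l a).filter (g a)).head?.isSome) := by fun_prop
  exact h1.of_eq fun a => by rw [Bool.eq_iff_iff]; simp [List.head?_filter]

@[fun_prop] theorem all {l : α → List β} {g : α → β → Bool}
    (hg : CI X (fun p : α × β => g p.1 p.2)) (hl : CI X l) :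
    CI X (fun a => (l a).all (g a)) := by
  have h1 : CI X (fun a => !(l a).any (fun x => !g a x)) := by fun_prop
  exact h1.of_eq fun a => by rw [Bool.eq_iff_iff]; simp

@[fun_prop] theorem seg {g : α → ℕ → Bool} {n : α → ℕ}
    (hg : CI X fun p : α × ℕ => g p.1 p.2) (hn : CI X n) :
    CI X fun a => seg (g a) (n a) := map hg (by fun_prop)

@[fun_prop] theorem join {f g : α → ℕ → Bool} {n : α → ℕ}
    (hf : CI X fun p : α × ℕ => f p.1 p.2) (hg : CI X fun p : α × ℕ => g p.1 p.2)
    (hn : CI X n) : CI X fun a => join (f a) (g a) (n a) :=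
  cond (by fun_prop) (comp (g := fun a => (a, n a / 2)) hg (by fun_prop))
    (comp (g := fun a => (a, n a / 2)) hf (by fun_prop))

/-- course-of-values recursion -/
theorem exists_strongRec (F : ℕ → List σ → σ) (hF : CI X (fun p : ℕ × List σ => F p.1 p.2)) :
    ∃ u : ℕ → σ, CI X u ∧ ∀ n, u n = F n ((List.range n).map u) := by
  let tb : ℕ → List σ := fun n => @Nat.rec (fun _ => List σ) [] (fun m ih => ih ++ [F m ih]) n
  have htb : CI X tb := by
    refine natRec id (const _) ?_
    have := hF.comp (g := fun p : ℕ × ℕ × List σ => (p.2.1, p.2.2)) (by fun_prop)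
    fun_prop
  have h1 : ∀ n, tb n = (List.range n).map (fun m => F m (tb m)) := by
    intro n
    induction n with
    | zero => rfl
    | succ n ih =>
      rw [List.range_succ, List.map_append, ← ih]; rfl
  refine ⟨fun n => F n (tb n), hF.comp (g := fun n => (n, tb n)) (prodMk id htb),
    fun n => ?_⟩
  beta_reduce
  rw [← h1]

end CI

namespace DI

variable {p q : α → Prop}

theorem of_iff (hp : DI X p) (h : ∀ a, p a ↔ q a) : DI X q :=
  (funext fun a => propext (h a) : p = q) ▸ hp

theorem of_bool {f : α → Bool} (hf : CI X f) (h : ∀ a, p a ↔ f a = true) : DI X p :=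
  CI.of_eq hf fun a => by
    by_cases hp : p a
    · simp [hp, (h a).1 hp]
    · have : ¬ f a = true := fun h' => hp ((h a).2 h')
      simp [hp, this]

theorem exists_bool (hp : DI X p) : ∃ f : α → Bool, CI X f ∧ ∀ a, p a ↔ f a = true :=
  ⟨_, hp, fun a => by simp⟩

theorem mono (hp : DI X p) (h : Red X Y) : DI Y p := CI.mono hp h

@[fun_prop] theorem const (b : Prop) : DI X (fun _ : α => b) := CI.const _

@[fun_prop] theorem comp {p : β → Prop} {g : α → β} (hp : DI X p) (hg : CI X g) :
    DI X (fun a => p (g a)) := CI.comp hp hg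

@[fun_prop] theorem and (hp : DI X p) (hq : DI X q) : DI X (fun a => p a ∧ q a) := by
  obtain ⟨f, hf, e⟩ := hp.exists_bool
  obtain ⟨g, hg, e'⟩ := hq.exists_bool
  exact of_bool (f := fun a => f a && g a) (by fun_prop) fun a => by simp [e, e']

@[fun_prop] theorem or (hp : DI X p) (hq : DI X q) : DI X (fun a => p a ∨ q a) := by
  obtain ⟨f, hf, e⟩ := hp.exists_bool
  obtain ⟨g, hg, e'⟩ := hq.exists_bool
  exact of_bool (f := fun a => f a || g a) (by fun_prop) fun a => by simp [e, e']

@[fun_prop] theorem not (hp : DI X p) : DI X (fun a => ¬ p a) := by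
  obtain ⟨f, hf, e⟩ := hp.exists_bool
  exact of_bool (f := fun a => !f a) (by fun_prop) fun a => by simp [e]

/-- implications are not seen by `fun_prop`: use `refine DI.imp ?_ ?_` -/
theorem imp (hp : DI X p) (hq : DI X q) : DI X (fun a => p a → q a) :=
  (hp.not.or hq).of_iff fun _ => imp_iff_not_or.symm

@[fun_prop] theorem iff (hp : DI X p) (hq : DI X q) : DI X (fun a => p a ↔ q a) :=
  ((hp.imp hq).and (hq.imp hp)).of_iff fun _ => iff_iff_implies_and_implies.symm

@[fun_prop] theorem eq {f g : α → β} (hf : CI X f) (hg : CI X g) : DI X (fun a => f a = g a) := by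
  classical
  exact CI.comp (f := fun p : β × β => decide (p.1 = p.2)) (g := fun a => (f a, g a))
    (CI.of_comp (CFP.decEq Computable.fst Computable.snd)) (hf.prodMk hg) |>.of_eq fun a => by congr

@[fun_prop] theorem ne {f g : α → β} (hf : CI X f) (hg : CI X g) : DI X (fun a => f a ≠ g a) :=
  (eq hf hg).not

@[fun_prop] theorem lt {f g : α → ℕ} (hf : CI X f) (hg : CI X g) : DI X (fun a => f a < g a) :=
  of_bool (f := fun a => decide (f a < g a))
    (CI.comp (f := fun p : ℕ × ℕ => decide (p.1 < p.2)) (g := fun a => (f a, g a))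
      (CI.of_comp (by fun_prop)) (hf.prodMk hg)) fun a => by simp

@[fun_prop] theorem le {f g : α → ℕ} (hf : CI X f) (hg : CI X g) : DI X (fun a => f a ≤ g a) :=
  (lt hg hf).not.of_iff fun _ => not_lt

/-- existential quantifier over a list -/
theorem exL {l : α → List β} {r : α → β → Prop} (hr : DI X fun x : α × β => r x.1 x.2)
    (hl : CI X l) : DI X (fun a => ∃ b ∈ l a, r a b) := by
  obtain ⟨f, hf, e⟩ := hr.exists_bool
  exact of_bool (f := fun a => (l a).any fun b => f (a, b)) (by fun_prop) fun a => by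
    simp [← e]

/-- universal quantifier over a list -/
theorem allL {l : α → List β} {r : α → β → Prop} (hr : DI X fun x : α × β => r x.1 x.2)
    (hl : CI X l) : DI X (fun a => ∀ b ∈ l a, r a b) :=
  (exL (r := fun a b => ¬ r a b) hr.not hl).not.of_iff fun a => by simp

theorem exLt {n : α → ℕ} {r : α → ℕ → Prop} (hr : DI X fun x : α × ℕ => r x.1 x.2)
    (hn : CI X n) : DI X (fun a => ∃ b < n a, r a b) :=
  (exL (l := fun a => List.range (n a)) hr (by fun_prop)).of_iff fun a => by simp

theorem allLt {n : α → ℕ} {r : α → ℕ → Prop} (hr : DI X fun x : α × ℕ => r x.1 x.2)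
    (hn : CI X n) : DI X (fun a => ∀ b < n a, r a b) :=
  (allL (l := fun a => List.range (n a)) hr (by fun_prop)).of_iff fun a => by simp

@[fun_prop] theorem memL {l : α → List β} {f : α → β} (hf : CI X f) (hl : CI X l) :
    DI X (fun a => f a ∈ l a) :=
  (exL (r := fun a b => f a = b) (by fun_prop) hl).of_iff fun a => by simp

@[fun_prop] theorem isPrefix {l m : α → List β} (hl : CI X l) (hm : CI X m) :
    DI X (fun a => l a <+: m a) :=
  (eq (f := fun a => (m a).take (l a).length) (by fun_prop) hl).of_iff fun _ =>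
    eq_comm.trans List.prefix_iff_eq_take.symm

end DI

/-- unbounded search for a witness that is known to exist -/
theorem CI.find {p : α → ℕ → Prop} {inst : ∀ a, DecidablePred (p a)}
    (hp : DI X (fun q : α × ℕ => p q.1 q.2)) (hex : ∀ a, ∃ n, p a n) :
    CI X (fun a => @Nat.find (p a) (inst a) (hex a)) := by
  obtain ⟨f, hf, e⟩ := hp.exists_bool
  have hex' : ∀ a, ∃ n, f (a, n) = true := fun a => (hex a).imp fun n => (e (a, n)).1
  refine (CI.findB (p := fun a n => f (a, n)) hf hex').of_eq fun a => ?_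
  rw [Nat.find_eq_iff]
  exact ⟨(e (a, _)).1 (Nat.find_spec (hex a)),
    fun n hn h => Nat.find_min (hex a) hn ((e (a, n)).2 h)⟩

namespace Sig

variable {p q : α → Prop}

theorem of_iff (hp : Sig X p) (h : ∀ a, p a ↔ q a) : Sig X q :=
  (funext fun a => propext (h a) : p = q) ▸ hp

theorem mono (hp : Sig X p) (h : Red X Y) : Sig Y p :=
  let ⟨q, hq, e⟩ := hp; ⟨q, hq.mono h, e⟩

theorem of_di (hp : DI X p) : Sig X p :=
  ⟨fun x => p x.1, by fun_prop, fun a => by simp⟩

theorem comp {p : β → Prop} {g : α → β} (hp : Sig X p) (hg : CI X g) :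
    Sig X (fun a => p (g a)) :=
  let ⟨q, hq, e⟩ := hp
  ⟨fun x => q (g x.1, x.2), by fun_prop, fun a => e _⟩

theorem and (hp : Sig X p) (hq : Sig X q) : Sig X (fun a => p a ∧ q a) := by
  obtain ⟨f, hf, e⟩ := hp
  obtain ⟨g, hg, e'⟩ := hq
  refine ⟨fun x => f (x.1, x.2.unpair.1) ∧ g (x.1, x.2.unpair.2), by fun_prop, fun a => ?_⟩
  simp only [e, e']
  exact ⟨fun ⟨⟨n, hn⟩, m, hm⟩ => ⟨Nat.pair n m, by simpa using ⟨hn, hm⟩⟩,
    fun ⟨_, hn, hm⟩ => ⟨⟨_, hn⟩, _, hm⟩⟩

theorem or (hp : Sig X p) (hq : Sig X q) : Sig X (fun a => p a ∨ q a) := by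
  obtain ⟨f, hf, e⟩ := hp
  obtain ⟨g, hg, e'⟩ := hq
  exact ⟨fun x => f x ∨ g x, by fun_prop, fun a => by simp only [e, e', exists_or]⟩

/-- unbounded existential quantifier -/
theorem ex {r : α → β → Prop} (hr : Sig X fun x : α × β => r x.1 x.2) :
    Sig X (fun a => ∃ b, r a b) := by
  obtain ⟨f, hf, e⟩ := hr
  have hd : CI X fun x : α × ℕ => (decode (α := β) x.2.unpair.1).toList :=
    CI.of_comp (Primrec.optionToList.to_comp.comp (Computable.decode.comp (by fun_prop)))
  refine ⟨fun x => ∃ b ∈ (decode (α := β) x.2.unpair.1).toList, f ((x.1, b), x.2.unpair.2),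
    DI.exL (by fun_prop) hd, fun a => ⟨fun ⟨b, hb⟩ => ?_, fun ⟨n, b, _, hb⟩ => ?_⟩⟩
  · obtain ⟨n, hn⟩ := (e (a, b)).1 hb
    exact ⟨Nat.pair (encode b) n, b, by simp, by simpa using hn⟩
  · exact ⟨b, (e (a, b)).2 ⟨_, hb⟩⟩

/-- universal quantifier over a list -/
theorem allL {l : α → List β} {r : α → β → Prop} (hr : Sig X fun x : α × β => r x.1 x.2)
    (hl : CI X l) : Sig X (fun a => ∀ b ∈ l a, r a b) := by
  obtain ⟨f, hf, e⟩ := hr
  refine ⟨fun x => ∀ b ∈ l x.1, ∃ m < x.2, f ((x.1, b), m),
    DI.allL (DI.exLt (by fun_prop) (by fun_prop)) (by fun_prop),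
    fun a => ⟨fun h => ?_, fun ⟨n, h⟩ b hb => ?_⟩⟩
  · have : ∀ m : List β, (∀ b ∈ m, r a b) → ∃ n, ∀ b ∈ m, ∃ u < n, f ((a, b), u) := by
      intro m
      induction m with
      | nil => simp
      | cons c m ih =>
        intro hm
        obtain ⟨n, hn⟩ := ih fun b hb => hm b (List.mem_cons_of_mem _ hb)
        obtain ⟨u, hu⟩ := (e (a, c)).1 (hm c List.mem_cons_self)
        refine ⟨max n (u + 1), fun b hb => ?_⟩
        rcases List.mem_cons.1 hb with rfl | hb
        · exact ⟨u, by omega, hu⟩
        · obtain ⟨w, hw, h⟩ := hn b hb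
          exact ⟨w, by omega, h⟩
    exact this _ h
  · obtain ⟨m, _, hm⟩ := h b hb
    exact (e (a, b)).2 ⟨m, hm⟩

theorem allLt {n : α → ℕ} {r : α → ℕ → Prop} (hr : Sig X fun x : α × ℕ => r x.1 x.2)
    (hn : CI X n) : Sig X (fun a => ∀ b < n a, r a b) :=
  (allL (l := fun a => List.range (n a)) hr (by fun_prop)).of_iff fun a => by simp

/-- Post's theorem -/
theorem post (hp : Sig X p) (hq : Sig X fun a => ¬ p a) : DI X p := by
  classical
  obtain ⟨f, hf, e⟩ := hp
  obtain ⟨g, hg, e'⟩ := hq
  have hex : ∀ a, ∃ n, f (a, n) ∨ g (a, n) := fun a => by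
    by_cases h : p a
    · exact ((e a).1 h).imp fun _ => Or.inl
    · exact ((e' a).1 h).imp fun _ => Or.inr
  have h1 : CI X fun a => Nat.find (hex a) := CI.find (by fun_prop) hex
  refine DI.of_iff (p := fun a => f (a, Nat.find (hex a))) (by fun_prop) fun a => ?_
  refine ⟨fun h => (e a).2 ⟨_, h⟩, fun h => (Nat.find_spec (hex a)).resolve_right fun h' => ?_⟩
  exact (e' a).2 ⟨_, h'⟩ h

/-- uniformisation of a total c.e. relation -/
theorem choose {r : α → β → Prop} (hr : Sig X fun x : α × β => r x.1 x.2)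
    (hex : ∀ a, ∃ b, r a b) : ∃ f : α → β, CI X f ∧ ∀ a, r a (f a) := by
  classical
  by_cases hne : Nonempty α
  swap
  · exact ⟨fun a => absurd ⟨a⟩ hne, by
      have : CI X fun a : α => (hex a).choose := by
        refine (Nat.RecursiveIn.of_eq (RecursiveIn.iff_nat.1 RecursiveIn.none) fun n => ?_)
        cases h : decode (α := α) n with
        | none => simp
        | some a => exact absurd ⟨a⟩ hne
      exact this.of_eq fun a => absurd ⟨a⟩ hne, fun a => absurd ⟨a⟩ hne⟩
  obtain ⟨a0⟩ := hne
  obtain ⟨b0, -⟩ := hex a0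
  obtain ⟨f, hf, e⟩ := hr
  have hd : CI X fun n : ℕ => (decode (α := β) n.unpair.1).getD b0 :=
    CI.of_comp (CFP.optGetD (Computable.decode.comp (by fun_prop)) (by fun_prop))
  have hex' : ∀ a, ∃ n : ℕ, f ((a, (decode (α := β) n.unpair.1).getD b0), n.unpair.2) := by
    intro a
    obtain ⟨b, hb⟩ := hex a
    obtain ⟨n, hn⟩ := (e (a, b)).1 hb
    exact ⟨Nat.pair (encode b) n, by simpa using hn⟩
  have h1 : CI X fun a => Nat.find (hex' a) := by
    refine CI.find ?_ hex'
    have := hd.comp (g := fun x : α × ℕ => x.2) (by fun_prop)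
    fun_prop
  exact ⟨fun a => (decode (α := β) (Nat.find (hex' a)).unpair.1).getD b0, hd.comp h1,
    fun a => (e (a, _)).2 ⟨_, Nat.find_spec (hex' a)⟩⟩

end Sig

theorem CI.of_graph {f : α → β} (h : Sig X fun x : α × β => f x.1 = x.2) : CI X f := by
  obtain ⟨g, hg, e⟩ := Sig.choose (r := fun a b => f a = b) h fun a => ⟨_, rfl⟩
  exact hg.of_eq fun a => (e a).symm

/-- effective dependent choice -/
theorem exists_path {r : σ → σ → Prop} {I : σ → Prop} (hr : Sig X fun x : σ × σ => r x.1 x.2)
    {s0 : σ} (h0 : I s0) (hI : ∀ s s', I s → r s s' → I s') (hex : ∀ s, I s → ∃ s', r s s') :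
    ∃ R : ℕ → σ, CI X R ∧ R 0 = s0 ∧ ∀ t, r (R t) (R (t + 1)) := by
  classical
  obtain ⟨f, hf, e⟩ := hr
  let d : ℕ → σ := fun n => (decode (α := σ) n.unpair.1).getD s0
  have hd : CI X d :=
    CI.of_comp (CFP.optGetD (Computable.decode.comp (by fun_prop)) (by fun_prop))
  let W : σ → ℕ → Prop := fun s n => f ((s, d n), n.unpair.2)
  have hW : DI X fun x : σ × ℕ => W x.1 x.2 := by
    simp only [W]
    fun_prop
  have hWex : ∀ s, I s → ∃ n, W s n := fun s hs => by
    obtain ⟨s', hs'⟩ := hex s hs
    obtain ⟨n, hn⟩ := (e (s, s')).1 hs'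
    exact ⟨Nat.pair (encode s') n, by simpa [W, d] using hn⟩
  let nx : σ → σ := fun s => if h : ∃ n, W s n then d (Nat.find h) else s0
  have hnx : ∀ s, I s → r s (nx s) := fun s hs => by
    simp only [nx, dif_pos (hWex s hs)]
    exact (e (s, _)).2 ⟨_, Nat.find_spec (hWex s hs)⟩
  let R : ℕ → σ := fun t => nx^[t] s0
  have hR : ∀ t, R (t + 1) = nx (R t) := fun t => Function.iterate_succ_apply' _ _ _
  have hRI : ∀ t, I (R t) := by
    intro t
    induction t with
    | zero => exact h0
    | succ t ih => exact hI _ _ ih (hR t ▸ hnx _ ih)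
  let r1 : σ → σ → Prop := fun s s' => ∃ n, W s n ∧ (∀ m < n, ¬ W s m) ∧ s' = d n
  have hr1 : ∀ s s', r1 s s' ↔ (∃ n, W s n) ∧ s' = nx s := by
    intro s s'
    constructor
    · rintro ⟨n, h1, h2, rfl⟩
      refine ⟨⟨n, h1⟩, ?_⟩
      simp only [nx, dif_pos (⟨n, h1⟩ : ∃ n, W s n)]
      rw [(Nat.find_eq_iff _).2 ⟨h1, h2⟩]
    · rintro ⟨h, rfl⟩
      exact ⟨Nat.find h, Nat.find_spec h, fun m => Nat.find_min h, by simp only [nx, dif_pos h]⟩
  have hs1 : Sig X fun x : σ × σ => r1 x.1 x.2 := by
    refine Sig.ex (Sig.of_di (DI.and ?_ (DI.and (DI.allLt (DI.not ?_) (by fun_prop)) ?_)))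
    · exact hW.comp (g := fun x : (σ × σ) × ℕ => (x.1.1, x.2)) (by fun_prop)
    · exact hW.comp (g := fun x : ((σ × σ) × ℕ) × ℕ => (x.1.1.1, x.2)) (by fun_prop)
    · fun_prop
  refine ⟨R, CI.of_graph (Sig.of_iff (p := fun x : ℕ × σ => ∃ l : List σ, l.getD 0 s0 = s0 ∧
    l.getD x.1 s0 = x.2 ∧ ∀ i < x.1, r1 (l.getD i s0) (l.getD (i + 1) s0)) ?_ ?_), rfl,
    fun t => hR t ▸ hnx _ (hRI t)⟩
  · refine Sig.ex (Sig.and (Sig.of_di (by fun_prop)) (Sig.and (Sig.of_di (by fun_prop))
      (Sig.allLt ?_ (by fun_prop))))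
    exact hs1.comp (g := fun x : ((ℕ × σ) × List σ) × ℕ =>
      (x.1.2.getD x.2 s0, x.1.2.getD (x.2 + 1) s0)) (by fun_prop)
  · rintro ⟨t, s⟩
    constructor
    · rintro ⟨l, h1, h2, h3⟩
      have : ∀ i ≤ t, l.getD i s0 = R i := by
        intro i
        induction i with
        | zero => exact fun _ => h1
        | succ i ih =>
          intro hi
          rw [hR, ← ih (by omega)]
          exact ((hr1 _ _).1 (h3 i hi)).2
      exact (this t le_rfl).symm.trans h2
    · intro h
      have : ∀ i ≤ t, ((List.range (t + 1)).map R).getD i s0 = R i := fun i hi => by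
        simp [List.getD_eq_getElem?_getD, Nat.lt_succ_of_le hi]
      refine ⟨(List.range (t + 1)).map R, this 0 (by omega), (this t le_rfl).trans h,
        fun i hi => ?_⟩
      rw [this i (by omega), this (i + 1) hi]
      exact (hr1 _ _).2 ⟨hWex _ (hRI i), hR i⟩

theorem Red.refl (A : ℕ → Bool) : Red A A := CI.oracle

theorem Red.trans {A B C : ℕ → Bool} (h : Red A B) (h' : Red B C) : Red A C := CI.mono h h'

theorem red_iff {A B : ℕ → Bool} : Red A B ↔ TuringReducible (chi A) (chi B) := by
  constructor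
  · intro h
    exact CI.comp (f := Bool.toNat) (CI.of_comp (Primrec.dom_bool Bool.toNat).to_comp) h
  · intro h
    have h1 : CI B (fun n => (A n).toNat) := h
    exact (CI.comp (f := fun m : ℕ => decide (m = 1)) (CI.of_comp (by fun_prop)) h1).of_eq
      fun n => by cases A n <;> simp

@[simp] theorem join_even (A B : ℕ → Bool) (n : ℕ) : join A B (2 * n) = A n := by simp [join]

@[simp] theorem join_odd (A B : ℕ → Bool) (n : ℕ) : join A B (2 * n + 1) = B n := by
  have : (2 * n + 1) / 2 = n := by omega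
  simp [join, this]

theorem red_left (A B : ℕ → Bool) : Red A (join A B) :=
  (CI.comp (g := fun n => 2 * n) CI.oracle (by fun_prop)).of_eq fun n => by simp

theorem red_right (A B : ℕ → Bool) : Red B (join A B) :=
  (CI.comp (g := fun n => 2 * n + 1) CI.oracle (by fun_prop)).of_eq fun n => by simp

theorem Red.join {A B C : ℕ → Bool} (hA : Red A C) (hB : Red B C) : Red (join A B) C := by
  unfold Red at *
  exact CI.join (f := fun _ => A) (g := fun _ => B) (n := fun n => n) (by fun_prop) (by fun_prop)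
    CI.id

@[simp] theorem seg_length (x : ℕ → Bool) (n : ℕ) : (seg x n).length = n := by simp [seg]

theorem seg_getD (x : ℕ → Bool) {n i : ℕ} (h : i < n) : (seg x n).getD i false = x i := by
  simp [List.getD_eq_getElem?_getD, seg, h]

theorem seg_take (x : ℕ → Bool) {n m : ℕ} (h : m ≤ n) : (seg x n).take m = seg x m := by
  simp [seg, ← List.map_take, List.take_range, min_eq_left h]

theorem seg_eq_iff {x y : ℕ → Bool} {n : ℕ} : seg x n = seg y n ↔ ∀ i < n, x i = y i := by
  simp [seg]

theorem ci_iff {f : α → β} : CI X f ↔ ComputableIn {chi X} f := Iff.rfl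

attribute [irreducible] CI DI

end Pool.Agent.P.MP_9014a2_lc
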