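import Mathlib

namespace Pool.Agent.P.MP_9014a2_lc

/-- The characteristic function of a set of naturals, as an oracle. -/
def chi (A : ℕ → Bool) : ℕ →. ℕ := fun x => Part.some (A x).toNat

/-- The join of two sets: `A` on the even numbers, `B` on the odd numbers. -/
def join (A B : ℕ → Bool) : ℕ → Bool := fun n => bif n.bodd then B (n / 2) else A (n / 2)

/-- Turing ideals: nonempty classes of sets closed under join and Turing reducibility. -/
structure TuringIdeal (I : Set (ℕ → Bool)) : Prop where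
  nonempty : I.Nonempty
  join_mem : ∀ A ∈ I, ∀ B ∈ I, join A B ∈ I
  red_mem : ∀ A ∈ I, ∀ B, TuringReducible (chi B) (chi A) → B ∈ I

/-- `A` is the graph of `F`, with the pair of `x` and `F x` coded as a number. -/
def IsGraph {k : ℕ} (A : ℕ → Bool) (F : (Fin k → ℕ) → ℕ) : Prop :=
  ∀ n, A n = true ↔ ∃ x, n = Nat.pair (Encodable.encode (List.ofFn x)) (F x)

/-- The free set principle for exponent `k` holds in `I`. -/
def T1 (I : Set (ℕ → Bool)) (k : ℕ) : Prop :=
  ∀ F : (Fin k → ℕ) → ℕ, (∃ G ∈ I, IsGraph G F) → ∃ A ∈ I, {n | A n = true}.Infinite ∧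
    ∀ x : Fin k → ℕ, (∀ i, A (x i) = true) → A (F x) = true → ∃ i, F x = x i

/-- The thin set principle for exponent `k` holds in `I`. -/
def T2 (I : Set (ℕ → Bool)) (k : ℕ) : Prop :=
  ∀ F : (Fin k → ℕ) → ℕ, (∃ G ∈ I, IsGraph G F) → ∃ A ∈ I, {n | A n = true}.Infinite ∧
    ∃ c, ∀ x : Fin k → ℕ, (∀ i, A (x i) = true) → F x ≠ c

end Pool.Agent.P.MP_9014a2_lc
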