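import Pool.Agent.P.MP_9014a2_lc.Runs

/-!
Transfer of aliveness from a stem of the next level to a recorded run.
-/

namespace Pool.Agent.P.MP_9014a2_lc

namespace AliveT

theorem zs_biUnion_le (k : ℕ) (T : Finset ℕ) (u : ℕ → Finset ℕ) :
    zs k (T.biUnion u) ≤ ∑ b ∈ T, zs k (u b) := by
  induction T using Finset.induction_on with
  | empty => simp [zs]
  | insert a T ha ih =>
    rw [Finset.biUnion_insert, Finset.sum_insert ha]
    exact (zs_union_le k _ _).trans (Nat.add_le_add_left ih _)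

variable {k j : ℕ} {C : ℕ → ℕ → Bool} {σ : Type} [Primcodable σ]

/-- pairs `(h, τ0)` whose section is added -/
def Adm (d : Dat k C j σ) (A : Finset ℕ) (p : ℕ × Finset ℕ) : Prop :=
  p.1 ∈ A ∪ d.P0 ∧ lev p.1 = j + 1 ∧ p.2 ⊆ A ∧ (∀ a ∈ p.2, lev a ≤ j) ∧ zs k p.2 < wt p.1

theorem exists_secs (d : Dat k C j σ) (A : Finset ℕ) :
    ∃ Γ : Finset ℕ, ∀ b, b ∈ Γ ↔ ∃ p, Adm d A p ∧ d.B p.1 p.2 = b := by
  classical
  refine ⟨(((A ∪ d.P0) ×ˢ A.powerset).filter (Adm d A)).image fun p => d.B p.1 p.2, fun b => ?_⟩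
  simp only [Finset.mem_image, Finset.mem_filter, Finset.mem_product, Finset.mem_powerset]
  exact ⟨fun ⟨p, hp, h⟩ => ⟨p, hp.2, h⟩, fun ⟨p, hp, h⟩ => ⟨p, ⟨⟨hp.1, hp.2.2.1⟩, hp⟩, h⟩⟩

theorem wt_le (d : Dat k C j σ) {A : Finset ℕ} (hA : ∀ a ∈ A, 1 ≤ z k a) {p : ℕ × Finset ℕ}
    (hp : Adm d A p) : wt p.1 + j ≤ k := by
  obtain ⟨h1, h2, -⟩ := hp
  rcases Finset.mem_union.1 h1 with h | h
  · have h3 := hA _ h
    rw [z, if_neg (by omega)] at h3
    omega
  · exact (d.hP0.1 _ h).2.le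

theorem virt_sec (d : Dat k C j σ) {A : Finset ℕ} (hA : ∀ a ∈ A, 1 ≤ z k a) {p : ℕ × Finset ℕ}
    (hp : Adm d A p) : Virt k j (d.B p.1 p.2) := by
  have h1 := wt_le d hA hp
  obtain ⟨h2, h3, -⟩ := d.hB.2 p.1 p.2 hp.2.1
  have h4 := hp.2.2.2.2
  refine ⟨?_, ?_, ?_⟩ <;> omega

theorem z_sec (d : Dat k C j σ) {A : Finset ℕ} (hA : ∀ a ∈ A, 1 ≤ z k a) {p : ℕ × Finset ℕ}
    (hp : Adm d A p) : z k (d.B p.1 p.2) = z k p.1 + zs k p.2 := by
  have h1 := wt_le d hA hp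
  obtain ⟨h2, h3, -⟩ := d.hB.2 p.1 p.2 hp.2.1
  have h4 := hp.2.2.2.2
  have h5 := hp.2.1
  rw [z, z, if_neg (by omega), if_neg (by omega)]
  omega

/-- `u` is a support of the atom `b` -/
def Sup (d : Dat k C j σ) (E : Finset ℕ) (b : ℕ) (u : Finset ℕ) : Prop :=
  u ⊆ E ∧ zs k u ≤ z k b ∧ u.card ≤ k + 1 ∧ (∀ W, u ⊆ W → b ∈ d.U W) ∧
    (∀ a ∈ u, j + 1 < lev a → a = b) ∧ ∀ a ∈ u, ∀ v, Om C a v → Om C b v

theorem sup_self (d : Dat k C j σ) {E : Finset ℕ} {b : ℕ} (hb : b ∈ E) : Sup d E b {b} := by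
  refine ⟨by simpa using hb, by simp [zs], by simp, fun W hW => ?_, by simp, by simp⟩
  exact Finset.mem_union_left _ (by simpa using hW)

theorem sup_sec (d : Dat k C j σ) {A E : Finset ℕ} (hA : ∀ a ∈ A, 1 ≤ z k a) (hE : A ⊆ E)
    {p : ℕ × Finset ℕ} (hp : Adm d A p) : ∃ u, Sup d E (d.B p.1 p.2) u := by
  have h1 := wt_le d hA hp
  have h2 := z_sec d hA hp
  obtain ⟨h3, -, h4⟩ := d.hB.2 p.1 p.2 hp.2.1
  obtain ⟨h5, h6, h7, h8, h9⟩ := hp
  have hc : p.2.card ≤ zs k p.2 := card_le_zs fun a ha => hA a (h7 ha)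
  have hom : ∀ a ∈ p.2, ∀ v, Om C a v → Om C (d.B p.1 p.2) v := fun a ha v hv =>
    (om_iff (by omega)).2 fun τ hτ => ((h4 τ v).1 hτ).2 ⟨a, ha, h8 a ha, hv⟩
  have hU : ∀ W, p.1 ∈ W ∪ d.P0 → p.2 ⊆ W → d.B p.1 p.2 ∈ d.U W := fun W h h' =>
    Finset.mem_union_right _ (Finset.mem_biUnion.2
      ⟨p.1, h, Finset.mem_image.2 ⟨p.2, Finset.mem_powerset.2 h', rfl⟩⟩)
  rcases Finset.mem_union.1 h5 with h | h
  · refine ⟨{p.1} ∪ p.2, Finset.union_subset (by simpa using hE h) (h7.trans hE), ?_, ?_,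
      fun W hW => ?_, fun a ha hl => ?_, fun a ha v hv => ?_⟩
    · refine (zs_union_le k _ _).trans ?_
      rw [h2]
      simp [zs]
    · refine (Finset.card_union_le _ _).trans ?_
      rw [Finset.card_singleton]
      omega
    · exact hU W (Finset.mem_union_left _ (hW (by simp))) (Finset.subset_union_right.trans hW)
    · rcases Finset.mem_union.1 ha with h' | h'
      · rw [Finset.mem_singleton.1 h'] at hl
        omega
      · have := h8 a h'
        omega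
    · rcases Finset.mem_union.1 ha with h' | h'
      · rw [Finset.mem_singleton.1 h'] at hv
        exact (om_iff (by omega)).2 fun τ hτ => (om_iff (by omega)).1 hv _ ((h4 τ v).1 hτ).1
      · exact hom a h' v hv
  · refine ⟨p.2, h7.trans hE, by omega, by omega,
      fun W hW => hU W (Finset.mem_union_right _ h) hW, fun a ha hl => ?_, hom⟩
    have := h8 a ha
    omega

end AliveT

open AliveT in
theorem all_alive : S_alive := by
  intro k C j σ _ d s S γ r hs hr hS hγ hal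
  have hA : ∀ a ∈ s.A, 1 ≤ z k a := fun a ha => (hs.1 a ha).2.1
  obtain ⟨Γ, hΓ⟩ := exists_secs d s.A
  have hV : ∀ c ∈ γ ∪ Γ, Virt k j c := fun c hc => by
    rcases Finset.mem_union.1 hc with h | h
    · obtain ⟨h1, h2, h3⟩ := hγ c h
      exact ⟨by omega, h2, h3⟩
    · obtain ⟨p, hp, rfl⟩ := (hΓ c).1 h
      exact virt_sec d hA hp
  refine ⟨γ ∪ Γ, Finset.subset_union_left, hV, fun h h1 h2 τ0 h3 h4 h5 =>
    Finset.mem_union_right _ ((hΓ _).2 ⟨(h, τ0), ⟨h1, h2, h3, h4, h5⟩, rfl⟩), ?_⟩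
  intro T hT v hv hβ
  obtain ⟨hc, hz, hl⟩ := d.S.b1 T v hβ
  rcases hz.eq_or_lt with hz | hz
  · have hT' : T ⊆ d.S.atm (d.cur r) := fun a ha => by
      rcases Finset.mem_union.1 (hT ha) with h | h
      · exact h
      · have h1 := (hV a h).1
        have h2 := hl a ha h1
        omega
    by_contra hn
    exact hS v hv (Or.inr (Or.inl ⟨r, hr, Or.inr ⟨T, hT', hz, hβ, fun h => hn h.omS⟩⟩))
  · have hsup : ∀ b, ∃ u, b ∈ T → Sup d (s.A ∪ γ) b u := fun b => by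
      by_cases hb : b ∈ T
      · simp only [hb, true_imp_iff]
        rcases Finset.mem_union.1 (hT hb) with h | h
        · exact ⟨_, sup_self d (Finset.mem_union_left _ ((hs.2.1 r hr).2.2.1 h))⟩
        · rcases Finset.mem_union.1 h with h | h
          · exact ⟨_, sup_self d (Finset.mem_union_right _ h)⟩
          · obtain ⟨p, hp, rfl⟩ := (hΓ b).1 h
            exact sup_sec d hA Finset.subset_union_left hp
      · exact ⟨∅, fun h => absurd h hb⟩
    choose u hu using hsup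
    have hzs : zs k (T.biUnion u) ≤ zs k T :=
      (zs_biUnion_le k T u).trans (Finset.sum_le_sum fun b hb => (hu b hb).2.1)
    have h1 : d.β1 (T.biUnion u) v := by
      refine ⟨?_, fun a ha hla => ?_, T, fun b hb => ?_, hzs, hz, hβ⟩
      · exact (Finset.card_biUnion_le_card_mul T u _ fun b hb => (hu b hb).2.2.1).trans
          (Nat.mul_le_mul_right _ hc)
      · obtain ⟨b, hb, hab⟩ := Finset.mem_biUnion.1 ha
        obtain rfl := (hu b hb).2.2.2.2.1 a hab hla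
        have := hl a hb (by omega)
        omega
      · exact (hu b hb).2.2.2.1 _ (Finset.subset_biUnion_of_mem u hb)
    obtain ⟨a, ha, hom⟩ := hal (T.biUnion u)
      (Finset.biUnion_subset.2 fun b hb => (hu b hb).1) v hv (Or.inl h1)
    obtain ⟨b, hb, hab⟩ := Finset.mem_biUnion.1 ha
    exact ⟨b, hb, (hu b hb).2.2.2.2.2 a hab v hom⟩

end Pool.Agent.P.MP_9014a2_lc
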