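import Pool.Agent.P.MP_9014a2_lc.Runs

/-! A uniform approximation of the sets below the jump. -/

namespace Pool.Agent.P.MP_9014a2_lc

open Filter

namespace Approx

/-- the approximation of the jump at stage `s` -/
def ap (Z : ℕ → Bool) (s n : ℕ) : Bool := W n.unpair.1 n.unpair.2 (seg Z s)

theorem ev (Z : ℕ → Bool) (n : ℕ) : ∀ᶠ s in atTop, ap Z s n = jump Z n := by
  cases h : jump Z n with
  | true =>
    obtain ⟨s, hs⟩ := jump_iff.1 h
    exact eventually_atTop.2 ⟨s, fun t ht => W_mono (seg_isPrefix Z ht) hs⟩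
  | false =>
    exact Eventually.of_forall fun s => Bool.eq_false_iff.2 fun h' =>
      Bool.eq_false_iff.1 h (jump_iff.2 ⟨s, h'⟩)

theorem ev_seg (Z : ℕ → Bool) (u : ℕ) :
    ∀ᶠ s in atTop, ∀ v ≤ u, seg (ap Z s) v = seg (jump Z) v := by
  filter_upwards [(Finset.range u).eventually_all.2 fun n _ => ev Z n] with s hs v hv
  exact seg_eq_iff.2 fun i hi => hs i (Finset.mem_range.2 (hi.trans_le hv))

end Approx

theorem all_approx : S_approx := by
  classical
  intro Z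
  have h0 := CI.oracle (X := Z)
  have h1 : CI Z fun p : ℕ × ℕ => Approx.ap Z p.1 p.2 := by
    unfold Approx.ap
    fun_prop
  have h2 : DI Z fun p : ℕ × ℕ × ℕ × ℕ => W p.1 p.2.1 (seg (Approx.ap Z p.2.2.1) p.2.2.2) = true := by
    have := h1.comp (g := fun p : (ℕ × ℕ × ℕ × ℕ) × ℕ => (p.1.2.2.1, p.2)) (by fun_prop)
    have h3 : CI Z fun p : ℕ × ℕ × ℕ × ℕ => seg (Approx.ap Z p.2.2.1) p.2.2.2 :=
      CI.seg this (by fun_prop)
    fun_prop
  refine ⟨fun p => decide (∃ u < p.2.2, W p.1.unpair.1 p.2.1 (seg (Approx.ap Z p.2.2) u) = true ∧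
    ∀ v < u, ¬ W p.1.unpair.2 p.2.1 (seg (Approx.ap Z p.2.2) v) = true),
    CI.decide (DI.exLt (DI.and ?_ (DI.allLt (DI.not ?_) (by fun_prop))) (by fun_prop)),
    fun A hA => ?_⟩
  · exact h2.comp (g := fun x : (ℕ × ℕ × ℕ) × ℕ => (x.1.1.unpair.1, x.1.2.1, x.1.2.2, x.2))
      (by fun_prop)
  · exact h2.comp (g := fun x : ((ℕ × ℕ × ℕ) × ℕ) × ℕ =>
      (x.1.1.1.unpair.2, x.1.1.2.1, x.1.1.2.2, x.2)) (by fun_prop)
  obtain ⟨p, hp⟩ := (Sig.of_di hA.di).exists_code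
  obtain ⟨q, hq⟩ := (Sig.of_di hA.di.not).exists_code
  simp only [jump_iff, Nat.unpair_pair, Encodable.encode_nat] at hp hq
  refine ⟨Nat.pair p q, fun x => ?_⟩
  simp only [Nat.unpair_pair]
  cases hx : A x with
  | true =>
    obtain ⟨u, hu⟩ := (hp x).1 hx
    filter_upwards [Approx.ev_seg Z u, eventually_gt_atTop u] with s hs hs'
    refine decide_eq_true ⟨u, hs', by rwa [hs u le_rfl], fun v hv h => ?_⟩
    rw [hs v hv.le] at h
    exact (hq x).2 ⟨v, h⟩ hx
  | false =>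
    obtain ⟨v, hv⟩ := (hq x).1 (by simp [hx])
    filter_upwards [Approx.ev_seg Z v] with s hs
    refine decide_eq_false fun ⟨u, _, h, h'⟩ => ?_
    rcases le_or_gt u v with huv | huv
    · rw [hs u huv] at h
      simpa [hx] using (hp x).2 ⟨u, h⟩
    · exact h' v huv (by rwa [hs v le_rfl])

end Pool.Agent.P.MP_9014a2_lc
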