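import Pool.Agent.P.MP_9014a2_lc.Runs

/-!
Bounds for the type relation of the next level.
-/

namespace Pool.Agent.P.MP_9014a2_lc

namespace B12

variable {k j : ℕ} {C : ℕ → ℕ → Bool} {σ : Type} [Primcodable σ] (d : Dat k C j σ)

theorem card_U {T : Finset ℕ} {c : ℕ} (h : T.card ≤ c) :
    (d.U T).card ≤ c + (c + d.P0.card) * 2 ^ c := by
  unfold Dat.U
  refine (Finset.card_union_le _ _).trans (Nat.add_le_add h ?_)
  refine (Finset.card_biUnion_le_card_mul _ _ (2 ^ c) fun a _ => ?_).trans ?_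
  · refine Finset.card_image_le.trans ?_
    rw [Finset.card_powerset]
    exact Nat.pow_le_pow_right (by norm_num) h
  · exact Nat.mul_le_mul_right _ ((Finset.card_union_le _ _).trans (Nat.add_le_add_right h _))

theorem beta2_bounds {T : Finset ℕ} {v : ℕ} (h : d.β2 T v) :
    T.card ≤ k + 1 ∧ zs k T + (j + 1) ≤ k ∧ ∀ a ∈ T, lev a + zs k T ≤ k := by
  obtain ⟨hV, c, hc, γ0, hγ, hs, -⟩ := h
  have hsub : γ0 ⊆ T := by
    rcases hγ with rfl | rfl
    · exact Finset.Subset.refl _
    · exact Finset.erase_subset _ _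
  have hz : ∀ a ∈ T, z k a + (lev a - j - 1) = k - j - wt a ∧ 1 ≤ lev a - j - 1 := by
    intro a ha
    obtain ⟨h1, h2, h3⟩ := hV a ha
    have h0 : lev a ≠ 0 := by omega
    simp only [z, h0, if_false]
    omega
  obtain ⟨hc1, hc2, hc3⟩ := hV c hc
  have hsum : zs k γ0 + ∑ a ∈ γ0, (lev a - j - 1) = wt c := by
    rw [← hs, zs, ← Finset.sum_add_distrib]
    exact Finset.sum_congr rfl fun a ha => (hz a (hsub ha)).1
  have hcard : γ0.card ≤ ∑ a ∈ γ0, (lev a - j - 1) := by
    simpa using Finset.card_nsmul_le_sum γ0 (fun a => lev a - j - 1) 1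
      fun a ha => (hz a (hsub ha)).2
  have hne : 1 ≤ γ0.card := by
    rw [Nat.one_le_iff_ne_zero]
    intro h0
    rw [Finset.card_eq_zero] at h0
    subst h0
    simp at hs
    omega
  have hT : zs k T ≤ z k c + zs k γ0 ∧ T.card ≤ γ0.card + 1 := by
    rcases hγ with rfl | rfl
    · exact ⟨Nat.le_add_left _ _, Nat.le_succ _⟩
    · refine ⟨(Finset.add_sum_erase T (z k) hc).ge, ?_⟩
      rw [Finset.card_erase_add_one hc]
  have hzc : z k c + lev c + wt c = k + 1 := by
    have h0 : lev c ≠ 0 := by omega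
    simp only [z, h0, if_false]
    omega
  refine ⟨by omega, by omega, fun a ha => ?_⟩
  by_cases hac : a = c
  · subst hac
    omega
  · have ha0 : a ∈ γ0 := by
      rcases hγ with rfl | rfl
      · exact ha
      · exact Finset.mem_erase.2 ⟨hac, ha⟩
    have h1 : lev a - j - 1 ≤ ∑ a ∈ γ0, (lev a - j - 1) :=
      Finset.single_le_sum (f := fun a => lev a - j - 1) (fun _ _ => Nat.zero_le _) ha0
    have h2 := (hV a ha).1
    omega

theorem exists_w : ∃ w : ℕ → Finset ℕ → ℕ, ∀ c γ0 v, d.δ (c, γ0, v) → v = w c γ0 := by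
  classical
  refine ⟨fun c γ0 => if h : ∃ v, d.δ (c, γ0, v) then h.choose else 0, fun c γ0 v hv => ?_⟩
  have h : ∃ v, d.δ (c, γ0, v) := ⟨v, hv⟩
  simp only [h, dif_pos]
  exact d.hδ.1 c γ0 _ _ hv h.choose_spec

end B12

theorem all_b12 : S_b12 := by
  intro k C j σ _ d
  obtain ⟨w, hw⟩ := B12.exists_w d
  choose V hV using d.S.b2
  set c := d.S.D * (k + 1) + (k + 1) with hc
  set N := c + (c + d.P0.card) * 2 ^ c with hN
  have hcard : ∀ T v, d.β T v → T.card ≤ c := by
    rintro T v (h | h)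
    · have := h.1
      omega
    · have := (B12.beta2_bounds d h).1
      omega
  refine ⟨c + (2 ^ N * d.S.D + (c + c)), fun T v h => ⟨?_, ?_⟩, fun T => ?_⟩
  · exact (hcard T v h).trans (Nat.le_add_right _ _)
  · rcases h with ⟨-, h2, T0, -, h3, h4, -⟩ | h
    · exact ⟨by omega, h2⟩
    · exact ⟨(B12.beta2_bounds d h).2.1, fun a ha _ => (B12.beta2_bounds d h).2.2 a ha⟩
  · by_cases hT : T.card ≤ c
    · refine ⟨(d.U T).powerset.biUnion V ∪
        (T.image (fun a => w a T) ∪ T.image fun a => w a (T.erase a)), ?_, ?_⟩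
      · refine (Finset.card_union_le _ _).trans (le_add_left (Nat.add_le_add ?_ ?_))
        · refine (Finset.card_biUnion_le_card_mul _ _ d.S.D fun a _ => (hV a).1).trans ?_
          rw [Finset.card_powerset]
          exact Nat.mul_le_mul_right _ (Nat.pow_le_pow_right (by norm_num) (B12.card_U d hT))
        · exact (Finset.card_union_le _ _).trans
            (Nat.add_le_add (Finset.card_image_le.trans hT) (Finset.card_image_le.trans hT))
      · rintro v (⟨-, -, T0, hT0, -, -, h⟩ | ⟨-, a, ha, γ0, hγ, -, h⟩)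
        · exact Finset.mem_union_left _
            (Finset.mem_biUnion.2 ⟨T0, Finset.mem_powerset.2 hT0, (hV T0).2 v h⟩)
        · refine Finset.mem_union_right _ ?_
          rcases hγ with rfl | rfl
          · exact Finset.mem_union_left _ (Finset.mem_image.2 ⟨a, ha, (hw _ _ _ h).symm⟩)
          · exact Finset.mem_union_right _ (Finset.mem_image.2 ⟨a, ha, (hw _ _ _ h).symm⟩)
    · exact ⟨∅, Nat.zero_le _, fun v h => absurd (hcard T v h) hT⟩

end Pool.Agent.P.MP_9014a2_lc
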