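import Pool.Agent.P.MP_9014a2_lc.Runs

/-!
The complexity of the types of the next level.
-/

namespace Pool.Agent.P.MP_9014a2_lc

open Pool.Agent.Lib.Helper43 Encodable

namespace B3

variable {k j l : ℕ} {C : ℕ → ℕ → Bool} {σ : Type} [Primcodable σ] (d : Dat k C j σ)

theorem ci_U : CI (jump (C j)) d.U := by
  have h := d.hB.1
  exact CI.unionF (by fun_prop) (CI.biUnionF (CI.imageSub
    (h.comp (g := fun x : (Finset ℕ × ℕ) × Finset ℕ => (x.1.2, x.2)) (by fun_prop)) (by fun_prop))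
    (by fun_prop))

theorem one (hl : j + 1 ≤ l) :
    DM (C l) fun p : Finset ℕ × ℕ => d.β1 p.1 p.2 ∧ k ≤ zs k p.1 + l := by
  obtain ⟨Y, hY, h1⟩ := d.S.b3 l (by omega)
  obtain ⟨X, hX, h2, h3⟩ := (d.tower.scott l).exists_ub hY (d.tower.jump_mem_of_lt (l := j) hl)
  have h4 := (ci_U d).mono h3
  refine ⟨X, hX, DI.of_iff (p := fun p : Finset ℕ × ℕ => (p.1.card ≤ d.S.D * (k + 1) ∧
    (∀ a ∈ p.1, j + 1 < lev a → lev a + zs k p.1 ≤ k) ∧ ∃ T ⊆ d.U p.1, zs k p.1 ≤ zs k T ∧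
      zs k T + j + 1 ≤ k ∧ d.S.β T p.2 ∧ k ≤ zs k T + l) ∧ k ≤ zs k p.1 + l)
    (DI.and (DI.and (by fun_prop) (DI.and (DI.allF (DI.imp (by fun_prop) (by fun_prop))
      (by fun_prop)) (DI.exSub (DI.and (by fun_prop) (DI.and (by fun_prop) ?_)) (by fun_prop))))
      (by fun_prop)) fun p => and_congr_left fun h => and_congr_right fun _ =>
        and_congr_right fun _ => exists_congr fun T => and_congr_right fun _ =>
          and_congr_right fun h5 => and_congr_right fun _ => and_iff_left (by omega)⟩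
  exact (h1.mono h2).comp (g := fun x : (Finset ℕ × ℕ) × Finset ℕ => (x.2, x.1.2)) (by fun_prop)

theorem two (h : S_b12) :
    DM (C l) fun p : Finset ℕ × ℕ => d.β2 p.1 p.2 ∧ k ≤ zs k p.1 + l := by
  obtain ⟨D, h1, -⟩ := h k C j σ d
  have h2 : ∀ T v, d.β2 T v → k ≤ zs k T + l → ∀ a ∈ T, lev a ≤ l := fun T v hb hk a ha => by
    have := (h1 T v (Or.inr hb)).2.2 a ha (hb.1 a ha).1
    omega
  by_cases hl : j + 2 ≤ l
  · obtain ⟨X, hX, h3⟩ := d.hδ.2.1 l hl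
    refine ⟨X, hX, DI.of_iff (p := fun p : Finset ℕ × ℕ => ((∀ a ∈ p.1, Virt k (j + 1) a) ∧
      ∃ c ∈ p.1, ∃ γ0 ∈ [p.1, p.1.erase c], ∑ a ∈ γ0, (k - j - wt a) = wt c ∧
        d.δ (c, γ0, p.2) ∧ lev c ≤ l ∧ ∀ a ∈ γ0, lev a ≤ l) ∧ k ≤ zs k p.1 + l)
      (DI.and (DI.and (DI.allF (by fun_prop) (by fun_prop)) (DI.exF (DI.exL (DI.and (by fun_prop)
        ?_) (by fun_prop)) (by fun_prop))) (by fun_prop)) fun p => and_congr_left fun hk => ?_⟩
    · exact h3.comp (g := fun x : ((Finset ℕ × ℕ) × ℕ) × Finset ℕ => (x.1.2, x.2, x.1.1.2))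
        (by fun_prop)
    · refine ⟨fun ⟨e, c, hc, γ, e1, e2, e3, _⟩ => ⟨e, c, hc, γ, by simpa using e1, e2, e3⟩,
        fun hb => ?_⟩
      obtain ⟨e, c, hc, γ, e1, e2, e3⟩ := id hb
      refine ⟨e, c, hc, γ, by simpa using e1, e2, e3, h2 _ _ hb hk c hc,
        fun a ha => h2 _ _ hb hk a ?_⟩
      rcases e1 with rfl | rfl
      exacts [ha, Finset.mem_of_mem_erase ha]
  · refine ⟨_, col_mem _ 0, (DI.const False).of_iff fun p => ⟨False.elim, fun ⟨hb, hk⟩ => ?_⟩⟩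
    obtain ⟨e, c, hc, -⟩ := id hb
    have := h2 _ _ hb hk c hc
    have := (e c hc).1
    omega

end B3

theorem all_b3 (h : S_b12) : S_b3 := fun _ _ _ _ _ d l hl =>
  ((d.tower.scott l).dm_or (B3.one d hl) (B3.two d h)).of_iff fun _ => or_and_right.symm

end Pool.Agent.P.MP_9014a2_lc
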