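import Pool.Agent.P.MP_9014a2_lc.Runs

/-!
The system of level zero.
-/

namespace Pool.Agent.P.MP_9014a2_lc

open Pool.Agent.Lib.Helper43 Encodable

namespace Base

/-- all lists of length at most `n` of points of `T` -/
def lists : ℕ → Finset ℕ → List (List ℕ)
  | 0, _ => [[]]
  | n + 1, T => [] :: (toL T).flatMap fun a => (lists n T).map fun l => a.unpair.2 :: l

theorem ci_lists (X : ℕ → Bool) (n : ℕ) : CI X (lists n) := by
  induction n with
  | zero => exact CI.const _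
  | succ n ih =>
    have h1 : CI X fun T : Finset ℕ =>
        (toL T).flatMap fun a => (lists n T).map fun l => a.unpair.2 :: l := by
      refine CI.flatMap (CI.map (by fun_prop) ?_) (by fun_prop)
      exact ih.comp (g := fun p : Finset ℕ × ℕ => p.1) (by fun_prop)
    show CI X fun T : Finset ℕ =>
      [] :: (toL T).flatMap fun a => (lists n T).map fun l => a.unpair.2 :: l
    fun_prop

theorem length_toL (T : Finset ℕ) : (toL T).length = T.card := by
  rw [← List.toFinset_card_of_nodup (nodup_toL _), toFinset_toL]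

theorem length_lists (n : ℕ) (T : Finset ℕ) : (lists n T).length ≤ (T.card + 1) ^ n := by
  induction n with
  | zero => simp [lists]
  | succ n ih =>
    have h1 : (lists (n + 1) T).length = T.card * (lists n T).length + 1 := by
      simp [lists, List.length_flatMap, length_toL]
    have h2 : 1 ≤ (T.card + 1) ^ n := Nat.one_le_pow _ _ (by omega)
    have h3 := Nat.mul_le_mul_left T.card ih
    rw [h1, pow_succ]
    nlinarith

theorem mem_lists {T : Finset ℕ} : ∀ (n : ℕ) (l : List ℕ), l.length ≤ n →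
    (∀ y ∈ l, pt y ∈ T) → l ∈ lists n T := by
  intro n
  induction n with
  | zero =>
    intro l hl _
    obtain rfl : l = [] := List.length_eq_zero_iff.1 (by omega)
    simp [lists]
  | succ n ih =>
    intro l hl h
    cases l with
    | nil => simp [lists]
    | cons y l =>
      refine List.mem_cons_of_mem _ (List.mem_flatMap.2 ⟨pt y, mem_toL.2 (h y (by simp)), ?_⟩)
      refine List.mem_map.2 ⟨l, ih l (by simpa using hl) fun w hw => h w (by simp [hw]), ?_⟩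
      simp [pt]

/-- the type relation of level zero -/
def bet (k : ℕ) (F : List ℕ → ℕ) (δ : ℕ × ℕ → Prop) (T : Finset ℕ) (v : ℕ) : Prop :=
  ((∀ a ∈ T, lev a = 0) ∧ T.card ≤ k ∧ ∃ l ∈ lists k T, F l = v) ∨
    ∃ c ∈ T, T = {c} ∧ Virt k 0 c ∧ wt c = 1 ∧ δ (c, v)

/-- the extension relation of level zero -/
def Ex (s s' : Finset ℕ × Finset ℕ) : Prop :=
  ∃ x, s'.1 = insert (pt x) s.1 ∧ (∀ a ∈ s.1, a < pt x) ∧ s.2 ⊆ s'.2 ∧ x ∈ s'.2

theorem zs_points {k : ℕ} {T : Finset ℕ} (h : ∀ a ∈ T, lev a = 0) : zs k T = T.card := by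
  rw [zs, Finset.card_eq_sum_ones]
  exact Finset.sum_congr rfl fun a ha => by simp [z, h a ha]

theorem zs_virt {k c : ℕ} (h : Virt k 0 c) (h1 : wt c = 1) :
    zs k {c} + lev c = k ∧ 0 < lev c := by
  obtain ⟨h2, -, h3⟩ := h
  rw [zs, Finset.sum_singleton, z, if_neg (by omega)]
  omega

theorem ex_sig (X : ℕ → Bool) :
    Sig X fun p : (Finset ℕ × Finset ℕ) × Finset ℕ × Finset ℕ => Ex p.1 p.2 := by
  refine Sig.ex (Sig.of_di (DI.and (by fun_prop) (DI.and (DI.allF ?_ (by fun_prop)) ?_)))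
  · fun_prop
  · fun_prop

theorem bet_b1 {k : ℕ} {F : List ℕ → ℕ} {δ : ℕ × ℕ → Prop} (T : Finset ℕ) (v : ℕ)
    (h : bet k F δ T v) : T.card ≤ (k + 1) ^ k + k + 1 ∧ zs k T + 0 ≤ k ∧
      ∀ a ∈ T, 0 < lev a → lev a + zs k T ≤ k := by
  rcases h with ⟨h1, h2, -⟩ | ⟨c, -, rfl, h1, h2, -⟩
  · refine ⟨by omega, by rw [zs_points h1]; omega, fun a ha h => ?_⟩
    have := h1 a ha
    omega
  · have := zs_virt h1 h2
    refine ⟨by simp, by omega, fun a ha _ => ?_⟩
    obtain rfl : a = c := by simpa using ha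
    omega

theorem bet_b2 {k : ℕ} {F : List ℕ → ℕ} {δ : ℕ × ℕ → Prop}
    (hδ : ∀ c v w, δ (c, v) → δ (c, w) → v = w) (T : Finset ℕ) :
    ∃ V : Finset ℕ, V.card ≤ (k + 1) ^ k + k + 1 ∧ ∀ v, bet k F δ T v → v ∈ V := by
  by_cases h : ∃ v c, T = {c} ∧ Virt k 0 c ∧ δ (c, v)
  · obtain ⟨v, c, rfl, h1, h2⟩ := h
    refine ⟨{v}, by simp, fun w hw => ?_⟩
    rcases hw with ⟨h3, -⟩ | ⟨c', -, h3, -, -, h4⟩
    · have := h3 c (by simp)
      have := h1.1
      omega
    · obtain rfl : c = c' := by simpa using h3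
      simp [hδ _ _ _ h2 h4]
  · by_cases hT : T.card ≤ k
    · refine ⟨((lists k T).map F).toFinset, ?_, fun w hw => ?_⟩
      · have h1 := List.toFinset_card_le ((lists k T).map F)
        have h2 := length_lists k T
        have h3 : (T.card + 1) ^ k ≤ (k + 1) ^ k := Nat.pow_le_pow_left (by omega) _
        rw [List.length_map] at h1
        omega
      · rcases hw with ⟨-, -, l, hl, h3⟩ | ⟨c, -, h1, h2, -, h3⟩
        · exact List.mem_toFinset.2 (List.mem_map.2 ⟨l, hl, h3⟩)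
        · exact absurd ⟨w, c, h1, h2, h3⟩ h
    · refine ⟨∅, by simp, fun w hw => ?_⟩
      rcases hw with ⟨-, h1, -⟩ | ⟨c, -, h1, h2, -, h3⟩
      · exact absurd h1 hT
      · exact absurd ⟨w, c, h1, h2, h3⟩ h

theorem di_first {X : ℕ → Bool} (k : ℕ) {F : List ℕ → ℕ} (hF : CI X F) :
    DI X fun p : Finset ℕ × ℕ =>
      (∀ a ∈ p.1, lev a = 0) ∧ p.1.card ≤ k ∧ ∃ l ∈ lists k p.1, F l = p.2 := by
  have := ci_lists X k
  refine DI.and (DI.allF ?_ (by fun_prop)) (DI.and (by fun_prop) (DI.exL ?_ (by fun_prop)))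
  · fun_prop
  · fun_prop

theorem bet_b3 {k : ℕ} {C : ℕ → ℕ → Bool} (hC : Tower C) {F : List ℕ → ℕ} {δ : ℕ × ℕ → Prop}
    (hF : ∃ X ∈ M (C 0), CI X F) (hδ : IsDelta0 C δ) (l : ℕ) :
    DM (C l) fun p : Finset ℕ × ℕ => bet k F δ p.1 p.2 ∧ k ≤ zs k p.1 + l := by
  obtain ⟨X, hX, hF⟩ := hF
  have hX' : X ∈ M (C l) := hC.mem_mono (Nat.zero_le l) hX
  have h1 : DM (C l) fun p : Finset ℕ × ℕ =>
      ((∀ a ∈ p.1, lev a = 0) ∧ p.1.card ≤ k ∧ ∃ l ∈ lists k p.1, F l = p.2) ∧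
        k ≤ zs k p.1 + l := ⟨X, hX', DI.and (di_first k hF) (by fun_prop)⟩
  rcases Nat.eq_zero_or_pos l with rfl | hl
  · refine h1.of_iff fun p => ⟨fun h => ⟨Or.inl h.1, h.2⟩, fun ⟨h2, h3⟩ => ⟨?_, h3⟩⟩
    rcases h2 with h2 | ⟨c, -, h4, h5, h6, -⟩
    · exact h2
    · have := zs_virt h5 h6
      rw [h4] at h3
      omega
  · obtain ⟨Y, hY, h2⟩ := hδ.2.1 l hl
    have h3 : DM (C l) fun p : Finset ℕ × ℕ =>
        (∃ c ∈ p.1, p.1 = {c} ∧ Virt k 0 c ∧ wt c = 1 ∧ δ (c, p.2) ∧ lev c ≤ l) ∧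
          k ≤ zs k p.1 + l := by
      refine ⟨Y, hY, DI.and (DI.exF (DI.and (by fun_prop) (DI.and (by fun_prop)
        (DI.and (by fun_prop) ?_))) (by fun_prop)) (by fun_prop)⟩
      exact h2.comp (g := fun x : (Finset ℕ × ℕ) × ℕ => (x.2, x.1.2)) (by fun_prop)
    refine ((hC.scott l).dm_or h1 h3).of_iff fun p => ⟨?_, fun ⟨h4, h5⟩ => ?_⟩
    · rintro (h | ⟨⟨c, hc, h4, h5, h6, h7, -⟩, h⟩)
      · exact ⟨Or.inl h.1, h.2⟩
      · exact ⟨Or.inr ⟨c, hc, h4, h5, h6, h7⟩, h⟩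
    · rcases h4 with h4 | ⟨c, hc, h4, h6, h7, h8⟩
      · exact Or.inl ⟨h4, h5⟩
      · refine Or.inr ⟨⟨c, hc, h4, h6, h7, h8, ?_⟩, h5⟩
        have := zs_virt h6 h7
        rw [h4] at h5
        omega

theorem bet_ns {k : ℕ} {C : ℕ → ℕ → Bool} {F : List ℕ → ℕ} {δ : ℕ × ℕ → Prop}
    (hδ : IsDelta0 C δ) (s : Finset ℕ × Finset ℕ) (S : Finset ℕ) (hS : s.2 ⊆ S) (γ : Finset ℕ)
    (hγ : ∀ c ∈ γ, Virt k 0 c) (hA : Alive C (bet k F δ) (s.1 ∪ γ) S) (n : ℕ) :
    ∃ s' : Finset ℕ × Finset ℕ, Ex s s' ∧ (∀ a ∈ s'.1 \ s.1, n < a) ∧ S ⊆ s'.2 ∧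
      (∀ v ∈ s'.2 \ S, n < v) ∧ Valid k C γ (s'.1 \ s.1) s'.2 := by
  obtain ⟨x, hx, h⟩ := hδ.2.2 γ S (n + s.1.sup id)
  have hp := le_pt x
  have h1 : ∀ a ∈ insert (pt x) s.1 \ s.1, a = pt x := fun a ha => by
    obtain ⟨h2, h3⟩ := Finset.mem_sdiff.1 ha
    exact (Finset.mem_insert.1 h2).resolve_right h3
  refine ⟨(insert (pt x) s.1, insert x S), ⟨x, rfl, fun a ha => ?_,
    hS.trans (Finset.subset_insert _ _), Finset.mem_insert_self _ _⟩, fun a ha => ?_,
    Finset.subset_insert _ _, fun v hv => ?_, fun c hc τ hτ hz v hv hval => ?_⟩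
  · have : a ≤ s.1.sup id := Finset.le_sup (f := id) ha
    omega
  · rw [h1 a ha]
    omega
  · obtain ⟨h2, h3⟩ := Finset.mem_sdiff.1 hv
    rw [(Finset.mem_insert.1 h2).resolve_right h3]
    omega
  · have h2 : τ ⊆ {pt x} := fun a ha => Finset.mem_singleton.2 (h1 a (hτ ha))
    have hw := (hγ c hc).2.1
    obtain rfl : τ = {pt x} := by
      rcases Finset.subset_singleton_iff.1 h2 with rfl | h3
      · simp [zs] at hz
        omega
      · exact h3
    have hw1 : wt c = 1 := by rw [← hz]; simp [zs, z]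
    rcases Finset.mem_insert.1 hv with rfl | hv
    · exact ⟨pt v, Finset.mem_singleton_self _, by simp [Om]⟩
    · exfalso
      by_cases hd : δ (c, v)
      · obtain ⟨a, ha, ho⟩ := hA {c} (by simp [hc]) v hv
          (Or.inr ⟨c, Finset.mem_singleton_self _, rfl, hγ c hc, hw1, hd⟩)
        obtain rfl : a = c := by simpa using ha
        exact (om_iff (hγ a hc).1.ne').1 ho _ hval
      · exact h c hc v hv hd hval

theorem free_of_run {k : ℕ} {C : ℕ → ℕ → Bool} {F : List ℕ → ℕ} {δ : ℕ × ℕ → Prop}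
    (R : ℕ → Finset ℕ × Finset ℕ) (h0 : R 0 = (∅, ∅)) (hE : ∀ t, Ex (R t) (R (t + 1)))
    (hA : ∀ t, Alive C (bet k F δ) (R t).1 (R t).2) : ∃ H, Red H (gr R) ∧ Free k F H := by
  choose x h1 h2 h3 h4 using hE
  have hR : ∀ t a, a ∈ (R t).1 ↔ ∃ s < t, a = pt (x s) := by
    intro t
    induction t with
    | zero => simp [h0]
    | succ t ih =>
      intro a
      rw [h1, Finset.mem_insert, ih]
      constructor
      · rintro (h | ⟨s, hs, h⟩)
        · exact ⟨t, by omega, h⟩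
        · exact ⟨s, by omega, h⟩
      · rintro ⟨s, hs, h⟩
        rcases Nat.lt_succ_iff_lt_or_eq.1 hs with hs | rfl
        · exact Or.inr ⟨s, hs, h⟩
        · exact Or.inl h
  have hx : StrictMono x := strictMono_nat_of_lt_succ fun t =>
    pt_lt_pt.1 (h2 (t + 1) _ ((hR _ _).2 ⟨t, by omega, rfl⟩))
  have hH : ∀ y, decide (pt y ∈ (R (y + 1)).1) = true ↔ ∃ s, y = x s := by
    intro y
    rw [decide_eq_true_iff, hR]
    constructor
    · rintro ⟨s, -, h⟩
      exact ⟨s, pt_injective h⟩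
    · rintro ⟨s, rfl⟩
      exact ⟨s, Nat.lt_succ_of_le (hx.le_apply), rfl⟩
  have hm : Monotone fun t => (R t).2 := monotone_nat_of_le_succ h3
  refine ⟨fun y => decide (pt y ∈ (R (y + 1)).1), ?_, ?_, fun l hl hl' hF => ?_⟩
  · have := ci_gr R
    unfold Red
    fun_prop
  · refine Set.infinite_of_injective_forall_mem (f := x) hx.injective fun s => ?_
    exact (hH _).2 ⟨s, rfl⟩
  · obtain ⟨s, hs⟩ := (hH _).1 hF
    let t := s + 1 + l.sum + 1
    have hT : l.toFinset.image pt ⊆ (R t).1 := by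
      intro a ha
      obtain ⟨y, hy, rfl⟩ := Finset.mem_image.1 ha
      have hy' := List.mem_toFinset.1 hy
      obtain ⟨u, rfl⟩ := (hH _).1 (hl' y hy')
      have h5 : u ≤ x u := hx.le_apply
      have h6 : x u ≤ l.sum := List.single_le_sum (fun _ _ => Nat.zero_le _) _ hy'
      exact (hR _ _).2 ⟨u, by omega, rfl⟩
    have hv : F l ∈ (R t).2 := hm (show s + 1 ≤ t by omega) (hs ▸ h4 s)
    obtain ⟨a, ha, ho⟩ := hA t _ hT _ hv (Or.inl ⟨fun a ha => by
      obtain ⟨y, -, rfl⟩ := Finset.mem_image.1 ha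
      exact lev_pt y, Finset.card_image_le.trans ((List.toFinset_card_le l).trans hl),
      l, mem_lists k l hl fun y hy => Finset.mem_image_of_mem _ (List.mem_toFinset.2 hy), rfl⟩)
    obtain ⟨y, hy, rfl⟩ := Finset.mem_image.1 ha
    have h5 : pt y = pt (F l) := by simpa [Om] using ho
    rw [← pt_injective h5]
    exact List.mem_toFinset.1 hy

end Base

open Base in
theorem all_base (hd : S_delta0) : S_base := by
  intro k C F hC hF
  obtain ⟨δ, hδ⟩ := hd C hC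
  refine ⟨{
    s0 := (∅, ∅)
    atm := Prod.fst
    pr := Prod.snd
    good := fun s => ∀ a ∈ s.1, lev a = 0
    Ext := Ex
    Fb := fun _ _ => False
    β := bet k F δ
    D := (k + 1) ^ k + k + 1
    atm_comp := Computable.fst
    pr_comp := Computable.snd
    ext_sig := ⟨_, col_mem _ 0, ex_sig _⟩
    fb_dec := ⟨_, col_mem _ 0, DI.const _⟩
    atm0 := rfl
    pr0 := rfl
    good0 := by simp
    good_ext := ?_
    mono := ?_
    real := fun s hs a ha => ⟨(hs a ha).le, by simp [z, hs a ha]⟩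
    avoid := fun _ _ _ _ h => h
    fin := fun _ _ => by simp
    b1 := bet_b1
    b2 := bet_b2 hδ.1
    b3 := fun l _ => bet_b3 hC hF hδ l
    ns := fun s _ S hS _ γ hγ hA n => bet_ns hδ s S hS γ hγ hA n }, fun R hR => ?_⟩
  · rintro s s' hs ⟨x, h1, -⟩ a ha
    rw [h1] at ha
    rcases Finset.mem_insert.1 ha with rfl | ha
    · exact lev_pt x
    · exact hs a ha
  · rintro s s' ⟨x, h1, -, h2, -⟩
    exact ⟨h1 ▸ Finset.subset_insert _ _, h2⟩
  · exact free_of_run R hR.1 hR.2.1 hR.2.2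

end Pool.Agent.P.MP_9014a2_lc
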