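import Pool.Agent.P.MP_9014a2_lc.Runs

/-!
Answering a question.
-/

namespace Pool.Agent.P.MP_9014a2_lc

namespace Dec

variable {k j : ℕ} {C : ℕ → ℕ → Bool} {σ : Type} [Primcodable σ] (d : Dat k C j σ)

theorem lev_cur {s : St σ} {r r' : List σ} (hs : d.good s) (hr : r ∈ s.App) (h : r <+: r')
    (hc : r'.IsChain d.S.Ext) : ∀ a ∈ d.S.atm (d.cur r'), lev a ≤ j ∧ 1 ≤ z k a :=
  d.S.real _ (d.good_cur (d.head_of_isPrefix (hs.2.1 r hr).1 h) hc)

/-- the positive answer -/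
theorem pos {s : St σ} {S γ : Finset ℕ} {n N i : ℕ} {r : List σ} (hs : d.good s)
    (hS : s.S ⊆ S) (hF : ∀ v ∈ S, ¬ d.Fb s v) (hγ : ∀ c ∈ γ, Virt k (j + 1) c)
    (hsch : sched σ s.t = some (r, some i)) (hr : r ∈ s.App) (hn : n ≤ N) (hm : s.m ≤ N)
    (hN : ∀ v, d.Fb s v → v ≤ N) (hQ : d.Q s S γ N i r (jn γ (G C))) : d.Next s S γ n := by
  rcases hQ with ⟨r', ⟨hp, hc, h1, h2, h3⟩, hh, hv⟩ | ⟨c, hc, v, -, ho, τ, hτ⟩
  · have hl := lev_cur d hs hr hp hc
    have hA := (hs.2.1 r hr).2.2.1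
    have hnew : ∀ a ∈ (s.A ∪ d.S.atm (d.cur r')) \ s.A,
        a ∈ d.S.atm (d.cur r') \ d.S.atm (d.cur r) := fun a ha => by
      obtain ⟨ha, ha'⟩ := Finset.mem_sdiff.1 ha
      exact Finset.mem_sdiff.2 ⟨(Finset.mem_union.1 ha).resolve_left ha', fun h => ha' (hA h)⟩
    have hnewS : ∀ v ∈ (S ∪ d.S.pr (d.cur r')) \ S, N < v := fun v hv => by
      obtain ⟨hv, hv'⟩ := Finset.mem_sdiff.1 hv
      exact h2 v (Finset.mem_sdiff.2 ⟨(Finset.mem_union.1 hv).resolve_left hv', hv'⟩)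
    refine ⟨(s.A ∪ d.S.atm (d.cur r'), S ∪ d.S.pr (d.cur r'), r' :: s.App,
      max N ((s.A ∪ d.S.atm (d.cur r')).sup id), some r', s.t + 1),
      ⟨hS.trans Finset.subset_union_left, fun v hv => ?_, fun v hv => ?_,
        Finset.subset_union_left, fun a ha => ?_, hm.trans (le_max_left _ _),
        fun a ha => (Finset.le_sup (f := id) ha).trans (le_max_right _ _), rfl,
        Or.inr (Or.inl ⟨(r, some i), r', hsch, hr, rfl, hp, hc, rfl, rfl,
          Finset.subset_union_right, fun a ha => hm.trans_lt (h1 a ha), fun h => by simp at h,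
          fun i' hi => ?_⟩)⟩,
      fun a ha => hn.trans_lt (h1 a (hnew a ha)), Finset.subset_union_left,
      fun v hv => hn.trans_lt (hnewS v hv), fun c hc τ hτ hz v hv' hval => ?_⟩
    · by_cases hvS : v ∈ S
      · exact hF v hvS
      · exact fun h => (hN v h).not_gt (hnewS v (Finset.mem_sdiff.2 ⟨hv, hvS⟩))
    · rintro (⟨-, h⟩ | h | ⟨h, hh, hl', h'⟩)
      · exact h hv
      · exact h3 v hv (Or.inl h)
      · rcases Finset.mem_union.1 hh with hh | hh
        · exact h3 v hv (Or.inr ⟨h, hh, hl', h'⟩)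
        · have := (hl h hh).1
          omega
    · have h4 := hl a (Finset.mem_sdiff.1 (hnew a ha)).1
      exact ⟨hm.trans_lt (h1 a (hnew a ha)), h4.1.trans (Nat.le_succ _), h4.2⟩
    · obtain rfl : i = i' := by simpa using hi
      exact hh
    · exact (hv c hc τ (fun a ha => hnew a (hτ ha)) hz v hv' (by rwa [col_jn _ hc])).omS
  · rw [col_jn _ hc] at hτ
    have := (hγ c hc).1
    exact ((om_iff (by omega)).1 ho τ hτ).elim

/-- the negative answer -/
theorem neg {s : St σ} {S γ : Finset ℕ} {n N i : ℕ} {r : List σ} (hs : d.good s)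
    (hS : s.S ⊆ S) (hF : ∀ v ∈ S, ¬ d.Fb s v) (hγ : ∀ c ∈ γ, Virt k (j + 1) c)
    (hal : Alive C d.β (s.A ∪ γ) S)
    (hsch : sched σ s.t = some (r, some i)) (hr : r ∈ s.App) (hn : n ≤ N) (hm : s.m ≤ N)
    {φ : ℕ → ℕ} (h1 : ∀ c ∈ γ, lev (φ c) = j + 1 ∧ wt (φ c) = wt c ∧ N < φ c)
    (h2 : ¬ d.Q s S γ N i r (jn γ fun c => G C (φ c)))
    (h3 : ∀ c ∈ γ, ∀ γ0 ⊆ γ, ∀ v ∈ S, ¬ d.δ (c, γ0, v) → ¬ val (G C c) (γ0.image φ) v) :
    d.Next s S γ n := by
  have hz : ∀ c ∈ γ, z k (φ c) = k - j - wt c := fun c hc => by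
    obtain ⟨a1, a2, -⟩ := h1 c hc
    rw [z, if_neg (by omega), a1, a2]
    omega
  have hnew : ∀ a ∈ (s.A ∪ γ.image φ) \ s.A, a ∈ γ.image φ := fun a ha =>
    (Finset.mem_union.1 (Finset.mem_sdiff.1 ha).1).resolve_left (Finset.mem_sdiff.1 ha).2
  have hle : ∀ a ∈ s.A ∪ γ.image φ, a ≤ max N ((s.A ∪ γ.image φ).sup id) := fun a ha =>
    (Finset.le_sup (f := id) ha).trans (le_max_right _ _)
  refine ⟨(s.A ∪ γ.image φ, S, s.App, max N ((s.A ∪ γ.image φ).sup id), none, s.t + 1),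
    ⟨hS, hF, fun v hv => ?_, Finset.subset_union_left, fun a ha => ?_,
      hm.trans (le_max_left _ _), hle, rfl,
      Or.inr (Or.inr ⟨r, i, hsch, hr, rfl, rfl, ?_⟩)⟩, fun a ha => ?_, Finset.Subset.refl _,
    fun v hv => by simp at hv, fun c hc τ hτ hzs v hv hval => ?_⟩
  · rintro (⟨-, h⟩ | h | ⟨h, hh, hl, τ, hτ, ha, hw, h'⟩)
    · exact h hv
    · exact hF v hv (Or.inr (Or.inl h))
    · have hτA : τ ⊆ s.A := fun a ha' => by
        refine (Finset.mem_union.1 (hτ ha')).resolve_right fun h4 => ?_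
        obtain ⟨c, hc, rfl⟩ := Finset.mem_image.1 h4
        have := (h1 c hc).1
        have := (ha _ ha').1
        omega
      rcases Finset.mem_union.1 hh with hh | hh
      · exact hF v hv (Or.inr (Or.inr ⟨h, hh, hl, τ, hτA, ha, hw, h'⟩))
      · obtain ⟨c, hc, rfl⟩ := Finset.mem_image.1 hh
        obtain rfl : τ = ∅ := Finset.eq_empty_of_forall_notMem fun a ha' => by
          have := (hs.1 a (hτA ha')).2.2
          have := (ha a ha').2
          have := (h1 c hc).2.2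
          omega
        have := (hγ c hc).2.1
        have := (h1 c hc).2.1
        simp only [zs, Finset.sum_empty] at hw
        omega
  · obtain ⟨c, hc, rfl⟩ := Finset.mem_image.1 (hnew a ha)
    obtain ⟨a1, a2, a3⟩ := hγ c hc
    refine ⟨hm.trans_lt (h1 c hc).2.2, (h1 c hc).1.le, ?_⟩
    rw [hz c hc]
    omega
  · rintro r' ⟨⟨hp, hc, b1, b2, b3⟩, hh⟩
    have hl := lev_cur d hs hr hp hc
    refine h2 (Or.inl ⟨r', ⟨hp, hc, fun a ha => (le_max_left _ _).trans_lt (b1 a ha),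
      fun v hv => (le_max_left _ _).trans_lt (b2 v hv), fun v hv h => b3 v hv
        (d.Fb0_mono Finset.subset_union_left
          (Finset.union_subset_union Finset.subset_union_left (Finset.Subset.refl _))
          (List.Subset.refl _) h)⟩, hh, fun c hc τ hτ hw v hv hval => ?_⟩)
    rw [col_jn _ hc] at hval
    by_contra ho
    have hmem : φ c ∈ s.A ∪ γ.image φ :=
      Finset.mem_union_right _ (Finset.mem_image_of_mem φ hc)
    exact b3 v hv (Or.inr ⟨φ c, hmem, (h1 c hc).1, τ,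
      fun a ha => Finset.mem_union_right _ (Finset.mem_sdiff.1 (hτ ha)).1,
      fun a ha => ⟨(hl a (Finset.mem_sdiff.1 (hτ ha)).1).1, (hle _ hmem).trans_lt (b1 a (hτ ha))⟩,
      hw.trans (h1 c hc).2.1.symm, hval, ho⟩)
  · obtain ⟨c, hc, rfl⟩ := Finset.mem_image.1 (hnew a ha)
    exact hn.trans_lt (h1 c hc).2.2
  · obtain ⟨γ0, hγ0, hinj, rfl⟩ := Finset.exists_subset_injOn_image_eq_of_surjOn (f := φ)
      (γ : Set ℕ) τ fun a ha => by
        simpa using hnew a (hτ ha)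
    have hγ0' : γ0 ⊆ γ := fun a ha => hγ0 ha
    have hδ : d.δ (c, γ0, v) := by
      by_contra h
      exact h3 c hc γ0 hγ0' v hv h hval
    have hsub : insert c γ0 ⊆ γ := Finset.insert_subset hc hγ0'
    obtain ⟨a, ha, ho⟩ := hal (insert c γ0) (hsub.trans Finset.subset_union_right) v hv
      (Or.inr ⟨fun a ha => hγ a (hsub ha), c, Finset.mem_insert_self _ _, γ0, by
        by_cases hc0 : c ∈ γ0
        · exact Or.inl (Finset.insert_eq_of_mem hc0).symm
        · exact Or.inr (Finset.erase_insert hc0).symm, by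
        rw [← hzs, zs, Finset.sum_image hinj]
        exact Finset.sum_congr rfl fun a ha => (hz a (hγ0' ha)).symm, hδ⟩)
    rcases Finset.mem_insert.1 ha with rfl | ha
    · have := (hγ a hc).1
      exact ((om_iff (by omega)).1 ho _ hval).elim
    · have ha' := hγ0' ha
      have := (h1 a ha').1
      refine ⟨φ a, Finset.mem_image_of_mem φ ha, (om_iff (by omega)).2 fun τ hτ => ?_⟩
      exact h2 (Or.inr ⟨a, ha', v, hv, ho, τ, by rwa [col_jn _ ha']⟩)

end Dec

theorem all_nsDec (hg : S_good) (hq : S_qop) : S_nsDec := by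
  intro k C j σ _ d s S γ n i r hs hS hF hγ hal hsch hr
  obtain ⟨b, hb⟩ := ((hg k C j σ d).2.2 s hs).bddAbove
  have hn : n ≤ max n (max s.m b) := le_max_left _ _
  have hm : s.m ≤ max n (max s.m b) := (le_max_left _ _).trans (le_max_right _ _)
  by_cases hQ : d.Q s S γ (max n (max s.m b)) i r (jn γ (G C))
  · exact Dec.pos d hs hS hF hγ hsch hr hn hm
      (fun v hv => (hb hv).trans ((le_max_right _ _).trans (le_max_right _ _))) hQ
  · obtain ⟨X, hX, hO⟩ := hq k C j σ d s S γ (max n (max s.m b)) i r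
    obtain ⟨φ, h1, h2, h3⟩ := d.hδ.2.2 γ hγ S (max n (max s.m b)) X hX _ hO hQ
    exact Dec.neg d hs hS hF hγ hal hsch hr hn hm h1 h2 h3

end Pool.Agent.P.MP_9014a2_lc
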