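import Pool.Agent.P.MP_9014a2_lc.Runs

/-!
Generic fakes.
-/

namespace Pool.Agent.P.MP_9014a2_lc

open Pool.Agent.Lib.Helper43 Encodable

namespace Delta

/-- the level of a triple above `s` -/
def lv (s : ℕ) (E : ℕ × Finset ℕ × ℕ) : ℕ :=
  (toL E.2.1).foldl (fun m d => max m (lev d)) (lev E.1) - s

theorem foldl_le (l : List ℕ) (m b : ℕ) :
    l.foldl (fun m d => max m (lev d)) m ≤ b ↔ m ≤ b ∧ ∀ d ∈ l, lev d ≤ b := by
  induction l generalizing m with
  | nil => simp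
  | cons d l ih => simp [ih, and_assoc]

theorem lv_le (s q : ℕ) (E : ℕ × Finset ℕ × ℕ) :
    lv s E ≤ q ↔ lev E.1 ≤ s + q ∧ ∀ d ∈ E.2.1, lev d ≤ s + q := by
  rw [lv, Nat.sub_le_iff_le_add', foldl_le]
  simp

theorem computable_lv (s : ℕ) : Computable (lv s) := by
  unfold lv
  fun_prop

theorem jn_empty (g g' : ℕ → ℕ → Bool) : jn ∅ g = jn ∅ g' := funext fun n => by simp [jn]

theorem pos_zero (k : ℕ) (C : ℕ → ℕ → Bool) (j : ℕ) : PosL k C j 0 [] := by
  intro γ h n X _ P _ hP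
  obtain rfl : γ = ∅ := Finset.eq_empty_of_forall_notMem fun c hc => by
    have := (h c hc).1.1
    have := (h c hc).2
    omega
  exact ⟨id, by simp, jn_empty _ _ ▸ hP, by simp [Holds]⟩

end Delta

open Delta in
theorem all_delta (hu : S_ult) (h1 : S_posUp) (h2 : S_posSplit) (h3 : S_posSig) : S_delta := by
  intro k C j hC
  obtain ⟨d, hd, hq⟩ := hu C hC (ℕ × Finset ℕ × ℕ) (j + 2) (lv (j + 2)) (PosL k C j (k + 1))
    (computable_lv _) (h1 k C j 0 _ [] hC (by simp [LevL]) (pos_zero k C j))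
    (fun L L' h hp γ hγ n X hX P hP h0 =>
      let ⟨φ, e1, e2, e3⟩ := hp γ hγ n X hX P hP h0
      ⟨φ, e1, e2, fun x hx => e3 x (h hx)⟩)
    (fun L E => h2 k C j _ L E hC) fun q => by
      refine ⟨_, hC.jump_mem_of_lt (l := j + 1 + q) (by omega),
        (h3 k C j (j + 1 + q) hC (by omega)).of_iff fun L => ?_⟩
      have e : LevL (j + 1 + q + 1) L ↔ ∀ x ∈ L, lv (j + 2) x.1 ≤ q := by
        simp only [LevL, lv_le, show j + 1 + q + 1 = j + 2 + q by omega]
      rw [← e]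
      exact and_congr_right fun hL => not_congr ⟨h1 k C j _ _ L hC hL, fun h γ hγ => h γ
        fun c hc => ⟨(hγ c hc).1, le_trans (Nat.le_add_right _ _) (hγ c hc).1.2.2⟩⟩
  refine ⟨fun E => d E = true, fun c γ0 v w hv hw => ?_, fun l hl => ?_,
    fun γ hγ S n X hX P hP h0 => ?_⟩
  · obtain ⟨φ, -, -, e⟩ := hd [((c, γ0, v), true), ((c, γ0, w), true)] (by simp [hv, hw]) ∅
      (by simp) 0 _ (col_mem (C j) 0) (fun _ => False) (S1.of_di (DI.const False)) not_false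
    exact val_unique ((e ((c, γ0, v), true) (by simp)).2 rfl) ((e ((c, γ0, w), true) (by simp)).2 rfl)
  · obtain ⟨q, rfl⟩ := Nat.exists_eq_add_of_le hl
    exact (hq q).of_iff fun E => by rw [lv_le]
  · obtain ⟨φ, e1, e2, e3⟩ := hd ((toL γ).flatMap fun c => (subs γ).flatMap fun γ0 =>
      (toL S).map fun v => ((c, γ0, v), d (c, γ0, v))) (by
        simp only [List.mem_flatMap, List.mem_map]
        rintro _ ⟨c, -, γ0, -, v, -, rfl⟩
        rfl) γ (fun c hc => ⟨hγ c hc, le_trans (Nat.le_add_right _ _) (hγ c hc).2.2⟩) n X hX P hP h0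
    refine ⟨φ, e1, e2, fun c hc γ0 h0 v hv hn hval => hn ?_⟩
    exact (e3 ((c, γ0, v), d (c, γ0, v)) (by
      simp only [List.mem_flatMap, List.mem_map, mem_toL, mem_subs]
      exact ⟨c, hc, γ0, h0, v, hv, rfl⟩)).1 hval

end Pool.Agent.P.MP_9014a2_lc
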