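import Pool.Agent.P.MP_9014a2_lc.Runs

/-! The values of the atoms at a generic point. -/

namespace Pool.Agent.P.MP_9014a2_lc

namespace Delta0

/-- the literals of `L` hold at arbitrarily large points -/
def Pos (C : ℕ → ℕ → Bool) (L : List ((ℕ × ℕ) × Bool)) : Prop :=
  ∀ n, ∃ x, n < x ∧ ∀ y ∈ L, (val (G C y.1.1) {pt x} y.1.2 ↔ y.2 = true)

theorem split (C : ℕ → ℕ → Bool) (L : List ((ℕ × ℕ) × Bool)) (E : ℕ × ℕ) (h : Pos C L) :
    Pos C ((E, true) :: L) ∨ Pos C ((E, false) :: L) := by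
  by_contra h0
  simp only [Pos, not_or, not_forall, not_exists, not_and, List.forall_mem_cons] at h0
  obtain ⟨⟨n, h1⟩, m, h2⟩ := h0
  obtain ⟨x, hx, h3⟩ := h (max n m)
  by_cases h4 : val (G C E.1) {pt x} E.2
  · obtain ⟨y, hy, h5⟩ := h1 x (by omega) (by simp [h4])
    exact h5 (h3 y hy)
  · obtain ⟨y, hy, h5⟩ := h2 x (by omega) (by simp [h4])
    exact h5 (h3 y hy)

theorem sig {C : ℕ → ℕ → Bool} (hC : Tower C) (q : ℕ) : Sig (jump (C q))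
    fun L : List ((ℕ × ℕ) × Bool) => (∀ y ∈ L, lev y.1.1 - 1 ≤ q) ∧ ¬ Pos C L := by
  have h1 : DI (C q) fun p : (List ((ℕ × ℕ) × Bool) × ℕ) × ℕ => p.1.2 < p.2 ∧ ∀ y ∈ p.1.1,
      ((lev y.1.1 ≤ q + 1 ∧ val (G C y.1.1) {pt p.2} y.1.2) ↔ y.2 = true) := by
    refine DI.and (by fun_prop) (DI.allL (DI.iff ?_ (by fun_prop)) (by fun_prop))
    exact (hC.di_val q).comp (g := fun x : ((List ((ℕ × ℕ) × Bool) × ℕ) × ℕ) × (ℕ × ℕ) × Bool =>
      (x.2.1.1, {pt x.1.2}, x.2.1.2)) (by fun_prop)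
  have h2 := Sig.ex (r := fun (L : List ((ℕ × ℕ) × Bool)) (n : ℕ) => ¬ ∃ x, n < x ∧ ∀ y ∈ L,
      ((lev y.1.1 ≤ q + 1 ∧ val (G C y.1.1) {pt x} y.1.2) ↔ y.2 = true))
    (Sig.of_di (Sig.ex (r := fun (p : List ((ℕ × ℕ) × Bool) × ℕ) (x : ℕ) => p.2 < x ∧ ∀ y ∈ p.1,
      ((lev y.1.1 ≤ q + 1 ∧ val (G C y.1.1) {pt x} y.1.2) ↔ y.2 = true))
        (Sig.of_di h1)).di_jump.not)
  refine ((Sig.of_di (p := fun L : List ((ℕ × ℕ) × Bool) => ∀ y ∈ L, lev y.1.1 - 1 ≤ q)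
    (DI.allL (by fun_prop) (by fun_prop))).and h2).of_iff fun L => and_congr_right fun h => ?_
  rw [Pos, not_forall]
  refine exists_congr fun n => not_congr (exists_congr fun x => and_congr_right fun _ =>
    forall₂_congr fun y hy => ?_)
  have := h y hy
  rw [and_iff_right (by omega)]

end Delta0

open Delta0 in
theorem all_delta0 (hu : S_ult) : S_delta0 := by
  intro C hC
  obtain ⟨d, h1, h2⟩ := hu C hC (ℕ × ℕ) 1 (fun E => lev E.1 - 1) (Pos C) (by fun_prop)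
    (fun n => ⟨n + 1, by omega, by simp⟩)
    (fun L L' h h' n => (h' n).imp fun x hx => ⟨hx.1, fun y hy => hx.2 y (h hy)⟩) (split C)
    fun q => ⟨_, add_comm q 1 ▸ hC.jump_mem q, sig hC q⟩
  refine ⟨fun E => d E = true, fun c v w hv hw => ?_, fun l hl => ?_, fun γ S n => ?_⟩
  · obtain ⟨x, -, hx⟩ := h1 [((c, v), true), ((c, w), true)] (by simpa using ⟨hv, hw⟩) 0
    exact val_unique ((hx ((c, v), true) (by simp)).2 rfl) ((hx ((c, w), true) (by simp)).2 rfl)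
  · obtain ⟨q, rfl⟩ := Nat.exists_eq_add_of_le hl
    exact (h2 q).of_iff fun E => and_congr_right fun _ => by omega
  · obtain ⟨x, h3, h4⟩ := h1 ((γ ×ˢ S).toList.map fun E => (E, d E))
      (List.forall_mem_map.2 fun _ _ => rfl) n
    exact ⟨x, h3, fun c hc v hv h5 h6 => h5 ((h4 ((c, v), d (c, v))
      (List.mem_map.2 ⟨(c, v), by simp [hc, hv], rfl⟩)).1 h6)⟩

end Pool.Agent.P.MP_9014a2_lc
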