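import Pool.Agent.P.MP_9014a2_lc.Runs

/-!
The extension relation of the next level is c.e. in the jump.
-/

namespace Pool.Agent.P.MP_9014a2_lc

namespace ExtSig

variable {α σ : Type} [Primcodable α] [Primcodable σ] {k j : ℕ} {C : ℕ → ℕ → Bool}
  (d : Dat k C j σ)

theorem fb0 (h : S_fb0) {H A : α → Finset ℕ} {App : α → List (List σ)} {v : α → ℕ}
    (hH : CI (C j) H) (hA : CI (C j) A) (hApp : CI (C j) App) (hv : CI (C j) v) :
    DI (C j) fun a => d.Fb0 (H a) (A a) (App a) (v a) :=
  (h k C j σ d).1.comp (g := fun a => (H a, A a, App a, v a)) (by fun_prop)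

theorem fb (h : S_fb0) {s : α → St σ} {v : α → ℕ} (hs : CI (C j) s) (hv : CI (C j) v) :
    DI (C j) fun a => d.Fb (s a) (v a) :=
  DI.or (by fun_prop) (fb0 d h (by fun_prop) (by fun_prop) (by fun_prop) hv)

theorem chain {r : α → List σ} (hr : CI (C j) r) : Sig (C j) fun a => (r a).IsChain d.S.Ext := by
  obtain ⟨X, hX, hE⟩ := d.S.ext_sig
  exact (Sig.isChain (hE.mono (red_of_mem hX)) d.S.s0).comp hr

theorem halt {i : α → ℕ} {r : α → List σ} (hi : CI (C j) i) (hr : CI (C j) r) :
    DI (C j) fun a => Halt d.Y (i a) (r a) :=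
  (di_halt (red_of_mem d.hY)).comp (g := fun a => (i a, r a)) (by fun_prop)

theorem cond (h : S_fb0) {A S : α → Finset ℕ} {App : α → List (List σ)} {m : α → ℕ}
    {r r' : α → List σ} (hA : CI (C j) A) (hS : CI (C j) S) (hApp : CI (C j) App)
    (hm : CI (C j) m) (hr : CI (C j) r) (hr' : CI (C j) r') :
    Sig (C j) fun a => d.Cond (A a) (S a) (App a) (m a) (r a) (r' a) := by
  refine (Sig.of_di (by fun_prop)).and ((chain d hr').and (Sig.of_di (DI.and ?_ (DI.and ?_ ?_))))
  · exact DI.allF (by fun_prop) (by fun_prop)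
  · exact DI.allF (by fun_prop) (by fun_prop)
  · exact DI.allF (DI.not (fb0 d h (by fun_prop) (by fun_prop) (by fun_prop) (by fun_prop)))
      (by fun_prop)

theorem idle : DI (jump (C j)) fun p : St σ × St σ => Dat.Idle p.1 p.2 := by
  refine DI.and ?_ (by fun_prop)
  refine (Sig.di_jump (Sig.ex (r := fun (p : St σ × St σ) (x : List σ × Option ℕ) =>
    sched σ p.1.t = some x ∧ x.1 ∈ p.1.App) (Sig.of_di (by fun_prop)))).not.of_iff fun p => ?_
  simp only [not_exists, not_and]

theorem grow : Sig (jump (C j)) fun p : St σ × St σ => d.Grow p.1 p.2 := by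
  refine Sig.ex (Sig.ex ?_)
  refine (Sig.of_di (by fun_prop)).and ((Sig.of_di (by fun_prop)).and
    ((Sig.of_di (by fun_prop)).and ((Sig.of_di (by fun_prop)).and
    (((chain d (by fun_prop)).mono (red_jump _)).and (Sig.of_di (DI.and (by fun_prop)
    (DI.and (by fun_prop) (DI.and (by fun_prop) (DI.and ?_ (DI.and ?_ ?_))))))))))
  · exact DI.allF (by fun_prop) (by fun_prop)
  · exact DI.imp (by fun_prop) (by fun_prop)
  · refine (Sig.di_jump (Sig.ex
      (r := fun (p : ((St σ × St σ) × (List σ × Option ℕ)) × List σ) (i : ℕ) =>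
        p.1.2.2 = some i ∧ ¬ Halt d.Y i p.2)
      (Sig.of_di (DI.and (by fun_prop) (halt d (by fun_prop) (by fun_prop)).not)))).not.of_iff
      fun p => ?_
    simp only [not_exists, not_and, not_not]

theorem kill (h : S_fb0) : Sig (jump (C j)) fun p : St σ × St σ => d.Kill p.1 p.2 := by
  refine Sig.ex (Sig.ex (Sig.of_di (DI.and (by fun_prop) (DI.and (by fun_prop)
    (DI.and (by fun_prop) (DI.and (by fun_prop) ?_))))))
  refine (Sig.di_jump (Sig.ex
    (r := fun (p : ((St σ × St σ) × List σ) × ℕ) (r' : List σ) =>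
      d.Cond p.1.1.2.A p.1.1.2.S p.1.1.1.App p.1.1.2.m p.1.2 r' ∧ Halt d.Y p.2 r')
    ((cond d h (by fun_prop) (by fun_prop) (by fun_prop) (by fun_prop) (by fun_prop)
      (by fun_prop)).and (Sig.of_di (halt d (by fun_prop) (by fun_prop)))))).not.of_iff
    fun p => ?_
  simp only [not_exists]

end ExtSig

theorem all_extSig (h : S_fb0) : S_extSig := by
  intro k C j σ _ d
  refine (Sig.of_di (by fun_prop)).and ((Sig.of_di ?_).and ((Sig.of_di ?_).and
    ((Sig.of_di (by fun_prop)).and ((Sig.of_di ?_).and ((Sig.of_di (by fun_prop)).and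
    ((Sig.of_di ?_).and ((Sig.of_di (by fun_prop)).and
    ((Sig.of_di ExtSig.idle).or ((ExtSig.grow d).or (ExtSig.kill d h))))))))))
  · exact (DI.allF (ExtSig.fb d h (by fun_prop) (by fun_prop)).not (by fun_prop)).mono (red_jump _)
  · exact (DI.allF (ExtSig.fb d h (by fun_prop) (by fun_prop)).not (by fun_prop)).mono (red_jump _)
  · exact DI.allF (by fun_prop) (by fun_prop)
  · exact DI.allF (by fun_prop) (by fun_prop)

end Pool.Agent.P.MP_9014a2_lc
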