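import Pool.Agent.P.MP_9014a2_lc.Runs

/-!
The extracted run is a solution.
-/

namespace Pool.Agent.P.MP_9014a2_lc

theorem all_extractSol : S_extractSol := by
  intro k C j σ _ d R' R hg ha hR
  have hext : ∀ t, d.S.Ext (R t) (R (t + 1)) := by
    intro t
    obtain ⟨m, t', hm, h⟩ := hR (t + 2)
    have := List.isChain_iff_getElem.1 ((hg t').2.1 _ h).2.1 t (by simp; omega)
    simpa using this
  have hmono : ∀ t m, t ≤ m → d.S.atm (R t) ⊆ d.S.atm (R m) ∧ d.S.pr (R t) ⊆ d.S.pr (R m) := by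
    intro t m h
    induction h with
    | refl => exact ⟨subset_rfl, subset_rfl⟩
    | step _ ih =>
      exact ⟨ih.1.trans (d.S.mono _ _ (hext _)).1, ih.2.trans (d.S.mono _ _ (hext _)).2⟩
  refine ⟨?_, hext, fun t T hT v hv hβ => ?_⟩
  · obtain ⟨m, t', hm, h⟩ := hR 1
    obtain ⟨m, rfl⟩ : ∃ n, m = n + 1 := ⟨m - 1, by omega⟩
    simpa [List.range_succ_eq_map] using ((hg t').2.1 _ h).1
  · obtain ⟨m, t', hm, h⟩ := hR (t + 1)
    obtain ⟨m, rfl⟩ : ∃ n, m = n + 1 := ⟨m - 1, by omega⟩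
    obtain ⟨-, -, h1, h2⟩ := (hg t').2.1 _ h
    rw [d.cur_range] at h1 h2
    have hT' := hT.trans (hmono t m (by omega)).1
    have hv' := h2 ((hmono t m (by omega)).2 hv)
    obtain ⟨b1, b2, b3⟩ := d.S.b1 T v hβ
    rcases b2.eq_or_lt with e | e
    · by_contra hn
      exact (hg t').2.2 v hv' (Or.inr (Or.inl ⟨_, h, Or.inr ⟨T, by rwa [d.cur_range], e, hβ,
        fun ho => hn ho.omS⟩⟩))
    · exact ha t' T (hT'.trans h1) v hv' (Or.inl ⟨b1.trans (Nat.le_mul_of_pos_right _ k.succ_pos),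
        fun a haT hl => b3 a haT (by omega), T, Finset.subset_union_left, le_rfl, e, hβ⟩)

end Pool.Agent.P.MP_9014a2_lc
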