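import Pool.Agent.P.MP_9014a2_lc.Runs

/-!
Reading a run and the answers to all questions off a solution of the next level.
-/

namespace Pool.Agent.P.MP_9014a2_lc

open Pool.Agent.Lib.Helper43 Encodable

namespace Extract

/-- the requirement number `u` -/
def kind (u : ℕ) : Option ℕ := if u % 2 = 0 then none else some (u / 2)

@[fun_prop] theorem computable_kind : Computable kind := by unfold kind; fun_prop

variable {k j : ℕ} {C : ℕ → ℕ → Bool} {σ : Type} [Primcodable σ] {d : Dat k C j σ}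
  {R' : ℕ → St σ}

theorem time (h0 : R' 0 = d.s0) (h : ∀ t, d.Ext (R' t) (R' (t + 1))) (t : ℕ) : (R' t).t = t := by
  induction t with
  | zero => rw [h0]; rfl
  | succ t ih => rw [(h t).2.2.2.2.2.2.2.1, ih]

theorem mono (h : ∀ t, d.Ext (R' t) (R' (t + 1))) {t t' : ℕ} (ht : t ≤ t') :
    (R' t).A ⊆ (R' t').A ∧ (R' t).S ⊆ (R' t').S ∧ (R' t).App ⊆ (R' t').App ∧
      (R' t).m ≤ (R' t').m := by
  induction t', ht using Nat.le_induction with
  | base => exact ⟨subset_rfl, subset_rfl, List.Subset.refl _, le_rfl⟩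
  | succ t' _ ih =>
    exact ⟨ih.1.trans (h t').2.2.2.1, ih.2.1.trans (h t').1,
      List.Subset.trans ih.2.2.1 (d.app_mono (h t')), ih.2.2.2.trans (h t').2.2.2.2.2.1⟩

theorem small (h : ∀ t, d.Ext (R' t) (R' (t + 1))) {t t' v : ℕ} (ht : t ≤ t')
    (hv : v ∈ (R' t').S) (hm : v ≤ (R' t).m) : v ∈ (R' t).S := by
  induction t', ht using Nat.le_induction with
  | base => exact hv
  | succ t' ht ih =>
    refine ih ?_
    by_contra hn
    exact (h t').2.1 v hv (Or.inl ⟨hm.trans (mono h ht).2.2.2, hn⟩)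

/-- one step of the extraction -/
theorem step (h0 : R' 0 = d.s0) (h : ∀ t, d.Ext (R' t) (R' (t + 1))) {r : List σ} {t : ℕ}
    {x : Option ℕ} (hr : r ∈ (R' t).App) (hs : sched σ t = some (r, x)) :
    (∃ r', (R' (t + 1)).out = some r' ∧ r' ∈ (R' (t + 1)).App ∧ r <+: r' ∧
      (∀ a ∈ d.S.atm (d.cur r') \ d.S.atm (d.cur r), (R' t).m < a) ∧
      (x = none → r.length < r'.length) ∧ ∀ i, x = some i → Halt d.Y i r') ∨
    ∃ i, x = some i ∧ (R' (t + 1)).out = none ∧ ∀ r',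
      ¬ (d.Cond (R' (t + 1)).A (R' (t + 1)).S (R' t).App (R' (t + 1)).m r r' ∧ Halt d.Y i r') := by
  rw [← time h0 h t] at hs
  obtain ⟨-, -, -, -, -, -, -, -, ⟨h1, -⟩ | ⟨y, r', h1, -, h2, h3, -, -, h4, -, h5, h6, h7⟩ |
    ⟨r1, i, h1, -, h2, -, h3⟩⟩ := h t
  · exact (h1 _ hs hr).elim
  · obtain rfl : (r, x) = y := Option.some.inj (hs.symm.trans h1)
    exact Or.inl ⟨r', h2, h4 ▸ List.mem_cons_self, h3, h5, h6, h7⟩
  · obtain ⟨rfl, rfl⟩ := Prod.mk.inj (Option.some.inj (hs.symm.trans h1))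
    exact Or.inr ⟨i, rfl, h2, h3⟩

/-- the sequence of the finite runs that are followed -/
theorem exists_seq (h0 : R' 0 = d.s0) (h : ∀ t, d.Ext (R' t) (R' (t + 1))) :
    ∃ (r : ℕ → List σ) (T : ℕ → ℕ), CI (gr R') T ∧ r 0 = [d.S.s0] ∧
      (∀ u, r u ∈ (R' (T u)).App) ∧ ∀ u, ∃ t, T (u + 1) = t + 1 ∧ T u ≤ t ∧
        sched σ t = some (r u, kind u) ∧ r (u + 1) = (R' (t + 1)).out.getD (r u) := by
  have hR := ci_gr R'
  have hI : ∀ x y : List σ × ℕ × ℕ, x.1 ∈ (R' x.2.1).App → (y.2.2 = x.2.2 + 1 ∧ x.2.1 < y.2.1 ∧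
      sched σ (y.2.1 - 1) = some (x.1, kind x.2.2) ∧ y.1 = (R' y.2.1).out.getD x.1) →
      y.1 ∈ (R' y.2.1).App := by
    rintro ⟨r, t, u⟩ ⟨r', t', u'⟩ hx ⟨-, h1, h2, h3⟩
    obtain ⟨t1, rfl⟩ : ∃ t1, t' = t1 + 1 := ⟨t' - 1, by simp only at h1; omega⟩
    simp only [Nat.add_sub_cancel] at h1 h2 h3 hx ⊢
    have hx' := (mono h (Nat.le_of_lt_succ h1)).2.2.1 hx
    rcases step h0 h hx' h2 with ⟨r1, h4, h5, -⟩ | ⟨i, -, h4, -⟩
    · rw [h3, h4]; exact h5
    · rw [h3, h4]; exact (mono h t1.le_succ).2.2.1 hx'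
  obtain ⟨P, hP, hP0, hPs⟩ := exists_path (X := gr R') (σ := List σ × ℕ × ℕ)
    (r := fun x y => y.2.2 = x.2.2 + 1 ∧ x.2.1 < y.2.1 ∧
      sched σ (y.2.1 - 1) = some (x.1, kind x.2.2) ∧ y.1 = (R' y.2.1).out.getD x.1)
    (I := fun x => x.1 ∈ (R' x.2.1).App) (Sig.of_di (by fun_prop)) (s0 := ([d.S.s0], 0, 0))
    (by simp [h0, Dat.s0, St.App]) hI fun x _ => by
      obtain ⟨t, h1, h2⟩ := exists_sched (x.1, kind x.2.2) x.2.1
      exact ⟨((R' (t + 1)).out.getD x.1, t + 1, x.2.2 + 1), rfl, Nat.lt_succ_of_le h1, h2, rfl⟩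
  have hu : ∀ u, (P u).2.2 = u := fun u => by
    induction u with
    | zero => rw [hP0]
    | succ u ih => rw [(hPs u).1, ih]
  refine ⟨fun u => (P u).1, fun u => (P u).2.1, by fun_prop, by simp only [hP0], fun u => ?_, fun u => ?_⟩
  · induction u with
    | zero => simp [hP0, h0, Dat.s0, St.App]
    | succ u ih => exact hI _ _ ih (hPs u)
  · obtain ⟨-, h1, h2, h3⟩ := hPs u
    rw [hu] at h2
    have e : (P (u + 1)).2.1 - 1 + 1 = (P (u + 1)).2.1 := by omega
    exact ⟨(P (u + 1)).2.1 - 1, e.symm, by simp only; omega, h2, by rw [e]; exact h3⟩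

end Extract

open Extract in
theorem all_extract (hg : S_good) : S_extract := by
  intro k C j σ _ d R' h0 h
  have hgood : ∀ t, d.good (R' t) := fun t => by
    induction t with
    | zero => exact h0 ▸ (hg k C j σ d).1
    | succ t ih => exact (hg k C j σ d).2.1 _ _ ih (h t)
  obtain ⟨r, T, hT, hr0, hr, hs⟩ := exists_seq h0 h
  choose t ht1 ht2 ht3 ht4 using hs
  have hst := fun u => step h0 h ((mono h (ht2 u)).2.2.1 (hr u)) (ht3 u)
  have hTm : Monotone T := monotone_nat_of_le_succ fun u => by have := ht1 u; have := ht2 u; omega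
  have hp1 : ∀ u, r u <+: r (u + 1) := fun u => by
    rcases hst u with ⟨r', h1, -, h2, -⟩ | ⟨i, -, h1, -⟩
    · rw [ht4, h1]; exact h2
    · rw [ht4, h1]; exact ⟨[], List.append_nil _⟩
  have hp : ∀ u u', u ≤ u' → r u <+: r u' := fun u u' hu => by
    induction u', hu using Nat.le_induction with
    | base => exact ⟨[], List.append_nil _⟩
    | succ u' _ ih => exact ih.trans (hp1 u')
  have hlen : ∀ n, n < (r (2 * n)).length := fun n => by
    induction n with
    | zero => simp [hr0]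
    | succ n ih =>
      have h1 := (hp1 (2 * n + 1)).length_le
      have hk : kind (2 * n) = none := by simp [kind]
      rcases hst (2 * n) with ⟨r', h2, -, -, -, h3, -⟩ | ⟨i, h2, -⟩
      · have h4 := h3 hk
        have h5 : r (2 * n + 1) = r' := by rw [ht4, h2]; rfl
        rw [h5] at h1
        change _ < (r (2 * n + 1 + 1)).length
        omega
      · simp [hk] at h2
  let R : ℕ → σ := fun n => (r (2 * n)).getD n d.S.s0
  have hR : ∀ u, (List.range (r u).length).map R = r u := fun u => by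
    refine List.ext_getElem (by simp) fun i h1 h2 => ?_
    simp only [List.getElem_map, List.getElem_range, R]
    rw [List.getD_eq_getElem _ _ (hlen i), (hp _ _ (le_max_left (2 * i) u)).getElem (hlen i),
      (hp _ _ (le_max_right (2 * i) u)).getElem h2]
  have hR' := ci_gr R'
  refine ⟨R, fun i => (R' (T (2 * i + 2))).out.isSome, by fun_prop,
    fun n => ⟨_, T (2 * n), (hlen n).le, (hR _).symm ▸ hr _⟩, fun i => ?_⟩
  have hk : kind (2 * i + 1) = some i := by
    rw [kind, if_neg (by omega)]; congr 1; omega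
  have e1 : T (2 * i + 2) = t (2 * i + 1) + 1 := ht1 (2 * i + 1)
  simp only [e1]
  rcases hst (2 * i + 1) with ⟨r', h1, -, -, -, -, h2⟩ | ⟨i', h1, h2, h3⟩
  · have h5 : r (2 * i + 1 + 1) = r' := by rw [ht4, h1]; rfl
    refine ⟨fun _ => ⟨(r (2 * i + 1 + 1)).length, ?_⟩, fun _ => by rw [h1]; rfl⟩
    rw [hR, h5]; exact h2 i hk
  · obtain rfl : i = i' := Option.some.inj (hk.symm.trans h1)
    rw [h2]
    refine ⟨fun e => by simp at e, fun ⟨m, hm⟩ => (h3 (r (2 * (i + 1 + m))) ⟨?_, ?_⟩).elim⟩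
    swap
    · rw [← hR]
      exact halt_mono (by have := hlen (i + 1 + m); omega) hm
    have h5 : r (2 * i + 2) = r (2 * i + 1) := by
      change r (2 * i + 1 + 1) = _
      rw [ht4, h2]; rfl
    have hat : ∀ u, 2 * i + 2 ≤ u → ∀ a ∈ d.S.atm (d.cur (r u)) \ d.S.atm (d.cur (r (2 * i + 1))),
        (R' (t (2 * i + 1) + 1)).m < a := fun u hu => by
      induction u, hu using Nat.le_induction with
      | base => simp [h5]
      | succ u hu ih =>
        intro a ha
        by_cases h6 : a ∈ d.S.atm (d.cur (r u))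
        · exact ih a (Finset.mem_sdiff.2 ⟨h6, (Finset.mem_sdiff.1 ha).2⟩)
        · rcases hst u with ⟨r', h7, -, -, h8, -⟩ | ⟨i', -, h7, -⟩
          · have h9 : r (u + 1) = r' := by rw [ht4, h7]; rfl
            refine (mono h (e1 ▸ (hTm hu).trans (ht2 u))).2.2.2.trans_lt
              (h8 a (Finset.mem_sdiff.2 ⟨h9 ▸ (Finset.mem_sdiff.1 ha).1, h6⟩))
          · have h9 : r (u + 1) = r u := by rw [ht4, h7]; rfl
            exact (h6 (h9 ▸ (Finset.mem_sdiff.1 ha).1)).elim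
    have hu : 2 * i + 2 ≤ 2 * (i + 1 + m) := by omega
    have hle : t (2 * i + 1) + 1 ≤ T (2 * (i + 1 + m)) := e1 ▸ hTm hu
    obtain ⟨-, g1, g2⟩ := hgood (T (2 * (i + 1 + m)))
    obtain ⟨-, g3, g4, g5⟩ := g1 _ (hr _)
    obtain ⟨m1, m2, m3, -⟩ := mono h hle
    refine ⟨hp _ _ (by omega), g3, hat _ hu, fun v hv => ?_, fun v hv hF => ?_⟩
    · by_contra hn
      exact (Finset.mem_sdiff.1 hv).2
        (small h hle (g5 (Finset.mem_sdiff.1 hv).1) (not_lt.1 hn))
    · refine g2 v (Finset.union_subset m2 g5 hv) (Or.inr (d.Fb0_mono m1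
        (Finset.union_subset m1 g4) (List.cons_subset.2 ⟨hr _, ?_⟩) hF))
      exact (mono h ((Nat.le_succ _).trans hle)).2.2.1

end Pool.Agent.P.MP_9014a2_lc
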