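import Pool.Agent.P.MP_9014a2_lc.Core

/-!
Finite sets of naturals, coded by bits.
-/

namespace Pool.Agent.P.MP_9014a2_lc

open Pool.Agent.Lib.Helper43 Encodable

instance finsetPrim : Primcodable (Finset ℕ) :=
  Primcodable.ofEquiv ℕ Finset.equivBitIndices.symm

/-- code of a finite set -/
def fc (T : Finset ℕ) : ℕ := Finset.equivBitIndices.symm T

/-- finite set with a given code -/
def fd (n : ℕ) : Finset ℕ := Finset.equivBitIndices n

@[simp] theorem fd_fc (T : Finset ℕ) : fd (fc T) = T := Equiv.apply_symm_apply _ _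

@[simp] theorem fc_fd (n : ℕ) : fc (fd n) = n := Equiv.symm_apply_apply _ _

theorem fc_injective : Function.Injective fc := Equiv.injective _

theorem fc_eq (T : Finset ℕ) : fc T = ∑ i ∈ T, 2 ^ i := rfl

theorem mem_fd {a n : ℕ} : a ∈ fd n ↔ n.testBit a = true := by
  simp [fd, Finset.equivBitIndices]

theorem mem_iff_testBit {a : ℕ} {T : Finset ℕ} : a ∈ T ↔ (fc T).testBit a = true := by
  rw [← mem_fd, fd_fc]

theorem fc_mono {T U : Finset ℕ} (h : T ⊆ U) : fc T ≤ fc U := Finset.sum_le_sum_of_subset h

theorem lt_fc {a : ℕ} {T : Finset ℕ} (h : a ∈ T) : a < fc T :=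
  Nat.lt_two_pow_self.trans_le (Nat.ge_two_pow_of_testBit (mem_iff_testBit.1 h))

@[fun_prop] theorem computable_fc : Computable fc := Primrec.of_equiv.to_comp

@[fun_prop] theorem computable_fd : Computable fd := Primrec.of_equiv_symm.to_comp

/-- the elements of a finite set as a list -/
def toL (T : Finset ℕ) : List ℕ := (List.range (fc T)).filter fun a => (fc T).testBit a

@[simp] theorem mem_toL {a : ℕ} {T : Finset ℕ} : a ∈ toL T ↔ a ∈ T := by
  simp only [toL, List.mem_filter, List.mem_range, ← mem_iff_testBit]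
  exact ⟨fun h => h.2, fun h => ⟨lt_fc h, h⟩⟩

theorem nodup_toL (T : Finset ℕ) : (toL T).Nodup := List.nodup_range.filter _

@[simp] theorem toFinset_toL (T : Finset ℕ) : (toL T).toFinset = T := by
  ext a; simp

@[fun_prop] theorem computable_toL : Computable toL := by
  unfold toL
  fun_prop

@[fun_prop] theorem computable_toFinset : Computable fun l : List ℕ => l.toFinset := by
  have h1 : Computable fun l : List ℕ =>
      fd (l.foldl (fun n x => bif n.testBit x then n else n + 2 ^ x) 0) := by fun_prop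
  refine h1.of_eq fun l => ?_
  have : ∀ (l : List ℕ) (T : Finset ℕ),
      l.foldl (fun n x => bif n.testBit x then n else n + 2 ^ x) (fc T) = fc (T ∪ l.toFinset) := by
    intro l
    induction l with
    | nil => simp
    | cons x l ih =>
      intro T
      have : (bif (fc T).testBit x then fc T else fc T + 2 ^ x) = fc (insert x T) := by
        by_cases hx : x ∈ T
        · simp [mem_iff_testBit.1 hx, Finset.insert_eq_of_mem hx]
        · have h2 : (fc T).testBit x = false := by simpa [mem_iff_testBit] using hx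
          rw [h2, fc_eq (insert x T), Finset.sum_insert hx, add_comm]
          rfl
      rw [List.foldl_cons, this, ih]
      congr 1
      ext a
      simp only [Finset.mem_union, Finset.mem_insert, List.mem_toFinset, List.mem_cons]
      tauto
  have h2 := this l ∅
  rw [show fc ∅ = 0 from rfl] at h2
  rw [h2]
  simp

/-- the subsets of a finite set as a list -/
def subs (T : Finset ℕ) : List (Finset ℕ) :=
  ((List.range (fc T + 1)).map fd).filter fun U => (toL U).all fun a => (fc T).testBit a

@[simp] theorem mem_subs {U T : Finset ℕ} : U ∈ subs T ↔ U ⊆ T := by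
  simp only [subs, List.mem_filter, List.mem_map, List.mem_range, List.all_eq_true, mem_toL,
    ← mem_iff_testBit]
  exact ⟨fun h => h.2, fun h => ⟨⟨fc U, Nat.lt_succ_of_le (fc_mono h), fd_fc U⟩, h⟩⟩

@[fun_prop] theorem computable_subs : Computable subs := by
  unfold subs
  fun_prop

variable {α β : Type} [Primcodable α] [Primcodable β] {X : ℕ → Bool}

namespace DI

@[fun_prop] theorem memF {f : α → ℕ} {T : α → Finset ℕ} (hf : CI X f) (hT : CI X T) :
    DI X (fun a => f a ∈ T a) :=
  (memL (l := fun a => toL (T a)) hf (by fun_prop)).of_iff fun _ => mem_toL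

theorem exF {T : α → Finset ℕ} {r : α → ℕ → Prop} (hr : DI X fun x : α × ℕ => r x.1 x.2)
    (hT : CI X T) : DI X (fun a => ∃ b ∈ T a, r a b) :=
  (exL (l := fun a => toL (T a)) hr (by fun_prop)).of_iff fun a => by simp

theorem allF {T : α → Finset ℕ} {r : α → ℕ → Prop} (hr : DI X fun x : α × ℕ => r x.1 x.2)
    (hT : CI X T) : DI X (fun a => ∀ b ∈ T a, r a b) :=
  (allL (l := fun a => toL (T a)) hr (by fun_prop)).of_iff fun a => by simp

theorem exSub {T : α → Finset ℕ} {r : α → Finset ℕ → Prop}
    (hr : DI X fun x : α × Finset ℕ => r x.1 x.2) (hT : CI X T) :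
    DI X (fun a => ∃ b ⊆ T a, r a b) :=
  (exL (l := fun a => subs (T a)) hr (by fun_prop)).of_iff fun a => by simp

theorem allSub {T : α → Finset ℕ} {r : α → Finset ℕ → Prop}
    (hr : DI X fun x : α × Finset ℕ => r x.1 x.2) (hT : CI X T) :
    DI X (fun a => ∀ b ⊆ T a, r a b) :=
  (allL (l := fun a => subs (T a)) hr (by fun_prop)).of_iff fun a => by simp

@[fun_prop] theorem subsetF {T U : α → Finset ℕ} (hT : CI X T) (hU : CI X U) :
    DI X (fun a => T a ⊆ U a) :=
  allF (r := fun a b => b ∈ U a) (by fun_prop) hT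

end DI

theorem Sig.allF {T : α → Finset ℕ} {r : α → ℕ → Prop} (hr : Sig X fun x : α × ℕ => r x.1 x.2)
    (hT : CI X T) : Sig X (fun a => ∀ b ∈ T a, r a b) :=
  (Sig.allL (l := fun a => toL (T a)) hr (by fun_prop)).of_iff fun a => by simp

theorem Sig.allSub {T : α → Finset ℕ} {r : α → Finset ℕ → Prop}
    (hr : Sig X fun x : α × Finset ℕ => r x.1 x.2) (hT : CI X T) :
    Sig X (fun a => ∀ b ⊆ T a, r a b) :=
  (Sig.allL (l := fun a => subs (T a)) hr (by fun_prop)).of_iff fun a => by simp

namespace CI

@[fun_prop] theorem unionF {T U : α → Finset ℕ} (hT : CI X T) (hU : CI X U) :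
    CI X (fun a => T a ∪ U a) :=
  of_eq (f := fun a => (toL (T a) ++ toL (U a)).toFinset) (by fun_prop) fun a => by simp

@[fun_prop] theorem filterF {T : α → Finset ℕ} {r : α → ℕ → Prop}
    {inst : ∀ a, DecidablePred (r a)} (hr : DI X fun x : α × ℕ => r x.1 x.2) (hT : CI X T) :
    CI X (fun a => @Finset.filter ℕ (r a) (inst a) (T a)) := by
  obtain ⟨f, hf, e⟩ := hr.exists_bool
  exact of_eq (f := fun a => ((toL (T a)).filter fun b => f (a, b)).toFinset) (by fun_prop)
    fun a => by ext b; simp [← e]

@[fun_prop] theorem sdiffF {T U : α → Finset ℕ} (hT : CI X T) (hU : CI X U) :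
    CI X (fun a => T a \ U a) :=
  of_eq (f := fun a => (T a).filter fun b => ¬ b ∈ U a) (by fun_prop) fun a => by ext; simp

@[fun_prop] theorem interF {T U : α → Finset ℕ} (hT : CI X T) (hU : CI X U) :
    CI X (fun a => T a ∩ U a) :=
  of_eq (f := fun a => (T a).filter fun b => b ∈ U a) (by fun_prop) fun a => by ext; simp

@[fun_prop] theorem insertF {f : α → ℕ} {T : α → Finset ℕ} (hf : CI X f) (hT : CI X T) :
    CI X (fun a => insert (f a) (T a)) :=
  of_eq (f := fun a => (f a :: toL (T a)).toFinset) (by fun_prop) fun a => by simp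

@[fun_prop] theorem singletonF {f : α → ℕ} (hf : CI X f) :
    CI X (fun a => ({f a} : Finset ℕ)) :=
  of_eq (f := fun a => [f a].toFinset) (by fun_prop) fun a => by simp

@[fun_prop] theorem eraseF {f : α → ℕ} {T : α → Finset ℕ} (hT : CI X T) (hf : CI X f) :
    CI X (fun a => (T a).erase (f a)) :=
  of_eq (f := fun a => T a \ {f a}) (by fun_prop) fun a => by ext; simp [and_comm]

@[fun_prop] theorem rangeF {f : α → ℕ} (hf : CI X f) : CI X (fun a => Finset.range (f a)) :=
  of_eq (f := fun a => (List.range (f a)).toFinset) (by fun_prop) fun a => by ext; simp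

@[fun_prop] theorem imageF {T : α → Finset ℕ} {g : α → ℕ → ℕ}
    (hg : CI X fun x : α × ℕ => g x.1 x.2) (hT : CI X T) :
    CI X (fun a => (T a).image (g a)) :=
  of_eq (f := fun a => ((toL (T a)).map (g a)).toFinset) (by fun_prop) fun a => by ext; simp

@[fun_prop] theorem biUnionF {T : α → Finset ℕ} {g : α → ℕ → Finset ℕ}
    (hg : CI X fun x : α × ℕ => g x.1 x.2) (hT : CI X T) :
    CI X (fun a => (T a).biUnion (g a)) :=
  of_eq (f := fun a => ((toL (T a)).flatMap fun b => toL (g a b)).toFinset) (by fun_prop)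
    fun a => by ext; simp

/-- image of the power set -/
theorem imageSub {T : α → Finset ℕ} {g : α → Finset ℕ → ℕ}
    (hg : CI X fun x : α × Finset ℕ => g x.1 x.2) (hT : CI X T) :
    CI X (fun a => (T a).powerset.image (g a)) :=
  of_eq (f := fun a => ((subs (T a)).map (g a)).toFinset) (by fun_prop) fun a => by ext; simp

@[fun_prop] theorem cardF {T : α → Finset ℕ} (hT : CI X T) : CI X (fun a => (T a).card) :=
  of_eq (f := fun a => (toL (T a)).length) (by fun_prop) fun a => by
    rw [← List.toFinset_card_of_nodup (nodup_toL _), toFinset_toL]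

@[fun_prop] theorem sumF {T : α → Finset ℕ} {g : α → ℕ → ℕ}
    (hg : CI X fun x : α × ℕ => g x.1 x.2) (hT : CI X T) :
    CI X (fun a => ∑ b ∈ T a, g a b) :=
  of_eq (f := fun a => ((toL (T a)).map (g a)).foldl (fun s x => s + x) 0) (by fun_prop)
    fun a => by
      rw [← List.sum_eq_foldl, ← List.sum_toFinset _ (nodup_toL _), toFinset_toL]

end CI

end Pool.Agent.P.MP_9014a2_lc
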