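import Pool.Agent.P.MP_9014a2_lc.Runs

/-!
Complexity of the forbidden values.
-/

namespace Pool.Agent.P.MP_9014a2_lc

namespace Fb0

variable {k j : ℕ} {C : ℕ → ℕ → Bool} {σ : Type} [Primcodable σ] (d : Dat k C j σ)

/-- the variant of `Fb0` with the graphs `g` -/
def Var (g : ℕ → ℕ → Bool) (H A : Finset ℕ) (App : List (List σ)) (v : ℕ) : Prop :=
  (∃ r ∈ App, d.S.Fb (d.cur r) v ∨ ∃ T ⊆ d.S.atm (d.cur r), zs k T + j = k ∧
    (d.S.β T v ∧ k ≤ zs k T + j) ∧ ¬ OmL C j T v) ∨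
  ∃ h ∈ H, lev h = j + 1 ∧ ∃ τ ⊆ A, (∀ a ∈ τ, lev a ≤ j ∧ h < a) ∧ zs k τ = wt h ∧
    val (g h) τ v ∧ ¬ OmL C j τ v

theorem var_iff {g : ℕ → ℕ → Bool} {H : Finset ℕ} (hg : ∀ h ∈ H, lev h = j + 1 → g h = G C h)
    (A : Finset ℕ) (App : List (List σ)) (v : ℕ) : Var d g H A App v ↔ d.Fb0 H A App v := by
  refine or_congr (exists_congr fun r => and_congr_right fun _ => or_congr_right
    (exists_congr fun T => and_congr_right fun _ => and_congr_right fun e => ?_))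
    (exists_congr fun h => and_congr_right fun h1 => and_congr_right fun h2 => ?_)
  · rw [and_iff_left e.ge]
  · rw [hg h h1 h2]

theorem di_var {X : ℕ → Bool} {g : ℕ → ℕ → Bool} (h1 : DI X fun p : σ × ℕ => d.S.Fb p.1 p.2)
    (h2 : DI X fun p : Finset ℕ × ℕ => d.S.β p.1 p.2 ∧ k ≤ zs k p.1 + j)
    (h3 : DI X fun p : Finset ℕ × ℕ => OmL C j p.1 p.2)
    (h4 : CI X fun p : ℕ × ℕ => g p.1 p.2) :
    DI X fun p : Finset ℕ × Finset ℕ × List (List σ) × ℕ =>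
      Var d g p.1 p.2.1 p.2.2.1 p.2.2.2 := by
  have c1 := d.computable_cur
  have c2 := d.computable_atm
  refine DI.or (DI.exL (DI.or ?_ (DI.exSub (DI.and (by fun_prop) (DI.and ?_ (DI.not ?_)))
    (by fun_prop))) (by fun_prop)) (DI.exF (DI.and (by fun_prop) (DI.exSub (DI.and
      (DI.allF (by fun_prop) (by fun_prop)) (DI.and (by fun_prop) (DI.and
        (DI.val ?_ (by fun_prop) (by fun_prop)) (DI.not ?_)))) (by fun_prop))) (by fun_prop))
  · exact h1.comp (g := fun x : (Finset ℕ × Finset ℕ × List (List σ) × ℕ) × List σ =>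
      (d.cur x.2, x.1.2.2.2)) (by fun_prop)
  · exact h2.comp (g := fun x : ((Finset ℕ × Finset ℕ × List (List σ) × ℕ) × List σ) × Finset ℕ =>
      (x.2, x.1.1.2.2.2)) (by fun_prop)
  · exact h3.comp (g := fun x : ((Finset ℕ × Finset ℕ × List (List σ) × ℕ) × List σ) × Finset ℕ =>
      (x.2, x.1.1.2.2.2)) (by fun_prop)
  · exact h4.comp
      (g := fun x : (((Finset ℕ × Finset ℕ × List (List σ) × ℕ) × ℕ) × Finset ℕ) × ℕ =>
        (x.1.1.2, x.2)) (by fun_prop)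
  · exact h3.comp (g := fun x : ((Finset ℕ × Finset ℕ × List (List σ) × ℕ) × ℕ) × Finset ℕ =>
      (x.2, x.1.1.2.2.2)) (by fun_prop)

end Fb0

theorem all_fb0 : S_fb0 := by
  intro k C j σ _ d
  refine ⟨(Fb0.di_var d (g := fun h n => if lev h ≤ j + 1 then G C h n else false)
    d.S.fb_dec.di (d.S.b3 j le_rfl).di (d.tower.dm_omL j).di (d.tower.ci_G j)).of_iff
      fun p => Fb0.var_iff d (fun h _ e => funext fun n => if_pos e.le) _ _ _, fun H => ?_⟩
  have hS := d.tower.scott j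
  obtain ⟨X1, m1, h1⟩ := d.S.fb_dec
  obtain ⟨X2, m2, h2⟩ := d.S.b3 j le_rfl
  obtain ⟨X3, m3, h3⟩ := d.tower.dm_omL j
  obtain ⟨X4, m4, h4⟩ := hS.exists_ub_finset (H.filter fun h => lev h = j + 1) (G C)
    fun a ha => G_mem C (Finset.mem_filter.1 ha).2
  obtain ⟨Y, mY, r1, r2⟩ := hS.exists_ub m1 m2
  obtain ⟨Z, mZ, r3, r4⟩ := hS.exists_ub m3 m4
  obtain ⟨X, mX, r5, r6⟩ := hS.exists_ub mY mZ
  have h := Fb0.di_var d
    (g := fun h n => if h ∈ H.filter (fun h => lev h = j + 1) then G C h n else false)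
    (h1.mono (r1.trans r5)) (h2.mono (r2.trans r5)) (h3.mono (r3.trans r6))
    (h4.mono (r4.trans r6))
  exact ⟨X, mX, (h.comp (g := fun p : Finset ℕ × List (List σ) × ℕ => (H, p))
    (by fun_prop)).of_iff fun p => Fb0.var_iff d
      (fun h h1 e => funext fun n => if_pos (Finset.mem_filter.2 ⟨h1, e⟩)) _ _ _⟩

end Pool.Agent.P.MP_9014a2_lc
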