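import Pool.Agent.P.MP_9014a2_lc.Runs

/-!
Assembly of the pieces.
-/

namespace Pool.Agent.P.MP_9014a2_lc

theorem glue_step (hp : S_pieces) (hs : S_sec) (hd : S_delta) (hf : S_fb0) (he : S_extSig)
    (hg : S_good) (h12 : S_b12) (h3 : S_b3) (hsv : S_nsServe) (hdc : S_nsDec) (hx : S_extract)
    (hxs : S_extractSol) : S_step := by
  intro k C j σ _ S hC hjk Y hY
  obtain ⟨P0, hP0⟩ := hp k C j σ S hC (by omega)
  obtain ⟨B, hB⟩ := hs k C j hC
  obtain ⟨δ, hδ⟩ := hd k C j hC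
  let d : Dat k C j σ := ⟨S, Y, P0, B, δ, hC, hjk, hY, hP0, hB, hδ⟩
  obtain ⟨D, hb1, hb2⟩ := h12 k C j σ d
  obtain ⟨g0, g1, g2⟩ := hg k C j σ d
  let S' : Sys k C (j + 1) (St σ) :=
    { s0 := d.s0
      atm := fun s => s.A
      pr := fun s => s.S
      good := d.good
      Ext := d.Ext
      Fb := d.Fb
      β := d.β
      D := D
      atm_comp := Computable.fst
      pr_comp := Computable.fst.comp Computable.snd
      ext_sig := ⟨_, hC.jump_mem j, he k C j σ d⟩
      fb_dec := ⟨_, hC.self_mem j, DI.or (by fun_prop) ((hf k C j σ d).1.comp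
        (g := fun p : St σ × ℕ => (p.1.A, p.1.A, p.1.App, p.2)) (by fun_prop))⟩
      atm0 := rfl
      pr0 := rfl
      good0 := g0
      good_ext := g1
      mono := fun _ _ h => ⟨h.2.2.2.1, h.1⟩
      real := fun _ h a ha => ⟨(h.1 a ha).1, (h.1 a ha).2.1⟩
      avoid := fun _ h => h.2.2
      fin := g2
      b1 := hb1
      b2 := hb2
      b3 := h3 k C j σ d
      ns := by
        intro s hs S hS hFb γ hγ hal n
        by_cases h : ∀ x, sched σ s.t = some x → x.1 ∉ s.App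
        · refine ⟨(s.A, S, s.App, s.m, none, s.t + 1), ⟨hS, hFb, fun v hv hv' => ?_,
            subset_rfl, by simp, le_rfl, fun a ha => (hs.1 a ha).2.2, rfl,
            Or.inl ⟨h, rfl, rfl⟩⟩, by simp, subset_rfl, by simp, ?_⟩
          · exact hv'.elim (fun h => h.2 hv) fun h => hFb v hv (Or.inr h)
          · intro c hc τ hτ hz
            obtain rfl : τ = ∅ := by simpa using hτ
            have := (hγ c hc).2.1
            simp only [zs, Finset.sum_empty] at hz
            omega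
        · push Not at h
          obtain ⟨⟨r, i⟩, h1, h2⟩ := h
          cases i with
          | none => exact hsv k C j σ d s S γ n r hs hS hFb hγ hal h1 h2
          | some i => exact hdc k C j σ d s S γ n i r hs hS hFb hγ hal h1 h2 }
  refine ⟨S', fun R' ⟨h0, h1, h2⟩ => ?_⟩
  obtain ⟨R, e, he, hR, hi⟩ := hx k C j σ d R' h0 h1
  have hgood : ∀ t, d.good (R' t) := by
    intro t
    induction t with
    | zero => exact h0 ▸ g0
    | succ t ih => exact g1 _ _ ih (h1 t)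
  refine ⟨R, hxs k C j σ d R' R hgood h2 hR, he.of_eq fun i => ?_⟩
  rw [Bool.eq_iff_iff, hi, jump_iff_halt]

theorem glue_runs (hs : S_step) (ht : S_top) {k : ℕ} {C : ℕ → ℕ → Bool} (hC : Tower C) (n : ℕ) :
    ∀ (j : ℕ) (σ : Type) [Primcodable σ] (S : Sys k C j σ), j + n + 1 = k → ∀ Y ∈ M (C j),
      ∃ R, S.Sol R ∧ jump^[n] (join (gr R) Y) ∈ M (C (j + n)) := by
  induction n with
  | zero =>
    intro j σ _ S hk Y hY
    obtain ⟨R, hR, X, hX, h⟩ := ht k C j σ S hC hk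
    exact ⟨R, hR, (hC.scott j).join_mem _ ((hC.scott j).red_mem hX (red_gr h)) _ hY⟩
  | succ n ih =>
    intro j σ _ S hk Y hY
    obtain ⟨S', h⟩ := hs k C j σ S hC (by omega) Y hY
    obtain ⟨R', hR', h1⟩ := ih (j + 1) _ S' (by omega) _ (col_mem _ 0)
    obtain ⟨R, hR, h2⟩ := h R' hR'
    refine ⟨R, hR, ?_⟩
    rw [show j + (n + 1) = j + 1 + n by omega]
    exact (hC.scott _).red_mem h1 ((h2.trans (red_left _ _)).iterate n)

theorem exists_tower (hl : S_low) (hs : S_scott) (X : ℕ → Bool) : ∃ C : ℕ → ℕ → Bool,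
    Tower C ∧ X ∈ M (C 0) ∧ ∀ l, Red (jump (C l)) (jump^[l + 1] X) := by
  have h1 : ∀ X : ℕ → Bool, ∃ C, X ∈ M C ∧ Scott C ∧ Red (jump C) (jump X) := by
    intro X
    obtain ⟨P, hP, hne, h⟩ := hs X
    obtain ⟨C, hC, hr⟩ := hl X P hP hne
    exact ⟨C, (h C hC).1, (h C hC).2, (red_right X C).jump.trans hr⟩
  choose f hf using h1
  let C : ℕ → ℕ → Bool := fun l => Nat.rec (f X) (fun _ c => f (jump c)) l
  refine ⟨C, ⟨fun l => ?_, fun l => (hf _).1⟩, (hf X).1, fun l => ?_⟩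
  · cases l with
    | zero => exact (hf _).2.1
    | succ l => exact (hf _).2.1
  · induction l with
    | zero => exact (hf X).2.2
    | succ l ih =>
      rw [Function.iterate_succ_apply' jump (l + 1)]
      exact (hf (jump (C l))).2.2.trans ih.jump

theorem glue_fs (hl : S_low) (hsc : S_scott) (hb : S_base) (hs : S_step) (ht : S_top) : S_fs := by
  intro k X F hk hF
  obtain ⟨n, rfl⟩ : ∃ n, k = n + 1 := ⟨k - 1, by omega⟩
  obtain ⟨C, hC, hX, hlow⟩ := exists_tower hl hsc X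
  obtain ⟨S, hS⟩ := hb (n + 1) C F hC ⟨X, hX, hF⟩
  obtain ⟨R, hR, h⟩ := glue_runs hs ht hC n 0 _ S (by omega) X hX
  obtain ⟨H, hH, hfree⟩ := hS R hR
  refine ⟨H, hfree, ?_⟩
  rw [Nat.zero_add] at h
  have h1 : Red (join H X) (join (gr R) X) := (hH.trans (red_left _ _)).join (red_right _ _)
  rw [Function.iterate_succ_apply' jump n (join H X)]
  exact ((h1.iterate n).trans (red_of_mem h)).jump.trans (hlow n)

theorem red_iterate (A : ℕ → Bool) (n : ℕ) : Red A (jump^[n] A) := by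
  induction n with
  | zero => exact Red.refl A
  | succ n ih =>
    rw [Function.iterate_succ_apply']
    exact ih.trans (red_jump _)

theorem glue_main (hfs : S_fs) (hts : S_tsLow) (hi : S_ideal) (hm : S_model) (k : ℕ)
    (hk : 1 ≤ k) : ∃ I : Set (ℕ → Bool), TuringIdeal I ∧
      (∀ m, 1 ≤ m → m ≤ k → T1 I m ∧ T2 I m) ∧ ∀ m, k < m → ¬ T1 I m ∧ ¬ T2 I m := by
  obtain ⟨I, hI, hL, hsol⟩ := hi {X | Red (jump^[k] X) (jump^[k] fun _ => false)} (Free k)
    ⟨_, Red.refl _⟩ (fun X hX Y h => (h.iterate k).trans hX) fun X hX F hF => by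
      obtain ⟨H, h1, h2⟩ := hfs k X F hk hF
      exact ⟨H, h1, h2.trans hX⟩
  obtain ⟨n, rfl⟩ : ∃ n, k = n + 1 := ⟨k - 1, by omega⟩
  obtain ⟨F, hF, h⟩ := hts n fun _ => false
  have := hm (n + 1) I hI hsol ⟨F, hF, fun A hA => h A ((red_iterate A _).trans (hL hA))⟩
  exact ⟨I, hI, fun m h1 h2 => (this m).1 h2 h1, fun m h => (this m).2 h⟩

end Pool.Agent.P.MP_9014a2_lc
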