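import Pool.Agent.P.MP_9014a2_lc.Runs

/-!
Invariants of the step construction.
-/

namespace Pool.Agent.P.MP_9014a2_lc

theorem all_good : S_good := by
  intro k C j σ _ d
  refine ⟨⟨fun a ha => absurd ha (Finset.notMem_empty a), fun r hr => ?_,
    fun a ha => absurd ha (Finset.notMem_empty a)⟩, ?_, fun s hs => ?_⟩
  · obtain rfl : r = [d.S.s0] := List.mem_singleton.1 hr
    exact ⟨rfl, List.isChain_singleton _, by simp [d.S.atm0], by simp [d.S.pr0]⟩
  · rintro s s' ⟨g1, g2, -⟩ ⟨hS, -, hF, hA, hN, -, hm, -, hc⟩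
    have old : ∀ r ∈ s.App, r.head? = some d.S.s0 ∧ r.IsChain d.S.Ext ∧
        d.S.atm (d.cur r) ⊆ s'.A ∧ d.S.pr (d.cur r) ⊆ s'.S := fun r hr =>
      let ⟨a, b, c, e⟩ := g2 r hr
      ⟨a, b, c.trans hA, e.trans hS⟩
    refine ⟨fun a ha => ?_, ?_, hF⟩
    · by_cases h : a ∈ s.A
      · exact ⟨(g1 a h).1, (g1 a h).2.1, hm a ha⟩
      · have := hN a (Finset.mem_sdiff.2 ⟨ha, h⟩)
        exact ⟨this.2.1, this.2.2, hm a ha⟩
    · rcases hc with ⟨-, -, h⟩ | ⟨x, r', -, hx, -, hp, hc, hA', h, hP, -⟩ | ⟨r, i, -, -, -, h, -⟩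
      · rw [h]; exact old
      · rw [h]
        intro r hr
        rcases List.mem_cons.1 hr with rfl | hr
        · exact ⟨d.head_of_isPrefix (g2 _ hx).1 hp, hc, by rw [hA']; exact Finset.subset_union_right,
            hP⟩
        · exact old r hr
      · rw [h]; exact old
  · choose V _ hV using d.S.b2
    have h1 : (⋃ r ∈ {r | r ∈ s.App}, {v | d.S.Fb (d.cur r) v} ∪
        ((d.S.atm (d.cur r)).powerset.biUnion V : Finset ℕ)).Finite :=
      (List.finite_toSet _).biUnion fun r hr =>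
        (d.S.fin _ (d.good_cur (hs.2.1 r hr).1 (hs.2.1 r hr).2.1)).union (Finset.finite_toSet _)
    have h2 : (⋃ p ∈ (s.A ×ˢ s.A.powerset : Finset _), {v | val (G C p.1) p.2 v}).Finite :=
      (Finset.finite_toSet _).biUnion fun p _ =>
        Set.Subsingleton.finite fun _ hv _ hw => val_unique hv hw
    refine (((Set.finite_le_nat s.m).union h1).union h2).subset ?_
    rintro v (⟨h, -⟩ | ⟨r, hr, h | ⟨T, hT, -, h, -⟩⟩ | ⟨h, hh, -, τ, hτ, -, -, hv, -⟩)
    · exact Or.inl (Or.inl h)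
    · exact Or.inl (Or.inr (Set.mem_biUnion hr (Or.inl h)))
    · exact Or.inl (Or.inr (Set.mem_biUnion hr (Or.inr
        (Finset.mem_biUnion.2 ⟨T, Finset.mem_powerset.2 hT, hV T v h⟩))))
    · exact Or.inr (Set.mem_iUnion₂.2
        ⟨(h, τ), Finset.mem_product.2 ⟨hh, Finset.mem_powerset.2 hτ⟩, hv⟩)

end Pool.Agent.P.MP_9014a2_lc
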