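import Pool.Agent.P.MP_9014a2_lc.Runs

/-!
Closing off to a Turing ideal.
-/

namespace Pool.Agent.P.MP_9014a2_lc

open Encodable

namespace IdealA

/-- the functions computable in an oracle can be enumerated -/
theorem exists_en (X : ℕ → Bool) : ∃ en : ℕ → List ℕ → ℕ, (∀ c, CI X (en c)) ∧
    ∀ F, CI X F → ∃ c, en c = F := by
  have h : ∀ c : ℕ, ∃ F : List ℕ → ℕ, CI X F ∧ ∀ F' : List ℕ → ℕ, CI X F' →
      (∀ a : List ℕ × ℕ, F' a.1 = a.2 ↔ jump X (Nat.pair c (encode a)) = true) → F = F' := by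
    intro c
    by_cases h : ∃ F : List ℕ → ℕ, CI X F ∧
      ∀ a : List ℕ × ℕ, F a.1 = a.2 ↔ jump X (Nat.pair c (encode a)) = true
    · obtain ⟨F, h1, h2⟩ := h
      exact ⟨F, h1, fun F' _ h3 => funext fun a => (h2 (a, F' a)).2 ((h3 (a, F' a)).1 rfl)⟩
    · exact ⟨fun _ => 0, by fun_prop, fun F' h1 h2 => (h ⟨F', h1, h2⟩).elim⟩
  choose en h1 h2 using h
  refine ⟨en, h1, fun F hF => ?_⟩
  obtain ⟨c, hc⟩ := Sig.exists_code (X := X) (p := fun a : List ℕ × ℕ => F a.1 = a.2)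
    (Sig.of_di (by fun_prop))
  exact ⟨c, h2 c F hF hc⟩

/-- the increasing sequence of oracles -/
def tw (X : ℕ → Bool) (H : (ℕ → Bool) → (ℕ → Bool) → ℕ → ℕ → Bool) : ℕ → ℕ → Bool
  | 0 => X
  | n + 1 => join (H (tw X H n) (tw X H n.unpair.1) n.unpair.2) (tw X H n)
  decreasing_by all_goals exact Nat.lt_succ_of_le (by first | exact n.unpair_left_le | rfl)

theorem tw_mono (X : ℕ → Bool) (H : (ℕ → Bool) → (ℕ → Bool) → ℕ → ℕ → Bool) {m n : ℕ}
    (h : m ≤ n) : Red (tw X H m) (tw X H n) := by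
  induction h with
  | refl => exact Red.refl _
  | step _ ih => rw [tw]; exact ih.trans (red_right _ _)

end IdealA

open IdealA

theorem all_ideal : S_ideal := by
  rintro L Sol ⟨X, hX⟩ hL hS
  choose en h1 h2 using exists_en
  have h : ∀ (A B : ℕ → Bool) (c : ℕ), ∃ H, A ∈ L → Red B A → Sol (en B c) H ∧ join H A ∈ L := by
    intro A B c
    by_cases h : A ∈ L ∧ Red B A
    · obtain ⟨H, hH⟩ := hS A h.1 _ ((h1 B c).mono h.2)
      exact ⟨H, fun _ _ => hH⟩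
    · exact ⟨A, fun a b => (h ⟨a, b⟩).elim⟩
  choose H hH using h
  have m : ∀ n, tw X H n ∈ L := fun n => by
    induction n with
    | zero => rwa [tw.eq_1]
    | succ n ih => rw [tw]; exact (hH _ _ _ ih (tw_mono X H n.unpair_left_le)).2
  refine ⟨{Y | ∃ n, Red Y (tw X H n)}, ⟨⟨_, 0, Red.refl _⟩, ?_, ?_⟩, ?_, ?_⟩
  · rintro A ⟨a, ha⟩ B ⟨b, hb⟩
    exact ⟨max a b, (ha.trans (tw_mono X H (le_max_left _ _))).join
      (hb.trans (tw_mono X H (le_max_right _ _)))⟩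
  · rintro A ⟨a, ha⟩ B hB
    exact ⟨a, (red_iff.2 hB).trans ha⟩
  · rintro A ⟨a, ha⟩
    exact hL _ (m a) _ ha
  · rintro A ⟨a, ha⟩ F hF
    obtain ⟨c, rfl⟩ := h2 _ F (hF.mono ha)
    refine ⟨H (tw X H (Nat.pair a c)) (tw X H a) c, ⟨Nat.pair a c + 1, ?_⟩,
      (hH _ _ _ (m _) (tw_mono X H (Nat.left_le_pair a c))).1⟩
    rw [tw, Nat.unpair_pair]
    exact red_left _ _

end Pool.Agent.P.MP_9014a2_lc
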