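import Pool.Agent.P.MP_9014a2_lc.Tow

/-!
Systems, the step construction, and the statements `S_*` of the pieces of the proof.
-/

namespace Pool.Agent.P.MP_9014a2_lc

open Encodable

/-- no value of the type relation `β` on a subset of `U` lies in `S`, unless exempt -/
def Alive (C : ℕ → ℕ → Bool) (β : Finset ℕ → ℕ → Prop) (U S : Finset ℕ) : Prop :=
  ∀ T ⊆ U, ∀ v ∈ S, β T v → OmS C T v

/-- no value of an atom of `γ` on a subset of `B` lies in `P`, unless exempt -/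
def Valid (k : ℕ) (C : ℕ → ℕ → Bool) (γ B P : Finset ℕ) : Prop :=
  ∀ c ∈ γ, ∀ τ ⊆ B, zs k τ = wt c → ∀ v ∈ P, val (G C c) τ v → OmS C τ v

/-- a system of level `j` -/
structure Sys (k : ℕ) (C : ℕ → ℕ → Bool) (j : ℕ) (σ : Type) [Primcodable σ] where
  s0 : σ
  atm : σ → Finset ℕ
  pr : σ → Finset ℕ
  good : σ → Prop
  Ext : σ → σ → Prop
  Fb : σ → ℕ → Prop
  β : Finset ℕ → ℕ → Prop
  D : ℕ
  atm_comp : Computable atm
  pr_comp : Computable pr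
  ext_sig : ∃ X ∈ M (C j), Sig X fun p : σ × σ => Ext p.1 p.2
  fb_dec : DM (C j) fun p : σ × ℕ => Fb p.1 p.2
  atm0 : atm s0 = ∅
  pr0 : pr s0 = ∅
  good0 : good s0
  good_ext : ∀ s s', good s → Ext s s' → good s'
  mono : ∀ s s', Ext s s' → atm s ⊆ atm s' ∧ pr s ⊆ pr s'
  real : ∀ s, good s → ∀ a ∈ atm s, lev a ≤ j ∧ 1 ≤ z k a
  avoid : ∀ s, good s → ∀ v ∈ pr s, ¬ Fb s v
  fin : ∀ s, good s → {v | Fb s v}.Finite
  b1 : ∀ T v, β T v → T.card ≤ D ∧ zs k T + j ≤ k ∧ ∀ a ∈ T, j < lev a → lev a + zs k T ≤ k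
  b2 : ∀ T, ∃ V : Finset ℕ, V.card ≤ D ∧ ∀ v, β T v → v ∈ V
  b3 : ∀ l, j ≤ l → DM (C l) fun p : Finset ℕ × ℕ => β p.1 p.2 ∧ k ≤ zs k p.1 + l
  ns : ∀ s, good s → ∀ S : Finset ℕ, pr s ⊆ S → (∀ v ∈ S, ¬ Fb s v) → ∀ γ : Finset ℕ,
    (∀ c ∈ γ, Virt k j c) → Alive C β (atm s ∪ γ) S → ∀ n, ∃ s', Ext s s' ∧
      (∀ a ∈ atm s' \ atm s, n < a) ∧ S ⊆ pr s' ∧ (∀ v ∈ pr s' \ S, n < v) ∧
      Valid k C γ (atm s' \ atm s) (pr s')

/-- solutions of a system: infinite runs all of whose stems are alive -/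
def Sys.Sol {k j : ℕ} {C : ℕ → ℕ → Bool} {σ : Type} [Primcodable σ] (S : Sys k C j σ)
    (R : ℕ → σ) : Prop :=
  R 0 = S.s0 ∧ (∀ t, S.Ext (R t) (R (t + 1))) ∧ ∀ t, Alive C S.β (S.atm (R t)) (S.pr (R t))

/-- the graph of a run as an oracle -/
def gr {σ : Type} [Primcodable σ] (R : ℕ → σ) : ℕ → Bool :=
  fun n => decide (encode (R n.unpair.1) = n.unpair.2)

/-- the graph of a finite run -/
def grL {σ : Type} [Primcodable σ] (r : List σ) : ℕ → Bool :=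
  fun n => decide ((r[n.unpair.1]?).map encode = some n.unpair.2)

/-- the `i`-th question about the join of the run with `Y` is answered by the finite run `r` -/
def Halt {σ : Type} [Primcodable σ] (Y : ℕ → Bool) (i : ℕ) (r : List σ) : Prop :=
  W i.unpair.1 i.unpair.2 (seg (join (grL r) Y) r.length) = true

/-! ### The data of a step -/

/-- `P0` is a finite set of single-valued pieces of the part of `β` of full size -/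
def IsPieces (k : ℕ) (C : ℕ → ℕ → Bool) (j : ℕ) (β : Finset ℕ → ℕ → Prop) (P0 : Finset ℕ) : Prop :=
  (∀ a ∈ P0, lev a = j + 1 ∧ wt a + j = k) ∧
    ∀ T v, zs k T + j = k → β T v → ∃ a ∈ P0, val (G C a) T v

/-- `B h τ0` is an atom for the section of `h` by `τ0` -/
def IsSec (k : ℕ) (C : ℕ → ℕ → Bool) (j : ℕ) (B : ℕ → Finset ℕ → ℕ) : Prop :=
  CI (jump (C j)) (fun p : ℕ × Finset ℕ => B p.1 p.2) ∧ ∀ h τ0, lev h = j + 1 →
    lev (B h τ0) = j + 1 ∧ wt (B h τ0) = wt h - zs k τ0 ∧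
      ∀ τ1 v, val (G C (B h τ0)) τ1 v ↔ val (G C h) (τ0 ∪ τ1) v ∧ ¬ OmL C j τ0 v

/-- `δ (c, γ0, v)`: `v` is the value of `c` at generic fakes of the atoms of `γ0` -/
def IsDelta (k : ℕ) (C : ℕ → ℕ → Bool) (j : ℕ) (δ : ℕ × Finset ℕ × ℕ → Prop) : Prop :=
  (∀ c γ0 v w, δ (c, γ0, v) → δ (c, γ0, w) → v = w) ∧
  (∀ l, j + 2 ≤ l → DM (C l) fun E : ℕ × Finset ℕ × ℕ =>
    δ E ∧ lev E.1 ≤ l ∧ ∀ d ∈ E.2.1, lev d ≤ l) ∧
  ∀ γ : Finset ℕ, (∀ c ∈ γ, Virt k (j + 1) c) → ∀ (S : Finset ℕ) (n : ℕ), ∀ X ∈ M (C j),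
    ∀ P, Op X P → ¬ P (jn γ (G C)) → ∃ φ : ℕ → ℕ,
      (∀ c ∈ γ, lev (φ c) = j + 1 ∧ wt (φ c) = wt c ∧ n < φ c) ∧
      ¬ P (jn γ fun c => G C (φ c)) ∧
      ∀ c ∈ γ, ∀ γ0 ⊆ γ, ∀ v ∈ S, ¬ δ (c, γ0, v) → ¬ val (G C c) (γ0.image φ) v

/-- `δ (c, v)`: `v` is the value of `c` at a generic point -/
def IsDelta0 (C : ℕ → ℕ → Bool) (δ : ℕ × ℕ → Prop) : Prop :=
  (∀ c v w, δ (c, v) → δ (c, w) → v = w) ∧
  (∀ l, 1 ≤ l → DM (C l) fun E : ℕ × ℕ => δ E ∧ lev E.1 ≤ l) ∧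
  ∀ (γ S : Finset ℕ) (n : ℕ), ∃ x, n < x ∧
    ∀ c ∈ γ, ∀ v ∈ S, ¬ δ (c, v) → ¬ val (G C c) {pt x} v

/-- everything the step from level `j` to level `j + 1` uses -/
structure Dat (k : ℕ) (C : ℕ → ℕ → Bool) (j : ℕ) (σ : Type) [Primcodable σ] where
  S : Sys k C j σ
  Y : ℕ → Bool
  P0 : Finset ℕ
  B : ℕ → Finset ℕ → ℕ
  δ : ℕ × Finset ℕ × ℕ → Prop
  tower : Tower C
  le : j + 2 ≤ k
  hY : Y ∈ M (C j)
  hP0 : IsPieces k C j S.β P0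
  hB : IsSec k C j B
  hδ : IsDelta k C j δ

/-- stems of the next level: atoms, protected values, recorded runs, bound, outcome, time -/
abbrev St (σ : Type) := Finset ℕ × Finset ℕ × List (List σ) × ℕ × Option (List σ) × ℕ

namespace St
variable {σ : Type}
/-- atoms -/
abbrev A (s : St σ) : Finset ℕ := s.1
/-- protected values -/
abbrev S (s : St σ) : Finset ℕ := s.2.1
/-- recorded runs -/
abbrev App (s : St σ) : List (List σ) := s.2.2.1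
/-- bound -/
abbrev m (s : St σ) : ℕ := s.2.2.2.1
/-- outcome of the last step -/
abbrev out (s : St σ) : Option (List σ) := s.2.2.2.2.1
/-- time -/
abbrev t (s : St σ) : ℕ := s.2.2.2.2.2
end St

/-- the requirement served at time `t`: a recorded run and `none` (extend it) or a question -/
def sched (σ : Type) [Primcodable σ] (t : ℕ) : Option (List σ × Option ℕ) := decode t.unpair.1

namespace Dat

variable {k j : ℕ} {C : ℕ → ℕ → Bool} {σ : Type} [Primcodable σ] (d : Dat k C j σ)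

/-- last stem of a finite run -/
def cur (r : List σ) : σ := r.getLastD d.S.s0

/-- values forbidden by the recorded runs and by the promises in `H` with arguments in `A` -/
def Fb0 (H A : Finset ℕ) (App : List (List σ)) (v : ℕ) : Prop :=
  (∃ r ∈ App, d.S.Fb (d.cur r) v ∨
    ∃ T ⊆ d.S.atm (d.cur r), zs k T + j = k ∧ d.S.β T v ∧ ¬ OmL C j T v) ∨
  ∃ h ∈ H, lev h = j + 1 ∧ ∃ τ ⊆ A, (∀ a ∈ τ, lev a ≤ j ∧ h < a) ∧ zs k τ = wt h ∧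
    val (G C h) τ v ∧ ¬ OmL C j τ v

/-- forbidden values of a stem of the next level -/
def Fb (s : St σ) (v : ℕ) : Prop := (v ≤ s.m ∧ v ∉ s.S) ∨ d.Fb0 s.A s.A s.App v

/-- `r'` is an admissible continuation of the run `r` -/
def Cond (A S : Finset ℕ) (App : List (List σ)) (m : ℕ) (r r' : List σ) : Prop :=
  r <+: r' ∧ r'.IsChain d.S.Ext ∧
    (∀ a ∈ d.S.atm (d.cur r') \ d.S.atm (d.cur r), m < a) ∧
    (∀ v ∈ d.S.pr (d.cur r') \ S, m < v) ∧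
    ∀ v ∈ S ∪ d.S.pr (d.cur r'), ¬ d.Fb0 A (A ∪ d.S.atm (d.cur r')) (r' :: App) v

/-- nothing to do -/
def Idle (s s' : St σ) : Prop :=
  (∀ x, sched σ s.t = some x → x.1 ∉ s.App) ∧ s'.A = s.A ∧ s'.App = s.App

/-- the scheduled run is continued -/
def Grow (s s' : St σ) : Prop :=
  ∃ x r', sched σ s.t = some x ∧ x.1 ∈ s.App ∧ s'.out = some r' ∧ x.1 <+: r' ∧
    r'.IsChain d.S.Ext ∧ s'.A = s.A ∪ d.S.atm (d.cur r') ∧ s'.App = r' :: s.App ∧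
    d.S.pr (d.cur r') ⊆ s'.S ∧ (∀ a ∈ d.S.atm (d.cur r') \ d.S.atm (d.cur x.1), s.m < a) ∧
    (x.2 = none → x.1.length < r'.length) ∧ ∀ i, x.2 = some i → Halt d.Y i r'

/-- the scheduled question is answered negatively for ever -/
def Kill (s s' : St σ) : Prop :=
  ∃ r i, sched σ s.t = some (r, some i) ∧ r ∈ s.App ∧ s'.out = none ∧ s'.App = s.App ∧
    ∀ r', ¬ (d.Cond s'.A s'.S s.App s'.m r r' ∧ Halt d.Y i r')

/-- extension relation of the next level -/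
def Ext (s s' : St σ) : Prop :=
  s.S ⊆ s'.S ∧ (∀ v ∈ s'.S, ¬ d.Fb s v) ∧ (∀ v ∈ s'.S, ¬ d.Fb s' v) ∧ s.A ⊆ s'.A ∧
    (∀ a ∈ s'.A \ s.A, s.m < a ∧ lev a ≤ j + 1 ∧ 1 ≤ z k a) ∧ s.m ≤ s'.m ∧
    (∀ a ∈ s'.A, a ≤ s'.m) ∧ s'.t = s.t + 1 ∧ (Idle s s' ∨ d.Grow s s' ∨ d.Kill s s')

/-- good stems of the next level -/
def good (s : St σ) : Prop :=
  (∀ a ∈ s.A, lev a ≤ j + 1 ∧ 1 ≤ z k a ∧ a ≤ s.m) ∧
    (∀ r ∈ s.App, r.head? = some d.S.s0 ∧ r.IsChain d.S.Ext ∧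
      d.S.atm (d.cur r) ⊆ s.A ∧ d.S.pr (d.cur r) ⊆ s.S) ∧ ∀ v ∈ s.S, ¬ d.Fb s v

/-- initial stem of the next level -/
def s0 : St σ := (∅, ∅, [[d.S.s0]], 0, none, 0)

/-- `T` together with all sections generated by `T` -/
def U (T : Finset ℕ) : Finset ℕ := T ∪ (T ∪ d.P0).biUnion fun h => T.powerset.image (d.B h)

/-- types inherited from level `j` -/
def β1 (T' : Finset ℕ) (v : ℕ) : Prop :=
  T'.card ≤ d.S.D * (k + 1) ∧ (∀ a ∈ T', j + 1 < lev a → lev a + zs k T' ≤ k) ∧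
    ∃ T ⊆ d.U T', zs k T' ≤ zs k T ∧ zs k T + j + 1 ≤ k ∧ d.S.β T v

/-- values at generic fakes -/
def β2 (T' : Finset ℕ) (v : ℕ) : Prop :=
  (∀ a ∈ T', Virt k (j + 1) a) ∧ ∃ c ∈ T', ∃ γ0, (γ0 = T' ∨ γ0 = T'.erase c) ∧
    ∑ a ∈ γ0, (k - j - wt a) = wt c ∧ d.δ (c, γ0, v)

/-- type relation of the next level -/
def β (T' : Finset ℕ) (v : ℕ) : Prop := d.β1 T' v ∨ d.β2 T' v

/-- the question asked about the candidate graphs `Z` of the atoms of `γ` -/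
def Q (s : St σ) (S γ : Finset ℕ) (n i : ℕ) (r : List σ) (Z : ℕ → Bool) : Prop :=
  (∃ r', d.Cond s.A S s.App n r r' ∧ Halt d.Y i r' ∧
    ∀ c ∈ γ, ∀ τ ⊆ d.S.atm (d.cur r') \ d.S.atm (d.cur r), zs k τ = wt c →
      ∀ v ∈ S ∪ d.S.pr (d.cur r'), val (col Z c) τ v → OmL C j τ v) ∨
  ∃ c ∈ γ, ∃ v ∈ S, Om C c v ∧ ∃ τ, val (col Z c) τ v

/-- the conclusion of `ns` at the next level -/
def Next (s : St σ) (S γ : Finset ℕ) (n : ℕ) : Prop :=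
  ∃ s', d.Ext s s' ∧ (∀ a ∈ s'.A \ s.A, n < a) ∧ S ⊆ s'.S ∧ (∀ v ∈ s'.S \ S, n < v) ∧
    Valid k C γ (s'.A \ s.A) s'.S

end Dat

/-! ### Statements: computability -/

/-- low basis theorem -/
def S_low : Prop := ∀ (X : ℕ → Bool) P, Op X P → (∃ Z, ¬ P Z) →
  ∃ Z, ¬ P Z ∧ Red (jump (join X Z)) (jump X)

/-- the codes of Scott sets containing `X` include a nonempty closed class -/
def S_scott : Prop := ∀ X : ℕ → Bool, ∃ P, Op X P ∧ (∃ Z, ¬ P Z) ∧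
  ∀ C, ¬ P C → X ∈ M C ∧ Scott C

/-- ultrafilters decided level by level -/
def S_ult : Prop := ∀ (C : ℕ → ℕ → Bool), Tower C → ∀ (ι : Type) [Primcodable ι] (s : ℕ)
  (lv : ι → ℕ) (Pos : List (ι × Bool) → Prop), Computable lv → Pos [] →
  (∀ L L', L ⊆ L' → Pos L' → Pos L) →
  (∀ L E, Pos L → Pos ((E, true) :: L) ∨ Pos ((E, false) :: L)) →
  (∀ q, ∃ X ∈ M (C (s + q)), Sig X fun L : List (ι × Bool) => (∀ x ∈ L, lv x.1 ≤ q) ∧ ¬ Pos L) →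
  ∃ δ : ι → Bool, (∀ L, (∀ x ∈ L, δ x.1 = x.2) → Pos L) ∧
    ∀ q, DM (C (s + q)) fun E => δ E = true ∧ lv E ≤ q

def S_delta0 : Prop := ∀ (C : ℕ → ℕ → Bool), Tower C → ∃ δ, IsDelta0 C δ

/-- the literals `L` hold for the assignment `φ` -/
def Holds (C : ℕ → ℕ → Bool) (L : List ((ℕ × Finset ℕ × ℕ) × Bool)) (φ : ℕ → ℕ) : Prop :=
  ∀ x ∈ L, (val (G C x.1.1) (x.1.2.1.image φ) x.1.2.2 ↔ x.2 = true)

/-- positivity with respect to the virtual atoms of level at most `l` -/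
def PosL (k : ℕ) (C : ℕ → ℕ → Bool) (j l : ℕ) (L : List ((ℕ × Finset ℕ × ℕ) × Bool)) : Prop :=
  ∀ γ : Finset ℕ, (∀ c ∈ γ, Virt k (j + 1) c ∧ lev c ≤ l) → ∀ n : ℕ, ∀ X ∈ M (C j),
    ∀ P, Op X P → ¬ P (jn γ (G C)) → ∃ φ : ℕ → ℕ,
      (∀ c ∈ γ, lev (φ c) = j + 1 ∧ wt (φ c) = wt c ∧ n < φ c) ∧
      ¬ P (jn γ fun c => G C (φ c)) ∧ Holds C L φ

/-- all atoms named in `L` have level at most `l` -/
def LevL (l : ℕ) (L : List ((ℕ × Finset ℕ × ℕ) × Bool)) : Prop :=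
  ∀ x ∈ L, lev x.1.1 ≤ l ∧ ∀ d ∈ x.1.2.1, lev d ≤ l

/-- positivity does not depend on the level; the case `l = 0`, `L = []` gives nonemptiness -/
def S_posUp : Prop := ∀ (k : ℕ) (C : ℕ → ℕ → Bool) (j l l' : ℕ) L, Tower C → LevL l L →
  PosL k C j l L → PosL k C j l' L

def S_posSplit : Prop := ∀ (k : ℕ) (C : ℕ → ℕ → Bool) (j l : ℕ) L E, Tower C →
  PosL k C j l L → PosL k C j l ((E, true) :: L) ∨ PosL k C j l ((E, false) :: L)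

def S_posSig : Prop := ∀ (k : ℕ) (C : ℕ → ℕ → Bool) (j q : ℕ), Tower C → j < q →
  Sig (jump (C q)) fun L => LevL (q + 1) L ∧ ¬ PosL k C j (q + 1) L

def S_delta : Prop := ∀ (k : ℕ) (C : ℕ → ℕ → Bool) (j : ℕ), Tower C → ∃ δ, IsDelta k C j δ

def S_sec : Prop := ∀ (k : ℕ) (C : ℕ → ℕ → Bool) (j : ℕ), Tower C → ∃ B, IsSec k C j B

def S_pieces : Prop := ∀ (k : ℕ) (C : ℕ → ℕ → Bool) (j : ℕ) (σ : Type) [Primcodable σ]
  (S : Sys k C j σ), Tower C → j ≤ k → ∃ P0, IsPieces k C j S.β P0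

/-! ### Statements: the step -/

/-- `Fb0` is decidable, uniformly and for a fixed set of promises -/
def S_fb0 : Prop := ∀ (k : ℕ) (C : ℕ → ℕ → Bool) (j : ℕ) (σ : Type) [Primcodable σ]
  (d : Dat k C j σ),
  (DI (C j) fun p : Finset ℕ × Finset ℕ × List (List σ) × ℕ =>
    d.Fb0 p.1 p.2.1 p.2.2.1 p.2.2.2) ∧
  ∀ H, DM (C j) fun p : Finset ℕ × List (List σ) × ℕ => d.Fb0 H p.1 p.2.1 p.2.2

def S_extSig : Prop := ∀ (k : ℕ) (C : ℕ → ℕ → Bool) (j : ℕ) (σ : Type) [Primcodable σ]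
  (d : Dat k C j σ), Sig (jump (C j)) fun p : St σ × St σ => d.Ext p.1 p.2

def S_qop : Prop := ∀ (k : ℕ) (C : ℕ → ℕ → Bool) (j : ℕ) (σ : Type) [Primcodable σ]
  (d : Dat k C j σ) (s : St σ) (S γ : Finset ℕ) (n i : ℕ) (r : List σ),
  ∃ X ∈ M (C j), Op X (d.Q s S γ n i r)

def S_good : Prop := ∀ (k : ℕ) (C : ℕ → ℕ → Bool) (j : ℕ) (σ : Type) [Primcodable σ]
  (d : Dat k C j σ), d.good d.s0 ∧ (∀ s s', d.good s → d.Ext s s' → d.good s') ∧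
    ∀ s, d.good s → {v | d.Fb s v}.Finite

def S_b12 : Prop := ∀ (k : ℕ) (C : ℕ → ℕ → Bool) (j : ℕ) (σ : Type) [Primcodable σ]
  (d : Dat k C j σ), ∃ D : ℕ,
  (∀ T v, d.β T v → T.card ≤ D ∧ zs k T + (j + 1) ≤ k ∧
    ∀ a ∈ T, j + 1 < lev a → lev a + zs k T ≤ k) ∧
  ∀ T, ∃ V : Finset ℕ, V.card ≤ D ∧ ∀ v, d.β T v → v ∈ V

def S_b3 : Prop := ∀ (k : ℕ) (C : ℕ → ℕ → Bool) (j : ℕ) (σ : Type) [Primcodable σ]
  (d : Dat k C j σ) (l : ℕ), j + 1 ≤ l →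
  DM (C l) fun p : Finset ℕ × ℕ => d.β p.1 p.2 ∧ k ≤ zs k p.1 + l

/-- transfer of aliveness to level `j`: the virtual atoms are those of `γ` and the sections -/
def S_alive : Prop := ∀ (k : ℕ) (C : ℕ → ℕ → Bool) (j : ℕ) (σ : Type) [Primcodable σ]
  (d : Dat k C j σ) (s : St σ) (S γ : Finset ℕ) (r : List σ), d.good s → r ∈ s.App →
  (∀ v ∈ S, ¬ d.Fb s v) → (∀ c ∈ γ, Virt k (j + 1) c) → Alive C d.β (s.A ∪ γ) S →
  ∃ γ' : Finset ℕ, γ ⊆ γ' ∧ (∀ c ∈ γ', Virt k j c) ∧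
    (∀ h ∈ s.A ∪ d.P0, lev h = j + 1 → ∀ τ0 ⊆ s.A, (∀ a ∈ τ0, lev a ≤ j) → zs k τ0 < wt h →
      d.B h τ0 ∈ γ') ∧ Alive C d.S.β (d.S.atm (d.cur r) ∪ γ') S

def S_nsServe : Prop := ∀ (k : ℕ) (C : ℕ → ℕ → Bool) (j : ℕ) (σ : Type) [Primcodable σ]
  (d : Dat k C j σ) (s : St σ) (S γ : Finset ℕ) (n : ℕ) (r : List σ), d.good s → s.S ⊆ S →
  (∀ v ∈ S, ¬ d.Fb s v) → (∀ c ∈ γ, Virt k (j + 1) c) → Alive C d.β (s.A ∪ γ) S →
  sched σ s.t = some (r, none) → r ∈ s.App → d.Next s S γ n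

def S_nsDec : Prop := ∀ (k : ℕ) (C : ℕ → ℕ → Bool) (j : ℕ) (σ : Type) [Primcodable σ]
  (d : Dat k C j σ) (s : St σ) (S γ : Finset ℕ) (n i : ℕ) (r : List σ), d.good s → s.S ⊆ S →
  (∀ v ∈ S, ¬ d.Fb s v) → (∀ c ∈ γ, Virt k (j + 1) c) → Alive C d.β (s.A ∪ γ) S →
  sched σ s.t = some (r, some i) → r ∈ s.App → d.Next s S γ n

/-- a solution of the next level computes a run and decides all questions -/
def S_extract : Prop := ∀ (k : ℕ) (C : ℕ → ℕ → Bool) (j : ℕ) (σ : Type) [Primcodable σ]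
  (d : Dat k C j σ) (R' : ℕ → St σ), R' 0 = d.s0 → (∀ t, d.Ext (R' t) (R' (t + 1))) →
  ∃ (R : ℕ → σ) (e : ℕ → Bool), CI (gr R') e ∧
    (∀ n, ∃ m t, n ≤ m ∧ (List.range m).map R ∈ (R' t).App) ∧
    ∀ i, e i = true ↔ ∃ m, Halt d.Y i ((List.range m).map R)

/-- the extracted run is a solution -/
def S_extractSol : Prop := ∀ (k : ℕ) (C : ℕ → ℕ → Bool) (j : ℕ) (σ : Type) [Primcodable σ]
  (d : Dat k C j σ) (R' : ℕ → St σ) (R : ℕ → σ), (∀ t, d.good (R' t)) →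
  (∀ t, Alive C d.β (R' t).A (R' t).S) →
  (∀ n, ∃ m t, n ≤ m ∧ (List.range m).map R ∈ (R' t).App) → d.S.Sol R

def S_step : Prop := ∀ (k : ℕ) (C : ℕ → ℕ → Bool) (j : ℕ) (σ : Type) [Primcodable σ]
  (S : Sys k C j σ), Tower C → j + 2 ≤ k → ∀ Y ∈ M (C j), ∃ S' : Sys k C (j + 1) (St σ),
    ∀ R', S'.Sol R' → ∃ R, S.Sol R ∧ Red (jump (join (gr R) Y)) (gr R')

def S_top : Prop := ∀ (k : ℕ) (C : ℕ → ℕ → Bool) (j : ℕ) (σ : Type) [Primcodable σ]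
  (S : Sys k C j σ), Tower C → j + 1 = k → ∃ R, S.Sol R ∧ ∃ X ∈ M (C j), CI X R

/-- `H` is infinite and free for `F` on lists of length at most `k` -/
def Free (k : ℕ) (F : List ℕ → ℕ) (H : ℕ → Bool) : Prop :=
  {n | H n = true}.Infinite ∧
    ∀ l : List ℕ, l.length ≤ k → (∀ x ∈ l, H x = true) → H (F l) = true → F l ∈ l

def S_base : Prop := ∀ (k : ℕ) (C : ℕ → ℕ → Bool) (F : List ℕ → ℕ), Tower C →
  (∃ X ∈ M (C 0), CI X F) → ∃ S : Sys k C 0 (Finset ℕ × Finset ℕ),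
    ∀ R, S.Sol R → ∃ H, Red H (gr R) ∧ Free k F H

/-- the low basis theorem for free sets -/
def S_fs : Prop := ∀ (k : ℕ) (X : ℕ → Bool) (F : List ℕ → ℕ), 1 ≤ k → CI X F →
  ∃ H, Free k F H ∧ Red (jump^[k] (join H X)) (jump^[k] X)

/-! ### Statements: the lower bound and the model -/

/-- limit lemma -/
def S_limit : Prop := ∀ (Z : ℕ → Bool) (g : ℕ → ℕ), CI (jump Z) g →
  ∃ f : ℕ × ℕ → ℕ, CI Z f ∧ ∀ n, ∀ᶠ s in Filter.atTop, f (n, s) = g n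

/-- a uniform approximation of all sets below the jump -/
def S_approx : Prop := ∀ Z : ℕ → Bool, ∃ a : ℕ × ℕ × ℕ → Bool, CI Z a ∧
  ∀ A, Red A (jump Z) → ∃ e, ∀ x, ∀ᶠ s in Filter.atTop, a (e, x, s) = A x

/-- a colouring of pairs with no thin set below the jump -/
def S_jock : Prop := ∀ Z : ℕ → Bool, ∃ F : ℕ × ℕ → ℕ, CI Z F ∧
  ∀ A, Red A (jump Z) → {n | A n = true}.Infinite → ∀ c, ∃ x y, A x = true ∧ A y = true ∧
    F (x, y) = c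

def S_tsLow : Prop := ∀ (k : ℕ) (Z : ℕ → Bool), ∃ F : List ℕ → ℕ, CI Z F ∧
  ∀ A, Red A (jump^[k + 1] Z) → {n | A n = true}.Infinite → ∀ c, ∃ l : List ℕ,
    l.length = k + 2 ∧ (∀ x ∈ l, A x = true) ∧ F l = c

/-- closing off -/
def S_ideal : Prop := ∀ (L : Set (ℕ → Bool)) (Sol : (List ℕ → ℕ) → (ℕ → Bool) → Prop),
  L.Nonempty → (∀ X ∈ L, ∀ Y, Red Y X → Y ∈ L) →
  (∀ X ∈ L, ∀ F, CI X F → ∃ H, Sol F H ∧ join H X ∈ L) →
  ∃ I, TuringIdeal I ∧ I ⊆ L ∧ ∀ X ∈ I, ∀ F, CI X F → ∃ H ∈ I, Sol F H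

/-- translation to the statements of `Defs` -/
def S_model : Prop := ∀ (k : ℕ) (I : Set (ℕ → Bool)), TuringIdeal I →
  (∀ X ∈ I, ∀ F, CI X F → ∃ H ∈ I, Free k F H) →
  (∃ F : List ℕ → ℕ, CI (fun _ => false) F ∧ ∀ A ∈ I, {n | A n = true}.Infinite → ∀ c, ∃ l : List ℕ,
    l.length = k + 1 ∧ (∀ x ∈ l, A x = true) ∧ F l = c) →
  ∀ m, (m ≤ k → 1 ≤ m → T1 I m ∧ T2 I m) ∧ (k < m → ¬ T1 I m ∧ ¬ T2 I m)

end Pool.Agent.P.MP_9014a2_lc
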