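import Pool.Agent.P.MP_9014a2_lc.Runs

/-! A colouring of pairs without a thin set below the jump. -/

namespace Pool.Agent.P.MP_9014a2_lc

namespace Jock

/-- the least `x < s` with `p x` -/
def lst (s : ℕ) (p : ℕ → Bool) : ℕ := ((List.range s).filter p).head?.getD 0

theorem lst_eq {s x : ℕ} {p : ℕ → Bool} (h1 : x < s) (h2 : p x = true)
    (h3 : ∀ y < x, p y = false) : lst s p = x := by
  have : (List.range s).find? p = some x :=
    List.find?_range_eq_some.2 ⟨h2, List.mem_range.2 h1, fun j hj => by simp [h3 j hj]⟩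
  rw [lst, List.head?_filter, this]
  rfl

theorem lst_spec {s t : ℕ} {p : ℕ → Bool} (h1 : t < s) (h2 : p t = true) :
    p (lst s p) = true ∧ lst s p ≤ t := by
  have hex : ∃ x, p x = true := ⟨t, h2⟩
  have hle : Nat.find hex ≤ t := Nat.find_min' hex h2
  rw [lst_eq (hle.trans_lt h1) (Nat.find_spec hex) fun y hy => by simpa using Nat.find_min hex hy]
  exact ⟨Nat.find_spec hex, hle⟩

/-- the witnesses chosen at stage `s` for the first requirements -/
def us (a : ℕ × ℕ × ℕ → Bool) (s i : ℕ) : List ℕ :=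
  @Nat.rec (fun _ => List ℕ) []
    (fun n ih => lst s (fun x => a (n.unpair.1, x, s) && !ih.contains x) :: ih) i

theorem us_succ (a : ℕ × ℕ × ℕ → Bool) (s i : ℕ) : us a s (i + 1) =
    lst s (fun x => a (i.unpair.1, x, s) && !(us a s i).contains x) :: us a s i := rfl

theorem us_length (a : ℕ × ℕ × ℕ → Bool) (s i : ℕ) : (us a s i).length = i := by
  induction i with
  | zero => rfl
  | succ i ih => rw [us_succ, List.length_cons, ih]

theorem us_mono (a : ℕ × ℕ × ℕ → Bool) (s : ℕ) {i k : ℕ} (h : i ≤ k) : us a s i ⊆ us a s k := by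
  induction h with
  | refl => exact List.Subset.refl _
  | step _ ih => exact List.subset_cons_of_subset _ ih

theorem ci_us {Z : ℕ → Bool} {a : ℕ × ℕ × ℕ → Bool} (ha : CI Z a) :
    CI Z fun p : ℕ × ℕ => us a p.1 p.2 := by
  refine CI.natRec (by fun_prop) (CI.const _) ?_
  unfold lst
  fun_prop

end Jock

open Jock in
theorem all_jock (ha : S_approx) : S_jock := by
  intro Z
  obtain ⟨a, h1, h2⟩ := ha Z
  refine ⟨fun p => (lst p.2 fun i => (us a p.2 (i + 1)).contains p.1).unpair.2, ?_, ?_⟩
  · have h3 := (ci_us h1).comp (g := fun q : (ℕ × ℕ) × ℕ => (q.1.2, q.2 + 1)) (by fun_prop)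
    unfold lst
    fun_prop
  intro A hA hinf c
  obtain ⟨e, he⟩ := h2 A hA
  obtain ⟨T, hT, hc⟩ := hinf.exists_subset_card_eq (Nat.pair e c + 1)
  have h4 : ∀ᶠ s in Filter.atTop, ∀ x ∈ Finset.range (T.sup id + 1), a (e, x, s) = A x :=
    (Filter.eventually_all_finset _).2 fun x _ => he x
  obtain ⟨s0, hs0⟩ := Filter.eventually_atTop.1 h4
  obtain ⟨s, hs, hlt⟩ := hinf.exists_gt (s0 + T.sup id + Nat.pair e c)
  have h5 := hs0 s (by omega)
  obtain ⟨t, ht, htu⟩ : ∃ t ∈ T, t ∉ us a s (Nat.pair e c) := by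
    by_contra hn
    push Not at hn
    have h6 : T ⊆ (us a s (Nat.pair e c)).toFinset := fun t ht => List.mem_toFinset.2 (hn t ht)
    have h7 := (Finset.card_le_card h6).trans (List.toFinset_card_le _)
    rw [us_length] at h7
    omega
  have hts : t ≤ T.sup id := Finset.le_sup (f := id) ht
  have h8 := lst_spec (s := s) (t := t)
    (p := fun x => a ((Nat.pair e c).unpair.1, x, s) && !(us a s (Nat.pair e c)).contains x)
    (by omega) (by
      have : A t = true := hT ht
      simp [h5 t (Finset.mem_range.2 (by omega)), this, htu])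
  have h9 := us_succ a s (Nat.pair e c)
  generalize lst s (fun x => a ((Nat.pair e c).unpair.1, x, s) &&
    !(us a s (Nat.pair e c)).contains x) = x at h8 h9
  obtain ⟨h10, h11⟩ := h8
  simp only [Nat.unpair_pair, Bool.and_eq_true, Bool.not_eq_eq_eq_not, Bool.not_true,
    List.contains_eq_mem, decide_eq_false_iff_not] at h10
  refine ⟨x, s, by rw [← h5 x (Finset.mem_range.2 (by omega)), h10.1], hs, ?_⟩
  dsimp only
  rw [lst_eq (x := Nat.pair e c) (by omega) (by simp [h9]) fun y hy => by
    simpa using fun h => h10.2 (us_mono a s (Nat.succ_le_of_lt hy) h), Nat.unpair_pair]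

end Pool.Agent.P.MP_9014a2_lc
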