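import Pool.Agent.P.MP_9014a2_lc.FSet

/-!
The jump, effectively open classes (`S1`, `Op`), compactness.
-/

namespace Pool.Agent.P.MP_9014a2_lc

open Pool.Agent.Lib.Helper43 Encodable Filter

/-- universal monotone search: program `c` accepts input `a` with an initial segment of `τ` -/
def W (c a : ℕ) (τ : List Bool) : Bool :=
  (List.range (τ.length + 1)).any fun i => (Nat.Partrec.Code.evaln τ.length
    (Denumerable.ofNat Nat.Partrec.Code c) (Nat.pair a (encode (τ.take i)))).isSome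

open Classical in
/-- the Turing jump -/
noncomputable def jump (X : ℕ → Bool) : ℕ → Bool :=
  fun n => decide (∃ s, W n.unpair.1 n.unpair.2 (seg X s) = true)

/-- `P Z a` is c.e. in `X` and `Z`, uniformly in the oracle `Z` -/
def S1 (X : ℕ → Bool) {α : Type} [Primcodable α] (P : (ℕ → Bool) → α → Prop) : Prop :=
  ∃ q : α × List Bool → Prop, Sig X q ∧ ∀ Z a, P Z a ↔ ∃ s, q (a, seg Z s)

/-- `P` is an effectively open class relative to `X` -/
def Op (X : ℕ → Bool) (P : (ℕ → Bool) → Prop) : Prop := S1 X fun Z (_ : Unit) => P Z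

variable {α β : Type} [Primcodable α] [Primcodable β] {X Y : ℕ → Bool}

@[fun_prop] theorem computable_W {c a : α → ℕ} {τ : α → List Bool} (hc : Computable c)
    (ha : Computable a) (hτ : Computable τ) : Computable fun x => W (c x) (a x) (τ x) := by
  unfold W
  fun_prop

theorem W_mono {c a : ℕ} {τ τ' : List Bool} (h : τ <+: τ') (hw : W c a τ = true) :
    W c a τ' = true := by
  simp only [W, List.any_eq_true, List.mem_range, Option.isSome_iff_exists] at *
  obtain ⟨i, hi, x, hx⟩ := hw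
  have hl := h.length_le
  refine ⟨i, by omega, x, Nat.Partrec.Code.evaln_mono hl ?_⟩
  obtain ⟨u, rfl⟩ := h
  rwa [List.take_append_of_le_length (by omega)]

theorem seg_isPrefix (Z : ℕ → Bool) {n m : ℕ} (h : n ≤ m) : seg Z n <+: seg Z m :=
  seg_take Z h ▸ List.take_prefix _ _

theorem jump_iff {n : ℕ} : jump X n = true ↔ ∃ s, W n.unpair.1 n.unpair.2 (seg X s) = true := by
  simp [jump]

/-- every computable search is a `W` search -/
theorem exists_W {R : α × List Bool → Bool} (hR : Computable R) :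
    ∃ c, ∀ (Z : ℕ → Bool) a, (∃ s, R (a, seg Z s) = true) ↔ ∃ s, W c (encode a) (seg Z s) = true := by
  have h1 : Partrec fun x : α × List Bool => Nat.rfind fun _ => (Part.some (R x) : Part Bool) :=
    Partrec.rfind (p := fun x _ => (Part.some (R x) : Part Bool))
      (hR.comp Computable.fst).partrec
  obtain ⟨c, hc⟩ := Nat.Partrec.Code.exists_code.1 h1
  have key : ∀ a τ, (∃ x, x ∈ c.eval (Nat.pair (encode a) (encode τ))) ↔ R (a, τ) = true := by
    intro a τ
    have : (decode (Nat.pair (encode a) (encode τ)) : Option (α × List Bool)) = some (a, τ) :=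
      encodek (a, τ)
    rw [hc]
    simp only [this, Part.coe_some, Part.bind_some, Part.mem_map_iff, Nat.mem_rfind,
      Part.mem_some_iff]
    exact ⟨fun ⟨_, _, h, _⟩ => h.1.symm, fun h => ⟨_, 0, ⟨h.symm, by simp⟩, rfl⟩⟩
  refine ⟨encode c, fun Z a => ⟨fun ⟨s, hs⟩ => ?_, fun ⟨s, hs⟩ => ?_⟩⟩
  · obtain ⟨x, hx⟩ := (key a _).2 hs
    obtain ⟨k, hk⟩ := Nat.Partrec.Code.evaln_complete.1 hx
    refine ⟨max s k, ?_⟩
    simp only [W, List.any_eq_true, List.mem_range, Option.isSome_iff_exists, seg_length,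
      Denumerable.ofNat_encode]
    refine ⟨s, by omega, x, ?_⟩
    rw [seg_take Z (le_max_left _ _)]
    exact Nat.Partrec.Code.evaln_mono (le_max_right _ _) hk
  · simp only [W, List.any_eq_true, List.mem_range, Option.isSome_iff_exists, seg_length,
      Denumerable.ofNat_encode] at hs
    obtain ⟨i, hi, x, hx⟩ := hs
    rw [seg_take Z (by omega)] at hx
    exact ⟨i, (key a _).1 ⟨x, Nat.Partrec.Code.evaln_sound hx⟩⟩

/-- use principle -/
theorem Sig.exists_search {p : α → Prop} (hp : Sig X p) :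
    ∃ R : α × List Bool → Bool, Computable R ∧ ∀ a, p a ↔ ∃ s, R (a, seg X s) = true := by
  obtain ⟨q, hq, e⟩ := hp
  obtain ⟨f, hf, e'⟩ := hq.exists_bool
  let g : ℕ → Bool := fun n => ((decode (α := α × ℕ) n).map f).getD false
  have hg : CI X g := by
    have : CI X fun n : ℕ => (decode (α := α × ℕ) n).map f :=
      CI.optMap (g := fun _ x => f x) (CI.of_comp Computable.decode) (by fun_prop)
    simp only [g]
    fun_prop
  have hge : ∀ x, g (encode x) = f x := fun x => by
    simp only [g, encodek, Option.map_some, Option.getD_some]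
  obtain ⟨c, hc⟩ := MP_1a00c7_lc.Red.use (A := g) (O := X) (red_iff.1 hg)
  refine ⟨fun x => (List.range x.2.length).any fun n =>
    MP_1a00c7_lc.phi c x.2 (encode (x.1, n)) == some true, by fun_prop, fun a => ?_⟩
  simp only [List.any_eq_true, List.mem_range, seg_length, beq_iff_eq]
  rw [e]
  constructor
  · rintro ⟨n, hn⟩
    obtain ⟨s, hs⟩ := eventually_atTop.1 (hc (encode (a, n)))
    refine ⟨max s (n + 1), n, by omega, ?_⟩
    have := hs _ (le_max_left s (n + 1))
    rwa [hge, (e' _).1 hn] at this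
  · rintro ⟨s, n, -, hn⟩
    obtain ⟨s', hs'⟩ := (hc (encode (a, n))).exists
    have := MP_1a00c7_lc.phi_unique (O := X) hn hs'
    exact ⟨n, (e' _).2 (hge _ ▸ this.symm)⟩

/-- normal form -/
theorem Sig.exists_code {p : α → Prop} (hp : Sig X p) :
    ∃ c, ∀ a, p a ↔ jump X (Nat.pair c (encode a)) = true := by
  obtain ⟨R, hR, e⟩ := hp.exists_search
  obtain ⟨c, hc⟩ := exists_W hR
  exact ⟨c, fun a => by rw [e, hc, jump_iff]; simp⟩

theorem Sig.di_jump {p : α → Prop} (hp : Sig X p) : DI (jump X) p := by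
  obtain ⟨c, hc⟩ := hp.exists_code
  exact DI.of_bool (CI.comp (g := fun a => Nat.pair c (encode a)) CI.oracle (by fun_prop)) hc

theorem sig_jump : Sig X fun n => jump X n = true := by
  have := CI.oracle (X := X)
  exact Sig.of_iff (Sig.ex (r := fun (n : ℕ) (s : ℕ) => W n.unpair.1 n.unpair.2 (seg X s) = true)
    (Sig.of_di (by fun_prop))) fun _ => jump_iff.symm

theorem red_of_di {A : ℕ → Bool} (h : DI X fun n => A n = true) : Red A X :=
  CI.of_eq (CI.decide (inst := fun _ => inferInstance) h) fun n => by simp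

theorem Red.di {A : ℕ → Bool} (h : Red A X) : DI X fun n => A n = true :=
  DI.of_bool h fun _ => Iff.rfl

theorem red_jump (X : ℕ → Bool) : Red X (jump X) :=
  red_of_di (Sig.of_di (Red.refl X).di).di_jump

theorem Red.jump (h : Red X Y) : Red (jump X) (jump Y) :=
  red_of_di (sig_jump.mono h).di_jump

theorem Red.iterate (h : Red X Y) (n : ℕ) : Red (MP_9014a2_lc.jump^[n] X) (MP_9014a2_lc.jump^[n] Y) := by
  induction n generalizing X Y with
  | zero => exact h
  | succ n ih => exact ih h.jump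

namespace S1

variable {P Q : (ℕ → Bool) → α → Prop}

theorem of_iff (hP : S1 X P) (h : ∀ Z a, P Z a ↔ Q Z a) : S1 X Q :=
  let ⟨q, hq, e⟩ := hP; ⟨q, hq, fun Z a => (h Z a).symm.trans (e Z a)⟩

theorem mono (hP : S1 X P) (h : Red X Y) : S1 Y P :=
  let ⟨q, hq, e⟩ := hP; ⟨q, hq.mono h, e⟩

theorem of_sig {p : α → Prop} (hp : Sig X p) : S1 X fun _ a => p a :=
  ⟨fun x => p x.1, hp.comp (by fun_prop), fun _ _ => by simp⟩

theorem of_di {p : α → Prop} (hp : DI X p) : S1 X fun _ a => p a := of_sig (Sig.of_di hp)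

theorem comp {P : (ℕ → Bool) → β → Prop} {g : α → β} (hP : S1 X P) (hg : CI X g) :
    S1 X fun Z a => P Z (g a) :=
  let ⟨q, hq, e⟩ := hP
  ⟨fun x => q (g x.1, x.2), hq.comp (by fun_prop), fun Z a => e Z _⟩

/-- monotone form -/
theorem exists_mono (hP : S1 X P) : ∃ q : α × List Bool → Prop, Sig X q ∧
    (∀ Z a, P Z a ↔ ∃ s, q (a, seg Z s)) ∧
    ∀ (Z : ℕ → Bool) a s t, s ≤ t → q (a, seg Z s) → q (a, seg Z t) := by
  obtain ⟨q, hq, e⟩ := hP
  have key : ∀ (Z : ℕ → Bool) a s, (∃ i, i ≤ (seg Z s).length ∧ q (a, (seg Z s).take i)) ↔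
      ∃ i ≤ s, q (a, seg Z i) := fun Z a s =>
    exists_congr fun i => by
      rw [seg_length]
      exact and_congr_right fun hi => by rw [seg_take Z hi]
  refine ⟨fun x => ∃ i, i ≤ x.2.length ∧ q (x.1, x.2.take i),
    Sig.ex (Sig.and (Sig.of_di (by fun_prop)) (hq.comp (by fun_prop))), fun Z a => ?_,
    fun Z a s t hst => ?_⟩
  · simp only [key, e]
    exact ⟨fun ⟨s, hs⟩ => ⟨s, s, le_rfl, hs⟩, fun ⟨_, i, _, h⟩ => ⟨i, h⟩⟩
  · simp only [key]
    exact fun ⟨i, hi, h⟩ => ⟨i, hi.trans hst, h⟩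

theorem and (hP : S1 X P) (hQ : S1 X Q) : S1 X fun Z a => P Z a ∧ Q Z a := by
  obtain ⟨p, hp, e, m⟩ := hP.exists_mono
  obtain ⟨q, hq, e', m'⟩ := hQ.exists_mono
  refine ⟨fun x => p x ∧ q x, hp.and hq, fun Z a => ?_⟩
  simp only [e, e']
  exact ⟨fun ⟨⟨s, hs⟩, t, ht⟩ => ⟨max s t, m _ _ _ _ (le_max_left _ _) hs,
    m' _ _ _ _ (le_max_right _ _) ht⟩, fun ⟨s, hs, ht⟩ => ⟨⟨s, hs⟩, s, ht⟩⟩

theorem or (hP : S1 X P) (hQ : S1 X Q) : S1 X fun Z a => P Z a ∨ Q Z a := by
  obtain ⟨p, hp, e⟩ := hP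
  obtain ⟨q, hq, e'⟩ := hQ
  exact ⟨fun x => p x ∨ q x, hp.or hq, fun Z a => by simp only [e, e', exists_or]⟩

theorem ex {P : (ℕ → Bool) → α → β → Prop} (hP : S1 X fun Z (x : α × β) => P Z x.1 x.2) :
    S1 X fun Z a => ∃ b, P Z a b := by
  obtain ⟨p, hp, e⟩ := hP
  refine ⟨fun x => ∃ b, p ((x.1, b), x.2), Sig.ex (hp.comp (by fun_prop)), fun Z a => ?_⟩
  exact (exists_congr fun b => e Z (a, b)).trans exists_comm

theorem allL {P : (ℕ → Bool) → α → β → Prop} {l : α → List β}
    (hP : S1 X fun Z (x : α × β) => P Z x.1 x.2) (hl : CI X l) :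
    S1 X fun Z a => ∀ b ∈ l a, P Z a b := by
  obtain ⟨p, hp, e, m⟩ := hP.exists_mono
  refine ⟨fun x => ∀ b ∈ l x.1, p ((x.1, b), x.2),
    Sig.allL (hp.comp (by fun_prop)) (by fun_prop), fun Z a => ⟨fun h => ?_, fun ⟨s, hs⟩ b hb =>
      (e Z (a, b)).2 ⟨s, hs b hb⟩⟩⟩
  have : ∀ᶠ s in atTop, ∀ b ∈ {b | b ∈ l a}, p ((a, b), seg Z s) := by
    rw [eventually_all_finite (List.finite_toSet _)]
    intro b hb
    obtain ⟨s, hs⟩ := (e Z (a, b)).1 (h b hb)
    exact eventually_atTop.2 ⟨s, fun t ht => m _ _ _ _ ht hs⟩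
  exact this.exists

theorem allF {P : (ℕ → Bool) → α → ℕ → Prop} {T : α → Finset ℕ}
    (hP : S1 X fun Z (x : α × ℕ) => P Z x.1 x.2) (hT : CI X T) :
    S1 X fun Z a => ∀ b ∈ T a, P Z a b :=
  (allL (l := fun a => toL (T a)) hP (by fun_prop)).of_iff fun _ _ => by simp

theorem allSub {P : (ℕ → Bool) → α → Finset ℕ → Prop} {T : α → Finset ℕ}
    (hP : S1 X fun Z (x : α × Finset ℕ) => P Z x.1 x.2) (hT : CI X T) :
    S1 X fun Z a => ∀ b ⊆ T a, P Z a b :=
  (allL (l := fun a => subs (T a)) hP (by fun_prop)).of_iff fun _ _ => by simp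

theorem allLt {P : (ℕ → Bool) → α → ℕ → Prop} {n : α → ℕ}
    (hP : S1 X fun Z (x : α × ℕ) => P Z x.1 x.2) (hn : CI X n) :
    S1 X fun Z a => ∀ b < n a, P Z a b :=
  (allL (l := fun a => List.range (n a)) hP (by fun_prop)).of_iff fun _ _ => by simp

/-- a query to the variable oracle -/
theorem query {f : α → ℕ} {b : α → Bool} (hf : CI X f) (hb : CI X b) :
    S1 X fun Z a => Z (f a) = b a := by
  refine ⟨fun x => f x.1 < x.2.length ∧ x.2.getD (f x.1) false = b x.1,
    Sig.of_di (by fun_prop), fun Z a => ⟨fun h => ⟨f a + 1, by simp, ?_⟩, fun ⟨s, h1, h2⟩ => ?_⟩⟩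
  · rwa [seg_getD _ (Nat.lt_succ_self _)]
  · rwa [seg_getD _ (by simpa using h1)] at h2

/-- substitution of a total functional `Ψ` for the variable oracle -/
theorem subst {Ψ : (ℕ → Bool) → α → ℕ → Bool} (hP : S1 X P)
    (hΨ : S1 X fun Z (x : α × ℕ × Bool) => Ψ Z x.1 x.2.1 = x.2.2) :
    S1 X fun Z a => P (Ψ Z a) a := by
  obtain ⟨q, hq, e⟩ := hP
  refine of_iff (P := fun Z a => ∃ τ : List Bool, q (a, τ) ∧
    ∀ i < τ.length, Ψ Z a i = τ.getD i false) (ex (and (of_sig hq) (allLt ?_ (by fun_prop))))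
    fun Z a => ?_
  · exact hΨ.comp (g := fun x : (α × List Bool) × ℕ => (x.1.1, x.2, x.1.2.getD x.2 false))
      (by fun_prop)
  · rw [e]
    constructor
    · rintro ⟨τ, h1, h2⟩
      refine ⟨τ.length, ?_⟩
      rwa [show seg (Ψ Z a) τ.length = τ from List.ext_getElem (by simp) fun i _ hi => by
        simp [seg, h2 i hi, List.getD_eq_getElem?_getD, List.getElem?_eq_getElem hi]]
    · rintro ⟨s, hs⟩
      exact ⟨_, hs, fun i hi => (seg_getD _ (by simpa using hi)).symm⟩

/-- evaluation at computable oracles -/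
theorem sig {g : α → ℕ → Bool} (hP : S1 X P) (hg : CI X fun x : α × ℕ => g x.1 x.2) :
    Sig X fun a => P (g a) a := by
  obtain ⟨q, hq, e⟩ := hP
  exact Sig.of_iff (Sig.ex (r := fun a s => q (a, seg (g a) s)) (hq.comp (by fun_prop)))
    fun a => (e _ _).symm

/-- the universal class -/
theorem univ : S1 X fun Z (n : ℕ) => jump (join X Z) n = true := by
  have := CI.oracle (X := X)
  refine ⟨fun x => W x.1.unpair.1 x.1.unpair.2 (seg (join X fun i => x.2.getD i false) x.2.length)
    = true, Sig.of_di (by fun_prop), fun Z n => jump_iff.trans (exists_congr fun s => ?_)⟩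
  have : seg (join X fun i => (seg Z s).getD i false) s = seg (join X Z) s :=
    seg_eq_iff.2 fun i hi => by simp only [join, seg_getD Z (show i / 2 < s by omega)]
  simp only [seg_length, this]

/-- normal form -/
theorem exists_code (hP : S1 X P) :
    ∃ c, ∀ Z a, P Z a ↔ jump (join X Z) (Nat.pair c (encode a)) = true := by
  obtain ⟨q, hq, e⟩ := hP
  obtain ⟨R, hR, e'⟩ := hq.exists_search
  obtain ⟨c, hc⟩ := exists_W (R := fun x : α × List Bool => (List.range x.2.length).any fun i =>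
    (List.range x.2.length).any fun j => decide (2 * i + 2 * j < x.2.length) &&
      R ((x.1, seg (fun n => x.2.getD (2 * n + 1) false) i),
        seg (fun n => x.2.getD (2 * n) false) j)) (by unfold seg; fun_prop)
  refine ⟨c, fun Z a => ?_⟩
  rw [jump_iff, Nat.unpair_pair, ← hc, e]
  simp only [e', List.any_eq_true, List.mem_range, seg_length, Bool.and_eq_true,
    decide_eq_true_eq]
  have k1 : ∀ s i j, 2 * i + 2 * j < s →
      seg (fun n => (seg (join X Z) s).getD (2 * n + 1) false) i = seg Z i ∧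
      seg (fun n => (seg (join X Z) s).getD (2 * n) false) j = seg X j := fun s i j h =>
    ⟨seg_eq_iff.2 fun n hn => by rw [seg_getD _ (by omega), join_odd],
      seg_eq_iff.2 fun n hn => by rw [seg_getD _ (by omega), join_even]⟩
  constructor
  · rintro ⟨i, j, h⟩
    refine ⟨2 * i + 2 * j + 1, i, by omega, j, by omega, by omega, ?_⟩
    rwa [(k1 _ i j (by omega)).1, (k1 _ i j (by omega)).2]
  · rintro ⟨s, i, -, j, -, h1, h⟩
    rw [(k1 _ i j h1).1, (k1 _ i j h1).2] at h
    exact ⟨i, j, h⟩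

end S1

/-- compactness of Cantor space -/
theorem compact_seg {q : List Bool → Prop} (h : ∀ Z : ℕ → Bool, ∃ s, q (seg Z s)) :
    ∃ N, ∀ Z : ℕ → Bool, ∃ s ≤ N, q (seg Z s) := by
  have ho : ∀ s, IsOpen {Z : ℕ → Bool | q (seg Z s)} := by
    intro s
    rw [isOpen_iff_mem_nhds]
    intro Z hZ
    have : ∀ᶠ Z' in nhds Z, ∀ i ∈ Finset.range s, Z' i = Z i := by
      rw [Finset.eventually_all]
      exact fun i _ => (continuous_apply i).continuousAt.eventually
        ((isOpen_discrete {Z i}).mem_nhds rfl)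
    filter_upwards [this] with Z' hZ'
    show q (seg Z' s)
    rwa [seg_eq_iff.2 fun i hi => hZ' i (Finset.mem_range.2 hi)]
  obtain ⟨t, ht⟩ := isCompact_univ.elim_finite_subcover _ ho fun Z _ => Set.mem_iUnion.2 (h Z)
  refine ⟨t.sup id, fun Z => ?_⟩
  obtain ⟨s, hs, hZ⟩ := Set.mem_iUnion₂.1 (ht (Set.mem_univ Z))
  exact ⟨s, Finset.le_sup (f := id) hs, hZ⟩

/-- universal quantification over one half of the variable oracle -/
theorem S1.forall_join {P : (ℕ → Bool) → α → Prop} (hP : S1 X P) :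
    S1 X fun Z a => ∀ Z', P (join Z Z') a := by
  obtain ⟨q, hq, e, m⟩ := hP.exists_mono
  refine ⟨fun x => ∀ b < 2 ^ x.2.length,
    q (x.1, seg (join (fun i => x.2.getD i false) b.testBit) x.2.length),
    Sig.allLt (hq.comp (by fun_prop)) (by fun_prop), fun Z a => ?_⟩
  have k1 : ∀ s (Z' Z'' : ℕ → Bool), (∀ i < s, Z' i = Z'' i) →
      seg (join (fun i => (seg Z s).getD i false) Z') s = seg (join Z Z'') s := fun s Z' Z'' h =>
    seg_eq_iff.2 fun i hi => by
      simp only [join, seg_getD Z (show i / 2 < s by omega), h (i / 2) (by omega)]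
  simp only [seg_length]
  constructor
  · intro h
    obtain ⟨N, hN⟩ := compact_seg
      (q := fun τ => q (a, seg (join Z fun i => τ.getD i false) τ.length)) fun Z' => by
        obtain ⟨s, hs⟩ := (e _ _).1 (h Z')
        refine ⟨s, ?_⟩
        rwa [seg_length, show seg (join Z fun i => (seg Z' s).getD i false) s = seg (join Z Z') s
          from seg_eq_iff.2 fun i hi => by simp only [join, seg_getD Z' (show i / 2 < s by omega)]]
    refine ⟨N, fun b _ => ?_⟩
    obtain ⟨s, hs, h1⟩ := hN b.testBit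
    rw [seg_length, show seg (join Z fun i => (seg b.testBit s).getD i false) s =
      seg (join Z b.testBit) s from seg_eq_iff.2 fun i hi => by
        simp only [join, seg_getD b.testBit (show i / 2 < s by omega)]] at h1
    rw [k1 N _ _ fun _ _ => rfl]
    exact m _ _ _ _ hs h1
  · rintro ⟨s, hs⟩ Z'
    let T := (Finset.range s).filter fun i => Z' i = true
    have hT : fc T < 2 ^ s := Nat.lt_pow_two_of_testBit _ fun i hi => by
      have : i ∉ T := by simp [T]; omega
      simpa [mem_iff_testBit] using this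
    have := hs _ hT
    rw [k1 s _ Z' fun i hi => by
      rw [Bool.eq_iff_iff, ← mem_iff_testBit]; simp [T, hi]] at this
    exact (e _ _).2 ⟨s, this⟩

/-- universal quantification over the variable oracle -/
theorem S1.forall_sig {P : (ℕ → Bool) → α → Prop} (hP : S1 X P) : Sig X fun a => ∀ Z, P Z a := by
  have h1 : S1 X fun Z a => P (fun n => Z (2 * n + 1)) a :=
    hP.subst (Ψ := fun Z _ n => Z (2 * n + 1)) (S1.query (by fun_prop) (by fun_prop))
  exact (h1.forall_join.sig (g := fun _ _ => false) (by fun_prop)).of_iff fun a => by simp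

end Pool.Agent.P.MP_9014a2_lc
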