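import Pool.Agent.P.MP_9014a2_lc.Runs

/-! The limit lemma and the iteration along the jumps. -/

namespace Pool.Agent.P.MP_9014a2_lc

open Encodable

theorem Limit.limit (ha : S_approx) : S_limit := by
  intro Z g hg
  obtain ⟨a, h1, h2⟩ := ha Z
  have h3 : CI (jump Z) fun n : ℕ => g n.unpair.1 == n.unpair.2 := by
    have : CI (jump Z) fun n : ℕ => (g n.unpair.1, n.unpair.2) :=
      (hg.comp (.of_comp (Primrec.fst.comp Primrec.unpair).to_comp)).prodMk
        (.of_comp (Primrec.snd.comp Primrec.unpair).to_comp)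
    exact (CI.of_comp (f := fun p : ℕ × ℕ => p.1 == p.2) Primrec.beq.to_comp).comp this
  obtain ⟨e, he⟩ := h2 _ h3
  have hex : ∀ q : ℕ × ℕ, ∃ v, (bif a (e, Nat.pair q.1 v, q.2) then true else q.2 == v) = true :=
    fun q => ⟨q.2, by simp⟩
  refine ⟨fun q => Nat.find (hex q), CI.findB ?_ hex, fun n => ?_⟩
  · refine CI.cond (h1.comp ((CI.const e).prodMk (CI.prodMk ?_ (by fun_prop)))) (.const _) ?_
    · exact .of_comp (Primrec₂.natPair.comp (Primrec.fst.comp .fst) .snd).to_comp
    · exact .of_comp (Primrec.beq.comp (Primrec.snd.comp .fst) .snd).to_comp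
  filter_upwards [(Finset.range (g n + 1)).eventually_all.2 fun v _ => he (Nat.pair n v),
    Filter.eventually_gt_atTop (g n)] with s h4 h5
  rw [Nat.find_eq_iff]
  refine ⟨by simp [h4 (g n)], fun v hv => ?_⟩
  simp [h4 v (Finset.mem_range.2 (by omega)), hv.ne', (hv.trans h5).ne']

theorem all_tsLow (ha : S_approx) (hj : S_jock) : S_tsLow := by
  intro k
  induction k with
  | zero =>
    intro Z
    obtain ⟨F, h1, h2⟩ := hj Z
    refine ⟨fun l => F (l.getD 0 0, l.getD 1 0), h1.comp (.of_comp ?_), fun A hA hi c => ?_⟩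
    · exact (((Primrec.list_getD 0).comp .id (.const 0)).pair
        ((Primrec.list_getD 0).comp .id (.const 1))).to_comp
    obtain ⟨x, y, hx, hy, e⟩ := h2 A hA hi c
    exact ⟨[x, y], rfl, by simp [hx, hy], e⟩
  | succ k ih =>
    intro Z
    obtain ⟨G, h1, h2⟩ := ih (jump Z)
    obtain ⟨f, h3, h4⟩ := Limit.limit ha Z (fun n => G ((decode n).getD []))
      (h1.comp (.of_comp (Primrec.option_getD.comp Primrec.decode (.const [])).to_comp))
    refine ⟨fun l => f (encode l.tail, l.getD 0 0), h3.comp (.of_comp ?_), fun A hA hi c => ?_⟩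
    · exact ((Primrec.encode.comp Primrec.list_tail).pair
        ((Primrec.list_getD 0).comp .id (.const 0))).to_comp
    obtain ⟨l, e1, e2, e3⟩ := h2 A hA hi c
    obtain ⟨N, hN⟩ := Filter.eventually_atTop.1 (h4 (encode l))
    obtain ⟨s, hs, h5⟩ := hi.exists_gt N
    refine ⟨s :: l, by simp [e1], fun x hx => ?_, ?_⟩
    · rcases List.mem_cons.1 hx with rfl | hx
      exacts [hs, e2 x hx]
    · simpa [encodek, e3] using hN s h5.le

end Pool.Agent.P.MP_9014a2_lc
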