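import Pool.Agent.P.MP_9014a2_lc.Runs

/-! The low basis theorem. -/

namespace Pool.Agent.P.MP_9014a2_lc

namespace Low

theorem get_seg (u : ℕ → Bool) (n i : ℕ) : (seg u n).getD i false = true ↔ i < n ∧ u i = true := by
  by_cases h : i < n
  · rw [seg_getD u h]
    simp [h]
  · rw [List.getD_eq_default _ _ (by simpa using h)]
    simp [h]

theorem get_app (u : ℕ → Bool) (n i : ℕ) :
    (seg u n ++ [true]).getD i false = true ↔ (i < n ∧ u i = true) ∨ i = n := by
  rcases lt_trichotomy i n with h | rfl | h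
  · rw [List.getD_append _ _ _ _ (by simpa using h), get_seg]
    simp [h.ne]
  · rw [List.getD_append_right _ _ _ _ (by simp)]
    simp
  · rw [List.getD_eq_default _ _ (by simpa using h)]
    simp [h.ne', h.le]

end Low

theorem all_low : S_low := by
  classical
  rintro X P hP ⟨Z₀, h0⟩
  let K : (ℕ → Bool) → List Bool → Prop := fun Z d =>
    P Z ∨ ∃ i, d.getD i false = true ∧ jump (join X Z) i = true
  have hK : S1 X K := (S1.comp hP (g := fun _ => ()) (by fun_prop)).or
    (S1.ex ((S1.of_di (by fun_prop)).and (S1.univ.comp (g := fun x : List Bool × ℕ => x.2)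
      (by fun_prop))))
  have hE := hK.forall_sig.di_jump
  obtain ⟨u, hu, e⟩ := CI.exists_strongRec (X := jump X)
    (fun _ l => decide (¬ ∀ Z, K Z (l ++ [true])))
    (CI.decide (hE.comp (g := fun p : ℕ × List Bool => p.2 ++ [true]) (by fun_prop)).not)
  have e' : ∀ n, u n = true ↔ ¬ ∀ Z, K Z (seg u n ++ [true]) := fun n => by
    rw [e n, decide_eq_true_iff]
    rfl
  have mono : ∀ Z n m, n ≤ m → K Z (seg u n) → K Z (seg u m) := fun Z n m h =>
    Or.imp_right fun ⟨i, h1, h2⟩ => ⟨i, (Low.get_seg ..).2 (((Low.get_seg ..).1 h1).imp_left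
      fun h' => h'.trans_le h), h2⟩
  have h1 : ∀ n, ¬ ∀ Z, K Z (seg u n) := by
    intro n
    induction n with
    | zero => exact fun h => (h Z₀).elim h0 fun ⟨i, h1, _⟩ => by simp [seg] at h1
    | succ n ih =>
      intro h
      by_cases hn : u n = true
      · refine (e' n).1 hn fun Z => (h Z).imp_right fun ⟨i, h1, h2⟩ => ⟨i, ?_, h2⟩
        rw [Low.get_seg] at h1
        rw [Low.get_app]
        exact (Nat.lt_succ_iff_lt_or_eq.1 h1.1).imp_left fun h' => ⟨h', h1.2⟩
      · refine ih fun Z => (h Z).imp_right fun ⟨i, h1, h2⟩ => ⟨i, ?_, h2⟩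
        rw [Low.get_seg] at h1 ⊢
        exact ⟨(Nat.lt_succ_iff_lt_or_eq.1 h1.1).resolve_right fun h' => hn (h' ▸ h1.2), h1.2⟩
  obtain ⟨q, -, eq, m⟩ := hK.exists_mono
  obtain ⟨Z, hZ⟩ : ∃ Z, ∀ n, ¬ K Z (seg u n) := by
    by_contra hc
    simp only [not_exists, not_forall, not_not] at hc
    obtain ⟨N, hN⟩ := compact_seg (q := fun τ => ∃ n ≤ τ.length, q (seg u n, τ)) fun Z => by
      obtain ⟨n, hn⟩ := hc Z
      obtain ⟨s, hs⟩ := (eq _ _).1 hn
      exact ⟨max n s, n, by simp, m _ _ _ _ (le_max_right _ _) hs⟩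
    refine h1 N fun Z => ?_
    obtain ⟨s, hs, n, hn, h⟩ := hN Z
    exact mono Z n N ((seg_length Z s ▸ hn).trans hs) ((eq _ _).2 ⟨s, h⟩)
  refine ⟨Z, fun h => hZ 0 (Or.inl h), CI.of_eq (f := fun n => !u n) (by fun_prop) fun n => ?_⟩
  cases hn : u n with
  | true =>
    exact (Bool.eq_false_iff.2 fun h => hZ (n + 1)
      (Or.inr ⟨n, (Low.get_seg ..).2 ⟨Nat.lt_succ_self n, hn⟩, h⟩)).symm
  | false =>
    have h := not_not.1 ((e' n).not.1 (by simp [hn])) Z
    rcases h with h | ⟨i, h, h'⟩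
    · exact absurd (Or.inl h) (hZ 0)
    · rcases (Low.get_app ..).1 h with h | rfl
      · exact absurd (Or.inr ⟨i, (Low.get_seg ..).2 h, h'⟩) (hZ n)
      · exact h'.symm

end Pool.Agent.P.MP_9014a2_lc
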