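import Pool.Agent.P.MP_9014a2_lc.Runs

/-!
Translation from list functions to the principles `T1` and `T2`.
-/

namespace Pool.Agent.P.MP_9014a2_lc

open Pool.Agent.Lib.Helper43 Encodable

namespace Model

variable {k m : ℕ} {I : Set (ℕ → Bool)}

theorem ofFn_getD {l : List ℕ} (h : l.length = m) :
    (List.ofFn fun i : Fin m => l.getD i 0) = l := by
  subst h
  exact List.ext_getElem (by simp) fun i h1 h2 => by simp

theorem getD_ofFn (x : Fin m → ℕ) : (fun i : Fin m => (List.ofFn x).getD i 0) = x :=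
  funext fun i => by simp

theorem t1 (h : ∀ X ∈ I, ∀ F, CI X F → ∃ H ∈ I, Free k F H) (hm : m ≤ k) : T1 I m := by
  rintro F ⟨G, hG, hF⟩
  let Fh : List ℕ → ℕ := fun l => if l.length = m then F (fun i => l.getD i 0) else 0
  have h0 : CI G G := CI.oracle
  have h1 : CI G Fh := by
    refine CI.of_graph (Sig.of_di (DI.of_iff (p := fun x : List ℕ × ℕ =>
      (x.1.length = m ∧ G (Nat.pair (encode x.1) x.2) = true) ∨ (¬ x.1.length = m ∧ x.2 = 0))
      ?_ ?_))
    · have h2 : CI G fun x : List ℕ × ℕ => encode x.1 :=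
        CI.of_comp (Computable.encode.comp Computable.fst)
      fun_prop
    · rintro ⟨l, v⟩
      by_cases hl : l.length = m
      · simp only [Fh, hl, true_and, not_true, false_and, or_false, if_true, hF _]
        constructor
        · rintro ⟨x, hx⟩
          obtain ⟨h3, h4⟩ := Nat.pair_eq_pair.1 hx
          rw [encode_injective h3, getD_ofFn, h4]
        · rintro rfl
          exact ⟨_, by rw [ofFn_getD hl]⟩
      · simp only [Fh, hl, false_and, not_false_iff, true_and, false_or, if_false]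
        exact eq_comm
  obtain ⟨H, hH, h2, h3⟩ := h G hG Fh h1
  refine ⟨H, hH, h2, fun x hx hx' => ?_⟩
  have e : Fh (List.ofFn x) = F x := by
    simp only [Fh, List.length_ofFn, if_true, getD_ofFn]
  have h4 := h3 (List.ofFn x) (by rwa [List.length_ofFn])
    (fun y hy => by obtain ⟨i, rfl⟩ := List.mem_ofFn.1 hy; exact hx i) (e ▸ hx')
  rw [e] at h4
  obtain ⟨i, hi⟩ := List.mem_ofFn.1 h4
  exact ⟨i, hi.symm⟩

theorem t2 (hI : TuringIdeal I) (h : T1 I m) : T2 I m := by
  intro F hF
  obtain ⟨A, hA, h1, h2⟩ := h F hF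
  obtain ⟨a, ha⟩ := h1.nonempty
  have h0 : CI A A := CI.oracle
  have h3 : CI A fun n => A n && decide (n ≠ a) := by fun_prop
  refine ⟨fun n => A n && decide (n ≠ a), hI.red_mem A hA _ (red_iff.1 h3),
    (h1.sdiff (Set.finite_singleton a)).mono fun n hn => by simpa using hn, a, fun x hx e => ?_⟩
  simp only [Bool.and_eq_true, decide_eq_true_eq] at hx
  obtain ⟨i, hi⟩ := h2 x (fun i => (hx i).1) (e ▸ ha)
  exact (hx i).2 (hi.symm.trans e)

theorem not_t2 (hI : TuringIdeal I) {F : List ℕ → ℕ} (hF : CI (fun _ => false) F)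
    (h : ∀ A ∈ I, {n | A n = true}.Infinite → ∀ c, ∃ l : List ℕ,
      l.length = k + 1 ∧ (∀ x ∈ l, A x = true) ∧ F l = c) (hm : k < m) : ¬ T2 I m := by
  intro h2
  obtain ⟨X, hX⟩ := hI.nonempty
  have h3 : CI X F := hF.mono (CI.const false)
  let d : ℕ → List ℕ := fun n => (decode (α := List ℕ) n.unpair.1).getD []
  have hd : CI X d :=
    CI.of_comp (CFP.optGetD (Computable.decode.comp (by fun_prop)) (by fun_prop))
  have he : CI X fun n => encode (d n) := (CI.of_comp Computable.encode).comp hd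
  have h4 : CI X fun n => decide ((d n).length = m ∧ encode (d n) = n.unpair.1 ∧
      F ((d n).take (k + 1)) = n.unpair.2) := by fun_prop
  obtain ⟨A, hA, h5, c, h6⟩ := h2 (fun x => F ((List.ofFn x).take (k + 1)))
    ⟨_, hI.red_mem X hX _ (red_iff.1 h4), fun n => by
      rw [decide_eq_true_eq]
      constructor
      · rintro ⟨e1, e2, e3⟩
        exact ⟨fun i => (d n).getD i 0, by
          beta_reduce
          rw [ofFn_getD e1, e2, e3, Nat.pair_unpair]⟩
      · rintro ⟨x, rfl⟩
        simp [d]⟩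
  obtain ⟨l, e1, e2, e3⟩ := h A hA h5 c
  obtain ⟨a, ha⟩ := h5.nonempty
  refine h6 (fun i => l.getD i a) (fun i => ?_) ?_
  · by_cases hi : i.val < l.length
    · rw [List.getD_eq_getElem _ _ hi]
      exact e2 _ (List.getElem_mem hi)
    · rw [List.getD_eq_default _ _ (not_lt.1 hi)]
      exact ha
  · rw [← e3]
    refine congrArg F (List.ext_getElem (by simp; omega) fun i h1 h2 => ?_)
    simp [h2]

end Model

theorem all_model : S_model := by
  rintro k I hI h ⟨F, hF, h'⟩ m
  exact ⟨fun hm _ => ⟨Model.t1 h hm, Model.t2 hI (Model.t1 h hm)⟩, fun hm =>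
    ⟨fun h1 => Model.not_t2 hI hF h' hm (Model.t2 hI h1), Model.not_t2 hI hF h' hm⟩⟩

end Pool.Agent.P.MP_9014a2_lc
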