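import Pool.Agent.P.MP_9014a2_lc.Runs

/-!
Single valued pieces of the type relation.
-/

namespace Pool.Agent.P.MP_9014a2_lc

open Finset

theorem all_pieces : S_pieces := by
  classical
  intro k C j σ _ S hC hj
  obtain ⟨X, hX, h⟩ := S.b3 j le_rfl
  have hd : ∀ t, ∃ e, ∀ n, col (C j) e n = true ↔
      (S.β (fd n.unpair.1) n.unpair.2 ∧ k ≤ zs k (fd n.unpair.1) + j) ∧ ((range n.unpair.2).filter
        fun u => S.β (fd n.unpair.1) u ∧ k ≤ zs k (fd n.unpair.1) + j).card = t := fun t =>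
    (hC.scott j).exists_col ⟨X, hX, DI.and
      (h.comp (g := fun n : ℕ => (fd n.unpair.1, n.unpair.2)) (by fun_prop))
      (DI.eq (CI.cardF (CI.filterF (h.comp (g := fun x : ℕ × ℕ => (fd x.1.unpair.1, x.2))
        (by fun_prop)) (by fun_prop))) (CI.const t))⟩
  choose e he using hd
  refine ⟨(range S.D).image fun t => fa (j + 1) (k - j) (e t) 0, fun a ha => ?_,
    fun T v hT hv => ?_⟩
  · obtain ⟨t, -, rfl⟩ := mem_image.1 ha
    exact ⟨lev_fa .., by rw [wt_fa]; omega⟩
  · obtain ⟨V, hV, hb⟩ := S.b2 T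
    have hl : ∀ {u w}, u < w → S.β T u → ((range u).filter fun u => S.β T u ∧ k ≤ zs k T + j) ⊂
        (range w).filter fun u => S.β T u ∧ k ≤ zs k T + j := fun huw hu =>
      (ssubset_iff_of_subset (filter_subset_filter _ (range_mono huw.le))).2
        ⟨_, mem_filter.2 ⟨mem_range.2 huw, hu, hT.ge⟩, by simp⟩
    refine ⟨_, mem_image_of_mem _ (mem_range.2 ((card_lt_card (hl v.lt_succ_self hv)).trans_le
      ((card_le_card fun u hu => hb u (mem_filter.1 hu).2.1).trans hV))), ?_, fun u hu => ?_⟩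
    · simp [G, he, hv, hT]
    · rw [← Bool.not_eq_true]
      simp only [G, lev_fa, ix_fa, Nat.add_sub_cancel, he, Nat.unpair_pair, fd_fc]
      exact fun h => (card_lt_card (hl hu h.1.1)).ne h.2

end Pool.Agent.P.MP_9014a2_lc
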