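import Pool.Agent.P.MP_9014a2_lc.Runs

/-!
The complexity of positivity.
-/

namespace Pool.Agent.P.MP_9014a2_lc

open Pool.Agent.Lib.Helper43 Encodable

namespace PosSig

/-- graphs of the atoms of bounded level -/
def GG (C : ℕ → ℕ → Bool) (q a n : ℕ) : Bool := if lev a ≤ q + 1 then G C a n else false

/-- the coded open class contains the join of the graphs -/
def Jm (C : ℕ → ℕ → Bool) (j q : ℕ) (γ : Finset ℕ) (e c : ℕ) (φ : ℕ → ℕ) : Prop :=
  jump (join (col (C j) e) (jn γ fun a => GG C q (φ a))) c = true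

/-- the list `l` describes a suitable assignment -/
def Wit (C : ℕ → ℕ → Bool) (j q : ℕ) (L : List ((ℕ × Finset ℕ × ℕ) × Bool))
    (x : Finset ℕ × ℕ × ℕ × ℕ) (l : List ℕ) : Prop :=
  (∀ a ∈ x.1, lev (l.getD a 0) = j + 1 ∧ wt (l.getD a 0) = wt a ∧ x.2.1 < l.getD a 0) ∧
    ¬ Jm C j j x.1 x.2.2.1 x.2.2.2 (fun a => l.getD a 0) ∧
    ∀ y ∈ L, (lev y.1.1 ≤ q + 1 ∧ val (G C y.1.1) (y.1.2.1.image fun a => l.getD a 0) y.1.2.2 ↔
      y.2 = true)

variable {α : Type} [Primcodable α] {C : ℕ → ℕ → Bool} {k j q : ℕ}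

theorem jn_eq {γ : Finset ℕ} {φ ψ : ℕ → ℕ} (h : ∀ a ∈ γ, φ a = ψ a ∧ lev (ψ a) ≤ q + 1) :
    (jn γ fun a => GG C q (φ a)) = jn γ fun a => G C (ψ a) := by
  funext n
  by_cases hn : n.unpair.1 ∈ γ
  · simp [jn, GG, (h _ hn).1, (h _ hn).2]
  · simp [jn, hn]

theorem sig_jm (hC : Tower C) (h : j ≤ q) {γ : α → Finset ℕ} {e c : α → ℕ} {φ : α → ℕ → ℕ}
    (hγ : Computable γ) (he : Computable e) (hc : Computable c)
    (hφ : Computable fun x : α × ℕ => φ x.1 x.2) :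
    Sig (C q) fun x => Jm C j q (γ x) (e x) (c x) (φ x) := by
  have h1 : CI (C q) (C j) := hC.red_le h
  have h2 : CI (C q) fun p : ℕ × ℕ => GG C q p.1 p.2 := hC.ci_G q
  refine Sig.jump_var (CI.join (CI.col (by fun_prop) (by fun_prop) (by fun_prop))
    (CI.jn (by fun_prop) ?_ (by fun_prop)) (by fun_prop)) (by fun_prop)
  exact h2.comp (g := fun x : ((α × ℕ) × ℕ) × ℕ × ℕ => (φ x.1.1.1 x.2.1, x.2.2))
    (CI.prodMk ((CI.of_comp hφ).comp (g := fun x : ((α × ℕ) × ℕ) × ℕ × ℕ => (x.1.1.1, x.2.1))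
      (by fun_prop)) (by fun_prop))

theorem di_wit (hC : Tower C) (h : j < q) :
    DI (C q) fun x : (List ((ℕ × Finset ℕ × ℕ) × Bool) × Finset ℕ × ℕ × ℕ × ℕ) × List ℕ =>
      Wit C j q x.1.1 x.1.2 x.2 := by
  refine DI.and (DI.allF (by fun_prop) (by fun_prop)) (DI.and (DI.not ?_)
    (DI.allL (DI.iff ?_ (by fun_prop)) (by fun_prop)))
  · exact (sig_jm hC le_rfl (by fun_prop) (by fun_prop) (by fun_prop) (by fun_prop)).di_jump.mono
      (hC.red_jump_of_lt h)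
  · exact (hC.di_val q).comp (g := fun y : ((List ((ℕ × Finset ℕ × ℕ) × Bool) × Finset ℕ × ℕ × ℕ × ℕ)
      × List ℕ) × (ℕ × Finset ℕ × ℕ) × Bool =>
        (y.2.1.1, y.2.1.2.1.image fun a => y.1.2.getD a 0, y.2.1.2.2)) (by fun_prop)

theorem neg_iff {L : List ((ℕ × Finset ℕ × ℕ) × Bool)} (hL : LevL (q + 1) L) :
    (∃ x : Finset ℕ × ℕ × ℕ × ℕ, (∀ c ∈ x.1, Virt k (j + 1) c ∧ lev c ≤ q + 1) ∧
      ¬ Jm C j q x.1 x.2.2.1 x.2.2.2 (fun a => a) ∧ ¬ ∃ l, Wit C j q L x l) ↔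
      ¬ PosL k C j (q + 1) L := by
  constructor
  · rintro ⟨⟨γ, n, e, c⟩, h1, h2, h3⟩ h
    rw [Jm, jn_eq (ψ := fun a => a) fun a ha => ⟨rfl, (h1 a ha).2⟩] at h2
    obtain ⟨φ, h4, h5, h6⟩ := h γ h1 n _ (col_mem _ e) (fun Z => jump (join (col (C j) e) Z) c = true)
      (S1.univ.comp (g := fun _ : Unit => c) (by fun_prop)) h2
    obtain ⟨N, hN⟩ := (γ.finite_toSet.union
      ((List.finite_toSet L).biUnion fun y _ => y.1.2.1.finite_toSet)).bddAbove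
    have h7 : ∀ a ≤ N, ((List.range (N + 1)).map φ).getD a 0 = φ a := fun a ha => by
      simp [List.getD_eq_getElem?_getD, Nat.lt_succ_of_le ha]
    have h8 : ∀ a ∈ γ, ((List.range (N + 1)).map φ).getD a 0 = φ a := fun a ha =>
      h7 a (hN (Or.inl ha))
    refine h3 ⟨(List.range (N + 1)).map φ, fun a ha => h8 a ha ▸ h4 a ha, ?_, fun y hy => ?_⟩
    · rwa [Jm, jn_eq (ψ := φ) fun a ha => ⟨h8 a ha, (h4 a ha).1.le⟩]
    · rw [and_iff_right (hL y hy).1, Finset.image_congr (g := φ) fun a ha =>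
        h7 a (hN (Or.inr (Set.mem_biUnion hy ha)))]
      exact h6 y hy
  · intro h
    by_contra h0
    refine h fun γ h1 n X hX P hP h2 => ?_
    obtain ⟨e, rfl⟩ := hX
    obtain ⟨c, hc⟩ := hP.exists_code
    by_contra h3
    refine h0 ⟨(γ, n, e, Nat.pair c (encode ())), h1, ?_, fun ⟨l, h4, h5, h6⟩ => h3
      ⟨fun a => l.getD a 0, h4, ?_, fun y hy => (and_iff_right (hL y hy).1).symm.trans (h6 y hy)⟩⟩
    · rwa [Jm, jn_eq (ψ := fun a => a) fun a ha => ⟨rfl, (h1 a ha).2⟩, ← hc]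
    · rwa [Jm, jn_eq (ψ := fun a => l.getD a 0) fun a ha => ⟨rfl, (h4 a ha).1.le⟩, ← hc] at h5

end PosSig

open PosSig in
theorem all_posSig : S_posSig := by
  intro k C j q hC h
  refine Sig.of_iff (Sig.and (Sig.of_di ?_) (Sig.ex (Sig.of_di (DI.and ?_ (DI.and (DI.not ?_)
    (DI.not ?_)))))) fun L => and_congr_right neg_iff
  · exact DI.allL (DI.and (by fun_prop) (DI.allF (by fun_prop) (by fun_prop))) (by fun_prop)
  · exact DI.allF (by fun_prop) (by fun_prop)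
  · exact (sig_jm hC h.le (by fun_prop) (by fun_prop) (by fun_prop) (by fun_prop)).di_jump
  · exact (Sig.ex (Sig.of_di (di_wit hC h))).di_jump

end Pool.Agent.P.MP_9014a2_lc
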