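import Pool.Agent.P.MP_9014a2_lc.Runs

/-!
Positivity is partition regular.
-/

namespace Pool.Agent.P.MP_9014a2_lc

namespace PosSplit

theorem op_jn {X : ℕ → Bool} {P : (ℕ → Bool) → Prop} (hP : Op X P) (γ : Finset ℕ) :
    Op X fun Z => P (jn γ (col Z)) := by
  refine S1.subst (Ψ := fun Z _ => jn γ (col Z)) hP ?_
  refine S1.of_iff (P := fun Z (x : Unit × ℕ × Bool) =>
    (x.2.1.unpair.1 ∈ γ ∧ Z x.2.1 = x.2.2) ∨ (¬ x.2.1.unpair.1 ∈ γ ∧ x.2.2 = false))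
    (S1.or (S1.and (S1.of_di (by fun_prop)) (S1.query (by fun_prop) (by fun_prop)))
      (S1.of_di (by fun_prop))) fun Z x => ?_
  by_cases h : x.2.1.unpair.1 ∈ γ <;> simp [jn, col, h]

theorem jn_jn {γ γ' : Finset ℕ} (h : γ ⊆ γ') (g : ℕ → ℕ → Bool) :
    jn γ (col (jn γ' g)) = jn γ g := by
  funext n
  by_cases hn : n.unpair.1 ∈ γ
  · simp only [jn, col_jn g (h hn)]
  · simp [jn, hn]

end PosSplit

open PosSplit

theorem all_posSplit : S_posSplit := by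
  intro k C j l L E hC h
  by_contra hn
  simp only [PosL, not_or, not_forall] at hn
  obtain ⟨⟨γ1, h1, n1, X1, hX1, P1, hP1, e1, f1⟩, γ2, h2, n2, X2, hX2, P2, hP2, e2, f2⟩ := hn
  obtain ⟨X, hX, r1, r2⟩ := (hC.scott j).exists_ub hX1 hX2
  have s1 : γ1 ⊆ γ1 ∪ γ2 := Finset.subset_union_left
  have s2 : γ2 ⊆ γ1 ∪ γ2 := Finset.subset_union_right
  obtain ⟨φ, a, b, c⟩ := h (γ1 ∪ γ2) (fun c hc => (Finset.mem_union.1 hc).elim (h1 c) (h2 c))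
    (max n1 n2) X hX (fun Z => P1 (jn γ1 (col Z)) ∨ P2 (jn γ2 (col Z)))
    (S1.or (op_jn (S1.mono hP1 r1) γ1) (op_jn (S1.mono hP2 r2) γ2))
    (by rw [jn_jn s1, jn_jn s2]; exact not_or.2 ⟨e1, e2⟩)
  rw [jn_jn s1, jn_jn s2, not_or] at b
  by_cases hv : val (G C E.1) (E.2.1.image φ) E.2.2
  · exact f1 ⟨φ, fun c hc => ⟨(a c (s1 hc)).1, (a c (s1 hc)).2.1,
      (le_max_left _ _).trans_lt (a c (s1 hc)).2.2⟩, b.1,
      List.forall_mem_cons.2 ⟨iff_of_true hv rfl, c⟩⟩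
  · exact f2 ⟨φ, fun c hc => ⟨(a c (s2 hc)).1, (a c (s2 hc)).2.1,
      (le_max_right _ _).trans_lt (a c (s2 hc)).2.2⟩, b.2,
      List.forall_mem_cons.2 ⟨iff_of_false hv Bool.false_ne_true, c⟩⟩

end Pool.Agent.P.MP_9014a2_lc
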