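import Pool.Agent.P.MP_9014a2_lc.Runs

/-!
Positivity does not depend on the level.
-/

namespace Pool.Agent.P.MP_9014a2_lc

namespace PosUp

/-- the columns of low level are read from `Z`, the others from `Z'` -/
def mrg (γ : Finset ℕ) (l : ℕ) (Z Z' : ℕ → Bool) : ℕ → Bool :=
  fun m => decide (m.unpair.1 ∈ γ) && (if lev m.unpair.1 ≤ l then Z m else Z' m)

theorem op_all {X : ℕ → Bool} {P : (ℕ → Bool) → Prop} (hP : Op X P) (γ : Finset ℕ) (l : ℕ) :
    Op X fun Z => ∀ Z', P (mrg γ l Z Z') := by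
  have h1 : S1 X fun U (_ : Unit) => P (mrg γ l (fun n => U (2 * n)) fun n => U (2 * n + 1)) := by
    refine S1.subst (P := fun Z (_ : Unit) => P Z)
      (Ψ := fun U _ => mrg γ l (fun n => U (2 * n)) fun n => U (2 * n + 1)) hP ?_
    refine S1.of_iff (P := fun U (x : Unit × ℕ × Bool) =>
      (¬ x.2.1.unpair.1 ∈ γ ∧ x.2.2 = false) ∨ (x.2.1.unpair.1 ∈ γ ∧
        U (if lev x.2.1.unpair.1 ≤ l then 2 * x.2.1 else 2 * x.2.1 + 1) = x.2.2))
      (S1.or (S1.of_di (by fun_prop)) (S1.and (S1.of_di (by fun_prop))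
        (S1.query (by fun_prop) (by fun_prop)))) fun U x => ?_
    by_cases h : x.2.1.unpair.1 ∈ γ <;> by_cases h' : lev x.2.1.unpair.1 ≤ l <;>
      simp [mrg, h, h']
  exact h1.forall_join.of_iff fun Z _ => by simp

theorem op_right {Y Z0 : ℕ → Bool} {P : (ℕ → Bool) → Prop} (hP : Op Y P) (h0 : Red Z0 Y)
    (γ : Finset ℕ) (l : ℕ) : Op Y fun Z' => P (mrg γ l Z0 Z') := by
  have h0' : CI Y Z0 := h0
  refine S1.subst (P := fun Z (_ : Unit) => P Z) (Ψ := fun U _ => mrg γ l Z0 U) hP ?_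
  refine S1.of_iff (P := fun U (x : Unit × ℕ × Bool) =>
    ((¬ x.2.1.unpair.1 ∈ γ ∧ x.2.2 = false) ∨
      (x.2.1.unpair.1 ∈ γ ∧ lev x.2.1.unpair.1 ≤ l ∧ Z0 x.2.1 = x.2.2)) ∨
      ((x.2.1.unpair.1 ∈ γ ∧ ¬ lev x.2.1.unpair.1 ≤ l) ∧ U x.2.1 = x.2.2))
    (S1.or (S1.of_di (by fun_prop)) (S1.and (S1.of_di (by fun_prop))
      (S1.query (by fun_prop) (by fun_prop)))) fun U x => ?_
  by_cases h : x.2.1.unpair.1 ∈ γ <;> by_cases h' : lev x.2.1.unpair.1 ≤ l <;>
    simp [mrg, h, h']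

theorem jn_mem {C : ℕ → Bool} (hC : Scott C) (T : Finset ℕ) (g : ℕ → ℕ → Bool)
    (hg : ∀ a ∈ T, g a ∈ M C) : jn T g ∈ M C := by
  obtain ⟨Z, hZ, h⟩ := hC.exists_ub_finset T g hg
  refine hC.red_mem hZ ((h.comp (g := fun n : ℕ => (n.unpair.1, n.unpair.2))
    (by fun_prop)).of_eq fun n => ?_)
  by_cases hn : n.unpair.1 ∈ T <;> simp [jn, hn]

end PosUp

open PosUp in
theorem all_posUp : S_posUp := by
  classical
  intro k C j l l' L hC hL hpos γ hγ n X hX P hP hn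
  have hS := hC.scott j
  set lo := γ.filter fun c => lev c ≤ l with hlo
  obtain ⟨φ0, h1, h2, h3⟩ := hpos lo (fun c hc => by
    rw [Finset.mem_filter] at hc
    exact ⟨(hγ c hc.1).1, hc.2⟩) n X hX _ (op_all hP γ l) fun h => hn (by
      have := h (jn γ (G C))
      rwa [show mrg γ l (jn lo (G C)) (jn γ (G C)) = jn γ (G C) from funext fun m => by
        by_cases h : m.unpair.1 ∈ γ <;> by_cases h' : lev m.unpair.1 ≤ l <;>
          simp [mrg, jn, hlo, h, h']] at this)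
  have hZ0 : jn lo (fun c => G C (φ0 c)) ∈ M (C j) :=
    jn_mem hS _ _ fun a ha => G_mem C (h1 a ha).1
  obtain ⟨Y, hY, hXY, hZY⟩ := hS.exists_ub hX hZ0
  obtain ⟨Z', hZ', h4⟩ := hS.wkl Y hY _ (op_right (S1.mono hP hXY) hZY γ l) (not_forall.1 h2)
  choose e he using fun c => hS.red_mem hZ' (red_col Z' c)
  refine ⟨fun c => if c ∈ γ ∧ l < lev c then fa (j + 1) (wt c) (e c) (n + 1) else φ0 c,
    fun c hc => ?_, fun h => h4 ?_, fun x hx => ?_⟩
  · by_cases h : l < lev c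
    · simp only [hc, h, and_self, if_true, lev_fa, wt_fa, true_and]
      exact le_fa _ _ _ _
    · simp only [h, and_false, if_false]
      exact h1 c (Finset.mem_filter.2 ⟨hc, not_lt.1 h⟩)
  · rwa [show mrg γ l (jn lo fun c => G C (φ0 c)) Z' = jn γ fun c => G C
      (if c ∈ γ ∧ l < lev c then fa (j + 1) (wt c) (e c) (n + 1) else φ0 c) from
        funext fun m => ?_]
    by_cases h : m.unpair.1 ∈ γ
    · by_cases h' : lev m.unpair.1 ≤ l
      · simp [mrg, jn, hlo, h, h', not_lt.2 h']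
      · have h5 := congrFun (he m.unpair.1) m.unpair.2
        simp only [col, Nat.pair_unpair] at h5
        simp [mrg, jn, h, h', not_le.1 h', G, col, h5]
    · simp [mrg, jn, h]
  · rw [← h3 x hx, Finset.image_congr (g := φ0) fun d hd => ?_]
    exact if_neg fun h => absurd ((hL x hx).2 d hd) (not_le.2 h.2)

end Pool.Agent.P.MP_9014a2_lc
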