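import Pool.Agent.P.MP_9014a2_lc.Runs

/-!
The question asked in the decision step is an open class.
-/

namespace Pool.Agent.P.MP_9014a2_lc

namespace Qop

variable {k j : ℕ} {C : ℕ → ℕ → Bool} {σ : Type} [Primcodable σ] {X : ℕ → Bool}

/-- admissible continuations are enumerable -/
theorem sig_cond (d : Dat k C j σ) (A S : Finset ℕ) (App : List (List σ)) (n : ℕ) (r : List σ)
    (h1 : Sig X fun p : σ × σ => d.S.Ext p.1 p.2)
    (h3 : DI X fun p : Finset ℕ × List (List σ) × ℕ => d.Fb0 A p.1 p.2.1 p.2.2) :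
    Sig X fun r' => d.Cond A S App n r r' := by
  refine Sig.and (Sig.of_di (by fun_prop)) (Sig.and (Sig.isChain h1 d.S.s0) (Sig.of_di
    (DI.and (DI.allF (by fun_prop) (by fun_prop)) (DI.and (DI.allF (by fun_prop) (by fun_prop))
      (DI.allF (DI.not ?_) (by fun_prop))))))
  exact h3.comp (g := fun x : List σ × ℕ => (A ∪ d.S.atm (d.cur x.1), x.1 :: App, x.2))
    (by fun_prop)

/-- the validity clause is an open class -/
theorem s1_valid (d : Dat k C j σ) (S γ : Finset ℕ) (r : List σ)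
    (h4 : DI X fun p : Finset ℕ × ℕ => OmL C j p.1 p.2) :
    S1 X fun Z (r' : List σ) => ∀ c ∈ γ, ∀ τ ⊆ d.S.atm (d.cur r') \ d.S.atm (d.cur r),
      zs k τ = wt c → ∀ v ∈ S ∪ d.S.pr (d.cur r'), val (col Z c) τ v → OmL C j τ v := by
  refine S1.allF (S1.allSub ?_ (by fun_prop)) (by fun_prop)
  refine S1.of_iff (P := fun Z (x : (List σ × ℕ) × Finset ℕ) => ¬ zs k x.2 = wt x.1.2 ∨
    ∀ v ∈ S ∪ d.S.pr (d.cur x.1.1), ¬ val (col Z x.1.2) x.2 v ∨ OmL C j x.2 v)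
    (S1.or (S1.of_di (by fun_prop)) (S1.allF (S1.or
      (S1.not_val (by fun_prop) (by fun_prop) (by fun_prop)) (S1.of_di ?_)) (by fun_prop)))
    fun Z x => by simp only [imp_iff_not_or]
  exact h4.comp (g := fun x : ((List σ × ℕ) × Finset ℕ) × ℕ => (x.1.2, x.2)) (by fun_prop)

/-- the second alternative is an open class -/
theorem s1_om (S γ : Finset ℕ) :
    S1 X fun Z (_ : Unit) => ∃ c ∈ γ, ∃ v ∈ S, Om C c v ∧ ∃ τ, val (col Z c) τ v := by
  classical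
  refine S1.of_iff (P := fun Z (_ : Unit) => ∃ x : ℕ × ℕ,
    x ∈ ((γ ×ˢ S).filter fun y => Om C y.1 y.2).toList ∧ ∃ τ, val (col Z x.1) τ x.2)
    (S1.ex (S1.and (S1.of_di (DI.memL (by fun_prop) (CI.const _)))
      (S1.ex (S1.val (by fun_prop) (by fun_prop) (by fun_prop))))) fun Z _ => ?_
  simp only [Finset.mem_toList, Finset.mem_filter, Finset.mem_product]
  exact ⟨fun ⟨x, ⟨⟨h1, h2⟩, h3⟩, h4⟩ => ⟨x.1, h1, x.2, h2, h3, h4⟩,
    fun ⟨c, h1, v, h2, h3, h4⟩ => ⟨(c, v), ⟨⟨h1, h2⟩, h3⟩, h4⟩⟩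

end Qop

theorem all_qop (h : S_fb0) : S_qop := by
  intro k C j σ _ d s S γ n i r
  obtain ⟨X1, hX1, h1⟩ := d.S.ext_sig
  obtain ⟨X3, hX3, h3⟩ := (h k C j σ d).2 s.A
  obtain ⟨X4, hX4, h4⟩ := d.tower.dm_omL j
  obtain ⟨U1, hU1, a1, a2⟩ := (d.tower.scott j).exists_ub hX1 d.hY
  obtain ⟨U2, hU2, a3, a4⟩ := (d.tower.scott j).exists_ub hX3 hX4
  obtain ⟨X, hX, b1, b2⟩ := (d.tower.scott j).exists_ub hU1 hU2
  refine ⟨X, hX, S1.or (S1.ex (S1.and (S1.of_sig ?_) (S1.and (S1.of_di ?_) ?_))) (Qop.s1_om S γ)⟩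
  · exact (Qop.sig_cond d s.A S s.App n r (h1.mono (a1.trans b1)) (h3.mono (a3.trans b2))).comp
      (g := fun x : Unit × List σ => x.2) (by fun_prop)
  · exact (di_halt (a2.trans b1)).comp (g := fun x : Unit × List σ => (i, x.2)) (by fun_prop)
  · exact (Qop.s1_valid d S γ r (h4.mono (a4.trans b2))).comp
      (g := fun x : Unit × List σ => x.2) (by fun_prop)

end Pool.Agent.P.MP_9014a2_lc
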