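import Pool.Agent.P.MP_9014a2_lc.Runs

/-!
A nonempty closed class of codes of Scott sets containing a given set.
-/

namespace Pool.Agent.P.MP_9014a2_lc

open Pool.Agent.Lib.Helper43 Encodable

namespace ScottC

/-- the search `c` accepts `join A Z` at stage `s` -/
def ac (A Z : ℕ → Bool) (c s : ℕ) : Bool := W c 0 (seg (join A Z) s)

theorem ac_mono {A Z : ℕ → Bool} {c s t : ℕ} (h : s ≤ t) (hs : ac A Z c s = true) :
    ac A Z c t = true := W_mono (seg_isPrefix _ h) hs

theorem ac_seg (A Z : ℕ → Bool) (c s : ℕ) :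
    ac A (fun i => (seg Z s).getD i false) c s = ac A Z c s := by
  have : seg (join A fun i => (seg Z s).getD i false) s = seg (join A Z) s :=
    seg_eq_iff.2 fun i hi => by simp only [join, seg_getD Z (show i / 2 < s by omega)]
  rw [ac, this, ac]

theorem exists_good (A : ℕ → Bool) (c : ℕ) :
    ∃ Z, ∀ s Z', ac A Z c s = true → ac A Z' c s = true := by
  classical
  by_cases h : ∃ Z, ∀ s, ¬ ac A Z c s = true
  · obtain ⟨Z, hZ⟩ := h
    exact ⟨Z, fun s _ hs => absurd hs (hZ s)⟩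
  · obtain ⟨N, hN⟩ := compact_seg
      (q := fun τ => ac A (fun i => τ.getD i false) c τ.length = true) fun Z => by
        by_contra h'
        refine h ⟨Z, fun s hs => h' ⟨s, ?_⟩⟩
        rwa [seg_length, ac_seg]
    have hex : ∃ N, ∀ Z, ac A Z c N = true := ⟨N, fun Z => by
      obtain ⟨s, hs, h1⟩ := hN Z
      rw [seg_length, ac_seg] at h1
      exact ac_mono hs h1⟩
    have h1 := Nat.find_spec hex
    rcases hk : Nat.find hex with _ | k
    · rw [hk] at h1
      exact ⟨A, fun s Z' _ => ac_mono (Nat.zero_le s) (h1 Z')⟩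
    · obtain ⟨Z, hZ⟩ := not_forall.1 (Nat.find_min hex (show k < Nat.find hex by omega))
      rw [hk] at h1
      refine ⟨Z, fun s Z' hs => ac_mono ?_ (h1 Z')⟩
      by_contra h2
      exact hZ (ac_mono (by omega) hs)

/-- a set that is accepted only when all sets are accepted -/
noncomputable def good (A : ℕ → Bool) (c : ℕ) : ℕ → Bool := (exists_good A c).choose

theorem good_spec (A : ℕ → Bool) (c s : ℕ) (Z' : ℕ → Bool) (h : ac A (good A c) c s = true) :
    ac A Z' c s = true := (exists_good A c).choose_spec s Z' h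

/-- the columns of a code -/
noncomputable def cols (X : ℕ → Bool) : ℕ → ℕ → Bool
  | 0 => X
  | m + 1 => if m % 2 = 0 then join (cols X (m / 2).unpair.1) (cols X (m / 2).unpair.2)
      else good (cols X (m / 2).unpair.1) (m / 2).unpair.2
decreasing_by
  all_goals
    have h1 := Nat.unpair_left_le (m / 2)
    have h2 := Nat.unpair_right_le (m / 2)
    omega

/-- the open class of bad codes -/
def Bad (X C : ℕ → Bool) : Prop :=
  (∃ n, C (Nat.pair 0 n) = !X n) ∨
  (∃ x : ℕ × ℕ × ℕ × Bool, C (Nat.pair (2 * Nat.pair x.1 x.2.1 + 1) x.2.2.1) = x.2.2.2 ∧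
    join (col C x.1) (col C x.2.1) x.2.2.1 = !x.2.2.2) ∨
  ∃ x : ℕ × ℕ × ℕ × List Bool,
    ac (col C x.1) (col C (2 * Nat.pair x.1 x.2.1 + 2)) x.2.1 x.2.2.1 = true ∧
    ac (col C x.1) (fun i => x.2.2.2.getD i false) x.2.1 x.2.2.1 = false

variable {α : Type} [Primcodable α] {X : ℕ → Bool}

theorem s1_join {e e' n : α → ℕ} {b : α → Bool} (he : CI X e) (he' : CI X e') (hn : CI X n)
    (hb : CI X b) : S1 X fun Z a => join (col Z (e a)) (col Z (e' a)) (n a) = b a := by
  refine (S1.query (f := fun a => Nat.pair (bif (n a).bodd then e' a else e a) (n a / 2))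
    (by fun_prop) hb).of_iff fun Z a => ?_
  simp only [join, col]
  cases (n a).bodd <;> rfl

theorem s1_W {c s : α → ℕ} {b : Bool} (hc : CI X c) (hs : CI X s) :
    S1 X fun Z a => W (c a) 0 (seg Z (s a)) = b := by
  refine ⟨fun x => x.2.length = s x.1 ∧ W (c x.1) 0 x.2 = b, Sig.of_di (by fun_prop),
    fun Z a => ⟨fun h => ⟨s a, seg_length _ _, h⟩, fun ⟨t, h1, h2⟩ => ?_⟩⟩
  rw [seg_length] at h1
  rwa [← h1]

theorem op_bad (X : ℕ → Bool) : Op X (Bad X) := by
  have hX := CI.oracle (X := X)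
  refine S1.or (S1.ex (S1.query (by fun_prop) (by fun_prop))) (S1.or (S1.ex (S1.and
    (S1.query (by fun_prop) (by fun_prop))
    (s1_join (by fun_prop) (by fun_prop) (by fun_prop) (by fun_prop)))) (S1.ex (S1.and ?_ ?_)))
  · exact S1.subst (Ψ := fun Z (x : Unit × ℕ × ℕ × ℕ × List Bool) =>
        join (col Z x.2.1) (col Z (2 * Nat.pair x.2.1 x.2.2.1 + 2)))
      (s1_W (c := fun x : Unit × ℕ × ℕ × ℕ × List Bool => x.2.2.1) (s := fun x => x.2.2.2.1)
        (by fun_prop) (by fun_prop))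
      (s1_join (by fun_prop) (by fun_prop) (by fun_prop) (by fun_prop))
  · refine S1.subst (Ψ := fun Z (x : Unit × ℕ × ℕ × ℕ × List Bool) =>
        join (col Z x.2.1) (fun i => x.2.2.2.2.getD i false))
      (s1_W (c := fun x : Unit × ℕ × ℕ × ℕ × List Bool => x.2.2.1) (s := fun x => x.2.2.2.1)
        (by fun_prop) (by fun_prop)) ?_
    refine (S1.or (S1.and (S1.of_di (p := fun x : (Unit × ℕ × ℕ × ℕ × List Bool) × ℕ × Bool =>
        x.2.1.bodd = false) (by fun_prop))
      (S1.query (f := fun x => Nat.pair x.1.2.1 (x.2.1 / 2)) (b := fun x => x.2.2)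
        (by fun_prop) (by fun_prop)))
      (S1.of_di (p := fun x : (Unit × ℕ × ℕ × ℕ × List Bool) × ℕ × Bool =>
        x.2.1.bodd = true ∧ x.1.2.2.2.2.getD (x.2.1 / 2) false = x.2.2) (by fun_prop))).of_iff
      fun Z x => ?_
    simp only [join, col]
    cases x.2.1.bodd <;> simp

theorem exists_not_bad (X : ℕ → Bool) : ∃ C, ¬ Bad X C := by
  have hc : ∀ e, col (fun n => cols X n.unpair.1 n.unpair.2) e = cols X e := fun e =>
    funext fun n => by simp only [col, Nat.unpair_pair]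
  refine ⟨fun n => cols X n.unpair.1 n.unpair.2, ?_⟩
  rintro (⟨n, h⟩ | ⟨⟨e, e', n, b⟩, h1, h2⟩ | ⟨⟨e, c, s, τ⟩, h1, h2⟩)
  · simp only [Nat.unpair_pair, cols] at h
    cases hx : X n <;> simp [hx] at h
  · simp only [Nat.unpair_pair, hc] at h1 h2
    rw [cols, if_pos (by omega), show 2 * Nat.pair e e' / 2 = Nat.pair e e' by omega,
      Nat.unpair_pair, h2] at h1
    cases b <;> simp at h1
  · simp only [hc] at h1 h2
    rw [cols, if_neg (by omega), show (2 * Nat.pair e c + 1) / 2 = Nat.pair e c by omega,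
      Nat.unpair_pair] at h1
    rw [good_spec _ _ _ _ h1] at h2
    exact Bool.noConfusion h2

end ScottC

theorem all_scott : S_scott := by
  intro X
  refine ⟨ScottC.Bad X, ScottC.op_bad X, ScottC.exists_not_bad X, fun C hC => ⟨⟨0, ?_⟩, ?_, ?_⟩⟩
  · funext n
    by_contra h
    refine hC (Or.inl ⟨n, ?_⟩)
    have h' : ¬ C (Nat.pair 0 n) = X n := h
    cases hx : X n <;> simp_all
  · rintro _ ⟨e, rfl⟩ _ ⟨e', rfl⟩
    refine ⟨2 * Nat.pair e e' + 1, funext fun n => ?_⟩
    by_contra h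
    refine hC (Or.inr (Or.inl ⟨(e, e', n, C (Nat.pair (2 * Nat.pair e e' + 1) n)), rfl, ?_⟩))
    have h' : ¬ C (Nat.pair (2 * Nat.pair e e' + 1) n) = join (col C e) (col C e') n := h
    show join (col C e) (col C e') n = !C (Nat.pair (2 * Nat.pair e e' + 1) n)
    cases hx : join (col C e) (col C e') n <;> simp_all
  · rintro _ ⟨e, rfl⟩ P hP ⟨Z, hZ⟩
    obtain ⟨c, hc⟩ := S1.exists_code hP
    have key : ∀ Z, P Z ↔ ∃ s, ScottC.ac (col C e) Z c s = true := fun Z => by
      refine (hc Z ()).trans (jump_iff.trans ?_)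
      rw [Nat.unpair_pair]
      rfl
    refine ⟨_, col_mem C (2 * Nat.pair e c + 2), fun h => ?_⟩
    obtain ⟨s, hs⟩ := (key _).1 h
    refine hC (Or.inr (Or.inr ⟨(e, c, s, seg Z s), hs, ?_⟩))
    show ScottC.ac (col C e) (fun i => (seg Z s).getD i false) c s = false
    rw [ScottC.ac_seg]
    exact Bool.eq_false_iff.2 fun h' => hZ ((key Z).2 ⟨s, h'⟩)

end Pool.Agent.P.MP_9014a2_lc
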