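import Pool.Agent.P.MP_9014a2_lc.Runs

/-!
Continuing a recorded run.
-/

namespace Pool.Agent.P.MP_9014a2_lc

theorem all_nsServe (hg : S_good) (ha : S_alive) : S_nsServe := by
  intro k C j σ _ d s S γ n r hs hS hF hγ hA hsch hr
  obtain ⟨γ', h1, h2, h3, h4⟩ := ha k C j σ d s S γ r hs hr hF hγ hA
  obtain ⟨b, hb⟩ := ((hg k C j σ d).2.2 s hs).bddAbove
  obtain ⟨r1, r2, r3, r4⟩ := hs.2.1 r hr
  have g0 := d.good_cur r1 r2
  obtain ⟨s1, e1, e2, e3, e4, e5⟩ := d.S.ns _ g0 S (r4.trans hS)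
    (fun v hv h => hF v hv (Or.inr (Or.inl ⟨r, hr, Or.inl h⟩))) γ' h2 h4 (n + s.m + b)
  have g1 := d.S.good_ext _ _ g0 e1
  have new : ∀ a ∈ s.A ∪ d.S.atm s1, a ∉ s.A → a ∈ d.S.atm s1 \ d.S.atm (d.cur r) := fun a h h' =>
    Finset.mem_sdiff.2 ⟨(Finset.mem_union.1 h).resolve_left h', fun h => h' (r3 h)⟩
  have old : ∀ v ∈ d.S.pr s1, ¬ d.Fb s v := fun v hv h => by
    by_cases h' : v ∈ S
    · exact hF v h' h
    · have := e4 v (Finset.mem_sdiff.2 ⟨hv, h'⟩)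
      have := hb h
      omega
  have key : ∀ h ∈ s.A ∪ d.P0, lev h = j + 1 → ∀ τ ⊆ s.A ∪ d.S.atm s1, (∀ a ∈ τ, lev a ≤ j) →
      zs k τ = wt h → ∀ v ∈ d.S.pr s1, val (G C h) τ v → ¬ OmL C j τ v → τ ⊆ s.A := by
    intro h hh hl τ hτ hj hz v hv hval hom
    by_contra hne
    have t1 : τ \ s.A ⊆ d.S.atm s1 \ d.S.atm (d.cur r) := fun a ha =>
      new a (hτ (Finset.mem_sdiff.1 ha).1) (Finset.mem_sdiff.1 ha).2
    have t2 : τ ∩ s.A ∪ τ \ s.A = τ := by rw [Finset.union_comm, Finset.sdiff_union_inter]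
    have t3 := zs_union (k := k) (Finset.disjoint_sdiff_inter τ s.A).symm
    have t4 := card_le_zs (k := k) fun a ha => (d.S.real s1 g1 a (Finset.mem_sdiff.1 (t1 ha)).1).2
    have t5 := Finset.card_pos.2 (Finset.sdiff_nonempty.2 hne)
    rw [t2] at t3
    obtain ⟨-, b1, b2⟩ := d.hB.2 h (τ ∩ s.A) hl
    obtain ⟨a, a1, a2⟩ := e5 _ (h3 h hh hl _ Finset.inter_subset_right
      (fun a ha => hj a (Finset.mem_inter.1 ha).1) (by omega)) _ t1 (by omega) v hv
      ((b2 _ v).2 ⟨t2.symm ▸ hval, fun ⟨a, a1, a2⟩ => hom ⟨a, (Finset.mem_inter.1 a1).1, a2⟩⟩)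
    exact hom ⟨a, (Finset.mem_sdiff.1 a1).1, hj a (Finset.mem_sdiff.1 a1).1, a2⟩
  have big : ∀ a ∈ (s.A ∪ d.S.atm s1) \ s.A, a ∈ d.S.atm s1 \ d.S.atm (d.cur r) := fun a ha =>
    new a (Finset.mem_sdiff.1 ha).1 (Finset.mem_sdiff.1 ha).2
  refine ⟨(s.A ∪ d.S.atm s1, d.S.pr s1, (r ++ [s1]) :: s.App,
    max s.m ((s.A ∪ d.S.atm s1).sup id), some (r ++ [s1]), s.t + 1),
    ⟨hS.trans e3, old, fun v hv => ?_, Finset.subset_union_left, fun a ha => ?_, le_max_left _ _,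
      fun a ha => le_max_of_le_right (Finset.le_sup (f := id) ha), rfl,
      Or.inr (Or.inl ⟨(r, none), r ++ [s1], hsch, hr, rfl, List.prefix_append _ _,
        d.isChain_concat r2 e1, by rw [d.cur_concat], rfl, by rw [d.cur_concat], fun a ha => ?_,
        fun _ => by simp, fun i hi => by simp at hi⟩)⟩,
    fun a ha => by have := e2 a (big a ha); omega, e3,
    fun v hv => by have := e4 v hv; omega, fun c hc τ hτ => e5 c (h1 hc) τ (hτ.trans big)⟩
  · rintro (⟨-, h⟩ | ⟨r', hr', h⟩ | ⟨h, hh, hl, τ, hτ, hj, hz, hval, hom⟩)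
    · exact h hv
    · rcases List.mem_cons.1 hr' with rfl | hr'
      · rw [d.cur_concat] at h
        rcases h with h | ⟨T, hT, hz, hβ, hom⟩
        · exact d.S.avoid s1 g1 v hv h
        · obtain ⟨a, a1, a2⟩ := d.hP0.2 T v hz hβ
          obtain ⟨a3, a4⟩ := d.hP0.1 a a1
          have := key a (Finset.mem_union_right _ a1) a3 T (hT.trans Finset.subset_union_right)
            (fun c hc => (d.S.real s1 g1 c (hT hc)).1) (by omega) v hv a2 hom
          refine old v hv (Or.inr (Or.inl ⟨r, hr, Or.inr ⟨T, fun c hc => by_contra fun h => ?_,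
            hz, hβ, hom⟩⟩))
          have h5 := e2 c (Finset.mem_sdiff.2 ⟨hT hc, h⟩)
          have h6 := (hs.1 c (this hc)).2.2
          omega
      · exact old v hv (Or.inr (Or.inl ⟨r', hr', h⟩))
    · have h5 : h ∈ s.A := (Finset.mem_union.1 hh).resolve_right fun h6 => by
        have := (d.S.real s1 g1 h h6).1
        omega
      exact old v hv (Or.inr (Or.inr ⟨h, h5, hl, τ, key h (Finset.mem_union_left _ h5) hl τ hτ
        (fun a ha => (hj a ha).1) hz v hv hval hom, hj, hz, hval, hom⟩))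
  · have h5 := e2 a (big a ha)
    have h6 := d.S.real s1 g1 a (Finset.mem_sdiff.1 (big a ha)).1
    exact ⟨by omega, by omega, h6.2⟩
  · rw [d.cur_concat] at ha
    have := e2 a ha
    omega

end Pool.Agent.P.MP_9014a2_lc
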