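import Pool.Agent.P.MP_9014a2_lc.Runs

/-!
The top level: a system of level `k - 1` has a solution computable in a member of its Scott set.
-/

namespace Pool.Agent.P.MP_9014a2_lc

theorem all_top (hp : S_pieces) : S_top := by
  intro k C j σ _ S hC hk
  obtain ⟨P0, hP, hP'⟩ := hp k C j σ S hC (by omega)
  choose V _ hV using S.b2
  let N0 := P0.powerset.biUnion V
  let J : σ → Prop := fun s => (∀ T ⊆ S.atm s, ∀ v ∈ S.pr s,
    (S.β T v ∧ k ≤ zs k T + j) → OmL C j T v) ∧ ∀ v ∈ S.pr s, v ∉ N0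
  have alive : ∀ s, S.good s → J s → Alive C S.β (S.atm s ∪ P0) (S.pr s) := by
    intro s hs hJ T hT v hv hb
    obtain ⟨-, h1, h2⟩ := S.b1 T v hb
    by_cases h0 : T ⊆ P0
    · exact absurd (Finset.mem_biUnion.2 ⟨T, Finset.mem_powerset.2 h0, hV T v hb⟩) (hJ.2 v hv)
    obtain ⟨a, ha, ha'⟩ := Finset.not_subset.1 h0
    have h3 := (S.real s hs a ((Finset.mem_union.1 (hT ha)).resolve_right ha')).2
    have h4 : z k a ≤ zs k T := Finset.single_le_sum (f := z k) (fun _ _ => Nat.zero_le _) ha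
    refine (hJ.1 T (fun b hb' => (Finset.mem_union.1 (hT hb')).resolve_right fun hb0 => ?_) v hv
      ⟨hb, by omega⟩).omS
    have h5 := (hP b hb0).1
    have := h2 b hb' (by omega)
    omega
  have total : ∀ s, S.good s ∧ J s → ∃ s', S.Ext s s' ∧ J s' := by
    rintro s ⟨hs, hJ⟩
    obtain ⟨s', he, -, -, hn, hval⟩ := S.ns s hs (S.pr s) (Finset.Subset.refl _) (S.avoid s hs) P0
      (fun c hc => by have := hP c hc; unfold Virt; omega) (alive s hs hJ)
      ((N0 ∪ (S.atm s).powerset.biUnion V).sup id)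
    have big : ∀ v ∈ S.pr s', v ∈ N0 ∪ (S.atm s).powerset.biUnion V → v ∈ S.pr s := by
      intro v hv hv'
      by_contra h
      exact (hn v (Finset.mem_sdiff.2 ⟨hv, h⟩)).not_ge (Finset.le_sup (f := id) hv')
    have hs' := S.real s' (S.good_ext s s' hs he)
    refine ⟨s', he, fun T hT v hv hb => ?_, fun v hv h => hJ.2 v
      (big v hv (Finset.mem_union_left _ h)) h⟩
    by_cases h0 : T ⊆ S.atm s
    · exact hJ.1 T h0 v (big v hv (Finset.mem_union_right _ (Finset.mem_biUnion.2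
        ⟨T, Finset.mem_powerset.2 h0, hV T v hb.1⟩))) hb
    obtain ⟨a, ha, ha'⟩ := Finset.not_subset.1 h0
    have h1 := (S.b1 T v hb.1).2.1
    have h2 := hb.2
    have h3 := card_le_zs (k := k) fun b hb' => (hs' b (hT hb')).2
    obtain ⟨c, hc, hcv⟩ := hP' T v (by omega) hb.1
    have h4 := (hP c hc).2
    refine (omL_iff fun b hb' => (hs' b (hT hb')).1).2 (hval c hc T (fun b hb' => ?_) (by omega)
      v hv hcv)
    obtain rfl : a = b := Finset.card_le_one.1 (by omega) a ha b hb'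
    exact Finset.mem_sdiff.2 ⟨hT ha, ha'⟩
  obtain ⟨X1, hX1, e1⟩ := S.ext_sig
  obtain ⟨X2, hX2, e2⟩ := S.b3 j le_rfl
  obtain ⟨X3, hX3, e3⟩ := hC.dm_omL j
  obtain ⟨X4, hX4, r1, r2⟩ := (hC.scott j).exists_ub hX1 hX2
  obtain ⟨X, hX, r4, r3⟩ := (hC.scott j).exists_ub hX4 hX3
  have f2 := e2.mono (r2.trans r4)
  have f3 := e3.mono r3
  have ca := S.atm_comp
  have cp := S.pr_comp
  have hJ : DI X fun p : σ × σ => J p.2 := by
    refine DI.and (DI.allSub (DI.allF (DI.imp ?_ ?_) (by fun_prop)) (by fun_prop))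
      (DI.allF (by fun_prop) (by fun_prop))
    · exact f2.comp (g := fun x : ((σ × σ) × Finset ℕ) × ℕ => (x.1.2, x.2)) (by fun_prop)
    · exact f3.comp (g := fun x : ((σ × σ) × Finset ℕ) × ℕ => (x.1.2, x.2)) (by fun_prop)
  have h0 : S.good S.s0 ∧ J S.s0 := ⟨S.good0, by simp [J, S.pr0]⟩
  have hI : ∀ s s', S.good s ∧ J s → S.Ext s s' ∧ J s' → S.good s' ∧ J s' :=
    fun s s' h h' => ⟨S.good_ext s s' h.1 h'.1, h'.2⟩
  obtain ⟨R, hR, R0, R1⟩ := exists_path (r := fun s s' => S.Ext s s' ∧ J s')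
    (I := fun s => S.good s ∧ J s) ((e1.mono (r1.trans r4)).and (Sig.of_di hJ)) h0 hI total
  have hR' : ∀ t, S.good (R t) ∧ J (R t) := fun t => by
    induction t with
    | zero => exact R0 ▸ h0
    | succ t ih => exact hI _ _ ih (R1 t)
  exact ⟨R, ⟨R0, fun t => (R1 t).1, fun t T hT => alive _ (hR' t).1 (hR' t).2 T
    (hT.trans Finset.subset_union_left)⟩, X, hX, hR⟩

end Pool.Agent.P.MP_9014a2_lc
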