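import Pool.Agent.P.MP_9014a2_lc.Runs

/-!
Ultrafilters decided level by level.
-/

namespace Pool.Agent.P.MP_9014a2_lc

open Encodable

namespace Ult

/-- a positive set of literals extends to a positive set that decides every event -/
theorem ext {ι : Type} {Pos : List (ι × Bool) → Prop} (mono : ∀ L L', L ⊆ L' → Pos L' → Pos L)
    (split : ∀ L E, Pos L → Pos ((E, true) :: L) ∨ Pos ((E, false) :: L)) (A : Set (ι × Bool))
    (hA : ∀ L, (∀ x ∈ L, x ∈ A) → Pos L) :
    ∃ g : ι → Bool, ∀ L, (∀ x ∈ L, x ∈ A ∨ g x.1 = x.2) → Pos L := by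
  classical
  obtain ⟨T, h1, h2⟩ := zorn_subset_nonempty {T : Set (ι × Bool) | ∀ L, (∀ x ∈ L, x ∈ T) → Pos L}
    (fun c hc ch ⟨T0, h0⟩ => ⟨⋃₀ c, fun L hL => by
      have : ∃ T ∈ c, ∀ x ∈ L, x ∈ T := by
        induction L with
        | nil => exact ⟨T0, h0, by simp⟩
        | cons y L ih =>
          obtain ⟨T, a, b⟩ := ih fun x hx => hL x (List.mem_cons_of_mem _ hx)
          obtain ⟨T', a', b'⟩ := hL y List.mem_cons_self
          obtain ⟨U, u, u1, u2⟩ := ch.directedOn T a T' a'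
          exact ⟨U, u, List.forall_mem_cons.2 ⟨u2 b', fun x hx => u1 (b x hx)⟩⟩
      obtain ⟨T, a, b⟩ := this
      exact hc a L b, fun _ => Set.subset_sUnion_of_mem⟩) A hA
  have key : ∀ y, y ∉ T → ∃ L, (∀ x ∈ L, x ∈ T) ∧ ∀ L', L ⊆ L' → ¬ Pos (y :: L') := by
    intro y hy
    by_contra hc
    refine hy (h2.2 (y := insert y T) (fun L hL => by_contra fun hn => hc
      ⟨L.filter (· ∈ T), by simp, fun L' a b => hn (mono _ _ (fun x hx => ?_) b)⟩)
      (Set.subset_insert _ _) (Set.mem_insert _ _))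
    exact List.mem_cons.2 ((hL x hx).imp_right fun h => a (by simpa using ⟨hx, h⟩))
  refine ⟨fun E => decide ((E, true) ∈ T), fun L hL => h2.1 L fun x hx =>
    (hL x hx).elim (fun h => h1 h) ?_⟩
  obtain ⟨E, b⟩ := x
  rintro (rfl : decide ((E, true) ∈ T) = b)
  by_cases h : (E, true) ∈ T
  · simpa [h]
  by_contra h'
  obtain ⟨L1, a1, b1⟩ := key _ h
  obtain ⟨L2, a2, b2⟩ := key (E, false) (by simpa [h] using h')
  exact (split (L1 ++ L2) E (h2.1 _ (List.forall_mem_append.2 ⟨a1, a2⟩))).elim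
    (b1 _ (List.subset_append_left _ _)) (b2 _ (List.subset_append_right _ _))

end Ult

theorem all_ult : S_ult := by
  intro C hC ι _ s lv Pos hlv h0 mono split sig
  let I : ℕ → (ι → Bool) → Prop := fun q f =>
    (∀ L, (∀ x ∈ L, lv x.1 < q ∧ f x.1 = x.2) → Pos L) ∧ ∃ X ∈ M (C (s + (q - 1))), CI X f
  have step : ∀ q f, I q f → ∃ g, I (q + 1) g ∧ ∀ E, lv E < q → g E = f E := by
    rintro q f ⟨h1, X, hX, hf⟩
    obtain ⟨Y, hY, hs⟩ := sig q
    obtain ⟨U, hU, r1, r2⟩ := (hC.scott _).exists_ub (hC.mem_mono (by omega) hX) hY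
    replace hf := hf.mono r1
    obtain ⟨g, hg⟩ := Ult.ext mono split {x | lv x.1 < q ∧ f x.1 = x.2} h1
    obtain ⟨Z, hZ, h2⟩ := (hC.scott _).wkl U hU (fun Z => ∃ L : List (ι × Bool),
      ((∀ x ∈ L, lv x.1 ≤ q) ∧ ¬ Pos L) ∧ ∀ x ∈ L, (lv x.1 < q ∧ f x.1 = x.2) ∨
        (¬ lv x.1 < q ∧ Z (encode x.1) = x.2))
      (S1.ex (S1.and (S1.of_sig ((hs.mono r2).comp (g := fun x : Unit × List (ι × Bool) => x.2)
        (by fun_prop))) (S1.allL (S1.or (S1.of_di (by fun_prop)) (S1.and (S1.of_di (by fun_prop))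
          (S1.query (by fun_prop) (by fun_prop)))) (by fun_prop))))
      ⟨fun n => ((decode n).map g).getD false, fun ⟨L, a, b⟩ => a.2 (hg L fun x hx =>
        (b x hx).imp_right fun h => by simpa [encodek] using h.2)⟩
    obtain ⟨V, hV, r3, r4⟩ := (hC.scott _).exists_ub hU hZ
    replace hf := hf.mono r3
    have hz : CI V Z := r4
    refine ⟨fun E => if lv E < q then f E else Z (encode E), ⟨fun L hL => by_contra fun hn =>
      h2 ⟨L, ⟨fun x hx => Nat.le_of_lt_succ (hL x hx).1, hn⟩, fun x hx => ?_⟩, V, hV,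
        by fun_prop⟩, fun E h => if_pos h⟩
    by_cases h : lv x.1 < q
    · exact Or.inl ⟨h, by simpa [h] using (hL x hx).2⟩
    · exact Or.inr ⟨h, by simpa [h] using (hL x hx).2⟩
  choose! nx h1 h2 using step
  let F : ℕ → ι → Bool := fun q => Nat.rec (fun _ => false) nx q
  have hF : ∀ q, I q (F q) := fun q => by
    induction q with
    | zero =>
      refine ⟨fun L hL => ?_, _, col_mem _ 0, CI.const _⟩
      rwa [List.eq_nil_iff_forall_not_mem.2 fun x hx => Nat.not_lt_zero _ (hL x hx).1]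
    | succ q ih => exact h1 q _ ih
  have ag : ∀ E q, lv E < q → F q E = F (lv E + 1) E := fun E q h => by
    induction h with
    | refl => rfl
    | @step q h ih => exact (h2 q _ (hF q) E h).trans ih
  refine ⟨fun E => F (lv E + 1) E, fun L hL => ?_, fun q => ?_⟩
  · have : ∀ x ∈ L, lv x.1 < (L.map fun x => lv x.1).sum + 1 := fun x hx =>
      Nat.lt_succ_of_le (List.single_le_sum (by simp) _ (List.mem_map_of_mem hx))
    exact (hF _).1 L fun x hx => ⟨this x hx, (ag _ _ (this x hx)).trans (hL x hx)⟩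
  · obtain ⟨X, hX, h⟩ := (hF (q + 1)).2
    exact ⟨X, hX, DI.of_iff (p := fun E => F (q + 1) E = true ∧ lv E ≤ q) (by fun_prop)
      fun E => and_congr_left fun h => by rw [ag E _ (Nat.lt_succ_of_le h)]⟩

end Pool.Agent.P.MP_9014a2_lc
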