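import Pool.Agent.P.MP_9014a2_lc.Iface

/-!
Small facts about runs and the step construction.
-/

namespace Pool.Agent.P.MP_9014a2_lc

open Pool.Agent.Lib.Helper43 Encodable

variable {α σ : Type} [Primcodable α] [Primcodable σ] {X Y : ℕ → Bool}

/-- the jump of a computable family of oracles -/
theorem Sig.jump_var {g : α → ℕ → Bool} {n : α → ℕ} (hg : CI X fun x : α × ℕ => g x.1 x.2)
    (hn : CI X n) : Sig X fun a => jump (g a) (n a) = true :=
  Sig.of_iff (Sig.ex (r := fun a (s : ℕ) => W (n a).unpair.1 (n a).unpair.2 (seg (g a) s) = true)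
    (Sig.of_di (by fun_prop))) fun _ => jump_iff.symm

theorem Sig.isChain {r : σ → σ → Prop} (hr : Sig X fun p : σ × σ => r p.1 p.2) (s0 : σ) :
    Sig X fun l : List σ => l.IsChain r := by
  refine Sig.of_iff (p := fun l : List σ => ∀ i < l.length - 1, r (l.getD i s0) (l.getD (i + 1) s0))
    (Sig.allLt (hr.comp (g := fun x : List σ × ℕ => (x.1.getD x.2 s0, x.1.getD (x.2 + 1) s0))
      (by fun_prop)) (by fun_prop)) fun l => ?_
  rw [List.isChain_iff_getElem]
  refine ⟨fun h i hi => ?_, fun h i hi => ?_⟩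
  · have := h i (by omega)
    rwa [List.getD_eq_getElem _ _ (by omega), List.getD_eq_getElem _ _ hi] at this
  · rw [List.getD_eq_getElem _ _ (by omega), List.getD_eq_getElem _ _ (by omega)]
    exact h i (by omega)

theorem ci_gr (R : ℕ → σ) : CI (gr R) R := by
  have := CI.oracle (X := gr R)
  exact CI.of_graph (Sig.of_di (DI.of_bool (f := fun x : ℕ × σ => gr R (Nat.pair x.1 (encode x.2)))
    (by fun_prop) fun x => by simp [gr]))

theorem red_gr {R : ℕ → σ} (h : CI X R) : Red (gr R) X := by
  unfold Red gr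
  fun_prop

@[fun_prop] theorem computable_grL {r : α → List σ} {n : α → ℕ} (hr : Computable r)
    (hn : Computable n) : Computable fun a => grL (r a) (n a) := by
  unfold grL
  refine CFP.decEq (CFP.optMap (g := fun _ x => encode x) (by fun_prop) (by fun_prop)) (by fun_prop)

theorem di_halt (h : Red Y X) : DI X fun p : ℕ × List σ => Halt Y p.1 p.2 := by
  have h1 : CI X Y := h
  unfold Halt
  fun_prop

theorem halt_iff {R : ℕ → σ} {i m : ℕ} : Halt Y i ((List.range m).map R) ↔
    W i.unpair.1 i.unpair.2 (seg (join (gr R) Y) m) = true := by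
  have : seg (join (grL ((List.range m).map R)) Y) m = seg (join (gr R) Y) m :=
    seg_eq_iff.2 fun n hn => by
      have h1 : (n / 2).unpair.1 < m := (Nat.unpair_left_le _).trans_lt (by omega)
      simp [join, grL, gr, h1]
  simp only [Halt, List.length_map, List.length_range, this]

theorem halt_mono {R : ℕ → σ} {i m m' : ℕ} (h : m ≤ m') (hm : Halt Y i ((List.range m).map R)) :
    Halt Y i ((List.range m').map R) :=
  halt_iff.2 (W_mono (seg_isPrefix _ h) (halt_iff.1 hm))

theorem jump_iff_halt {R : ℕ → σ} {i : ℕ} :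
    jump (join (gr R) Y) i = true ↔ ∃ m, Halt Y i ((List.range m).map R) := by
  simp only [jump_iff, halt_iff]

@[fun_prop] theorem computable_sched : Computable (sched σ) :=
  Computable.decode.comp (by fun_prop)

theorem exists_sched (x : List σ × Option ℕ) (n : ℕ) : ∃ t, n ≤ t ∧ sched σ t = some x :=
  ⟨Nat.pair (encode x) n, Nat.right_le_pair _ _, by simp only [sched, Nat.unpair_pair, encodek]⟩

theorem zs_union {k : ℕ} {T U : Finset ℕ} (h : Disjoint T U) : zs k (T ∪ U) = zs k T + zs k U :=
  Finset.sum_union h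

theorem zs_union_le (k : ℕ) (T U : Finset ℕ) : zs k (T ∪ U) ≤ zs k T + zs k U := by
  have := Finset.sum_union_inter (s₁ := T) (s₂ := U) (f := z k)
  unfold zs
  omega

theorem card_le_zs {k : ℕ} {T : Finset ℕ} (h : ∀ a ∈ T, 1 ≤ z k a) : T.card ≤ zs k T := by
  simpa [zs] using Finset.card_nsmul_le_sum T (z k) 1 h

theorem om_iff {C : ℕ → ℕ → Bool} {a v : ℕ} (h : lev a ≠ 0) :
    Om C a v ↔ ∀ τ, ¬ val (G C a) τ v := by simp [Om, h]

namespace Dat

variable {k j : ℕ} {C : ℕ → ℕ → Bool} (d : Dat k C j σ)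

@[fun_prop] theorem computable_cur : Computable d.cur := by
  have : Computable fun r : List σ => r.reverse.head?.getD d.S.s0 := by fun_prop
  exact this.of_eq fun r => by simp [cur, List.getLastD_eq_getLast?]

@[fun_prop] theorem computable_atm : Computable d.S.atm := d.S.atm_comp

@[fun_prop] theorem computable_pr : Computable d.S.pr := d.S.pr_comp

@[simp] theorem cur_concat (r : List σ) (s : σ) : d.cur (r ++ [s]) = s := by simp [cur]

@[simp] theorem cur_singleton (s : σ) : d.cur [s] = s := rfl

theorem cur_range (R : ℕ → σ) (m : ℕ) : d.cur ((List.range (m + 1)).map R) = R m := by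
  simp [List.range_succ]

theorem isChain_concat {r : List σ} {s : σ} (h : r.IsChain d.S.Ext) (hs : d.S.Ext (d.cur r) s) :
    (r ++ [s]).IsChain d.S.Ext := by
  refine List.IsChain.append h (List.isChain_singleton _) fun x hx y hy => ?_
  obtain rfl : s = y := by simpa using hy
  rwa [show d.cur r = x by simp [cur, List.getLastD_eq_getLast?, Option.mem_def.1 hx]] at hs

theorem good_cur {r : List σ} (hr : r.head? = some d.S.s0) (h : r.IsChain d.S.Ext) :
    d.S.good (d.cur r) := by
  induction r using List.reverseRecOn with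
  | nil => exact d.S.good0
  | append_singleton r s ih =>
    rw [cur_concat]
    cases r with
    | nil =>
      obtain rfl : s = d.S.s0 := by simpa using hr
      exact d.S.good0
    | cons a r =>
      obtain ⟨h1, -, h2⟩ := List.isChain_append.1 h
      refine d.S.good_ext _ _ (ih (by simpa using hr) h1) (h2 _ ?_ _ (by simp))
      simp [cur, List.getLastD_eq_getLast?, List.getLast?_eq_some_getLast]

theorem head_of_isPrefix {r r' : List σ} (hr : r.head? = some d.S.s0) (h : r <+: r') :
    r'.head? = some d.S.s0 := by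
  obtain ⟨u, rfl⟩ := h
  simp [List.head?_append, hr]

theorem cur_mono {r r' : List σ} (hr : r.head? = some d.S.s0) (h : r <+: r')
    (hc : r'.IsChain d.S.Ext) :
    d.S.atm (d.cur r) ⊆ d.S.atm (d.cur r') ∧ d.S.pr (d.cur r) ⊆ d.S.pr (d.cur r') := by
  obtain ⟨u, rfl⟩ := h
  induction u using List.reverseRecOn with
  | nil => simp
  | append_singleton u s ih =>
    rw [← List.append_assoc] at hc ⊢
    obtain ⟨h1, -, h2⟩ := List.isChain_append.1 hc
    have hne : r ++ u ≠ [] := by
      rintro h
      simp [(List.append_eq_nil_iff.1 h).1] at hr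
    have h3 := d.S.mono _ _ (h2 (d.cur (r ++ u)) (by
      simp [cur, List.getLastD_eq_getLast?, List.getLast?_eq_some_getLast hne]) s (by simp))
    rw [cur_concat]
    exact ⟨(ih h1).1.trans h3.1, (ih h1).2.trans h3.2⟩

theorem Fb0_mono {H H' A A' : Finset ℕ} {App App' : List (List σ)} {v : ℕ} (hH : H ⊆ H')
    (hA : A ⊆ A') (hApp : App ⊆ App') (h : d.Fb0 H A App v) : d.Fb0 H' A' App' v := by
  rcases h with ⟨r, hr, h⟩ | ⟨h, hh, h1, τ, hτ, h2⟩
  · exact Or.inl ⟨r, hApp hr, h⟩
  · exact Or.inr ⟨h, hH hh, h1, τ, hτ.trans hA, h2⟩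

theorem app_mono {s s' : St σ} (h : d.Ext s s') : s.App ⊆ s'.App := by
  obtain ⟨-, -, -, -, -, -, -, -, ⟨-, -, h⟩ | ⟨x, r', -, -, -, -, -, -, h, -⟩ |
    ⟨r, i, -, -, -, h, -⟩⟩ := h
  · exact h ▸ List.Subset.refl _
  · exact h ▸ List.subset_cons_self _ _
  · exact h ▸ List.Subset.refl _

end Dat

end Pool.Agent.P.MP_9014a2_lc
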