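import Pool.Agent.P.MP_9014a2_lc.Runs

/-! Section atoms. -/

namespace Pool.Agent.P.MP_9014a2_lc

namespace Sec

/-- the graph of the section -/
def Pr (C : ℕ → ℕ → Bool) (j : ℕ) (a : ℕ × Finset ℕ) (n : ℕ) : Prop :=
  lev a.1 = j + 1 ∧ val (G C a.1) (a.2 ∪ fd n.unpair.1) n.unpair.2 ∧ ¬ OmL C j a.2 n.unpair.2

variable {C : ℕ → ℕ → Bool} {j : ℕ}

theorem di (hC : Tower C) : DI (C j) fun x : (ℕ × Finset ℕ) × ℕ => Pr C j x.1 x.2 := by
  have h1 := (hC.di_val j).comp (g := fun x : (ℕ × Finset ℕ) × ℕ =>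
    (x.1.1, x.1.2 ∪ fd x.2.unpair.1, x.2.unpair.2)) (by fun_prop)
  have h2 := (hC.dm_omL j).di.comp (g := fun x : (ℕ × Finset ℕ) × ℕ => (x.1.2, x.2.unpair.2))
    (by fun_prop)
  have h3 : DI (C j) fun x : (ℕ × Finset ℕ) × ℕ => lev x.1.1 = j + 1 := by fun_prop
  exact (h3.and (h1.and h2.not)).of_iff fun x => and_congr_right fun h => by simp [h]

theorem dm (hC : Tower C) (a : ℕ × Finset ℕ) : DM (C j) (Pr C j a) := by
  by_cases h : lev a.1 = j + 1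
  · obtain ⟨X, hX, h2⟩ := hC.dm_omL j
    have h1 : CI (G C a.1) (G C a.1) := CI.oracle
    refine ((hC.scott j).dm_and (p := fun n : ℕ => val (G C a.1) (a.2 ∪ fd n.unpair.1) n.unpair.2)
      (q := fun n : ℕ => ¬ OmL C j a.2 n.unpair.2)
      ⟨_, G_mem C h, DI.val (by fun_prop) (by fun_prop) (by fun_prop)⟩
      ⟨X, hX, (h2.comp (g := fun n : ℕ => (a.2, n.unpair.2)) (by fun_prop)).not⟩).of_iff
      fun n => by simp [Pr, h]
  · exact ⟨_, col_mem _ 0, (DI.const False).of_iff fun n => by simp [Pr, h]⟩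

end Sec

theorem all_sec : S_sec := by
  intro k C j hC
  have h0 : CI (C j) (C j) := CI.oracle
  have h1 : DI (C j) fun x : ((ℕ × Finset ℕ) × ℕ) × ℕ =>
      ¬ (col (C j) x.1.2 x.2 = true ↔ Sec.Pr C j x.1.1 x.2) :=
    (DI.iff (DI.eq (CI.col (by fun_prop) (by fun_prop) (by fun_prop)) (by fun_prop))
      ((Sec.di hC).comp (g := fun x : ((ℕ × Finset ℕ) × ℕ) × ℕ => (x.1.1, x.2)) (by fun_prop))).not
  have h2 : DI (jump (C j)) fun x : (ℕ × Finset ℕ) × ℕ =>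
      ∀ n, col (C j) x.2 n = true ↔ Sec.Pr C j x.1 n :=
    (Sig.ex (r := fun (x : (ℕ × Finset ℕ) × ℕ) n => ¬ (col (C j) x.2 n = true ↔ Sec.Pr C j x.1 n))
      (Sig.of_di h1)).di_jump.not.of_iff fun x => by simp only [not_exists, not_not]
  obtain ⟨e, he, h3⟩ := Sig.choose (r := fun a e => ∀ n, col (C j) e n = true ↔ Sec.Pr C j a n)
    (Sig.of_di h2) fun a => (hC.scott j).exists_col (Sec.dm hC a)
  refine ⟨fun h τ0 => fa (j + 1) (wt h - zs k τ0) (e (h, τ0)) 0, ?_, fun h τ0 hh =>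
    ⟨by simp, by simp, fun τ1 v => ?_⟩⟩
  · unfold fa
    fun_prop
  have h4 : ∀ u, G C (fa (j + 1) (wt h - zs k τ0) (e (h, τ0)) 0) (Nat.pair (fc τ1) u) = true ↔
      val (G C h) (τ0 ∪ τ1) u ∧ ¬ OmL C j τ0 u := fun u => by
    simp only [G, lev_fa, ix_fa, Nat.add_sub_cancel, h3, Sec.Pr, hh, Nat.unpair_pair, fd_fc, true_and]
  refine ⟨fun hv => (h4 v).1 hv.1, fun hv => ⟨(h4 v).2 hv, fun u hu => ?_⟩⟩
  exact Bool.eq_false_iff.2 fun h5 => hu.ne (val_unique ((h4 u).1 h5).1 hv.1)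

end Pool.Agent.P.MP_9014a2_lc
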