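import Pool.Agent.P.MP_9014a2_lc.Jump

/-!
Coded Scott sets, towers, atoms.
-/

namespace Pool.Agent.P.MP_9014a2_lc

open Pool.Agent.Lib.Helper43 Encodable

/-- column `e` of `C` -/
def col (C : ℕ → Bool) (e : ℕ) : ℕ → Bool := fun n => C (Nat.pair e n)

/-- the class coded by `C` -/
def M (C : ℕ → Bool) : Set (ℕ → Bool) := Set.range (col C)

/-- `C` codes a Scott set -/
structure Scott (C : ℕ → Bool) : Prop where
  join_mem : ∀ X ∈ M C, ∀ Y ∈ M C, join X Y ∈ M C
  wkl : ∀ X ∈ M C, ∀ P, Op X P → (∃ Z, ¬ P Z) → ∃ Z ∈ M C, ¬ P Z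

/-- a tower of Scott sets, each containing the jump of the previous code -/
structure Tower (C : ℕ → ℕ → Bool) : Prop where
  scott : ∀ l, Scott (C l)
  jump_mem : ∀ l, jump (C l) ∈ M (C (l + 1))

/-- `p` is decidable in a member of the class coded by `C` -/
def DM (C : ℕ → Bool) {α : Type} [Primcodable α] (p : α → Prop) : Prop := ∃ X ∈ M C, DI X p

variable {α β : Type} [Primcodable α] [Primcodable β] {X Y : ℕ → Bool}

@[fun_prop] theorem CI.col {g : α → ℕ → Bool} {e n : α → ℕ}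
    (hg : CI X fun p : α × ℕ => g p.1 p.2) (he : CI X e) (hn : CI X n) :
    CI X fun a => col (g a) (e a) (n a) :=
  CI.comp (g := fun a => (a, Nat.pair (e a) (n a))) hg (by fun_prop)

theorem col_mem (C : ℕ → Bool) (e : ℕ) : col C e ∈ M C := ⟨e, rfl⟩

theorem red_col (C : ℕ → Bool) (e : ℕ) : Red (col C e) C :=
  CI.comp (g := fun n => Nat.pair e n) CI.oracle (by fun_prop)

theorem red_of_mem {C : ℕ → Bool} (h : X ∈ M C) : Red X C := by
  obtain ⟨e, rfl⟩ := h
  exact red_col C e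

namespace Scott

variable {C : ℕ → Bool}

theorem red_mem (hC : Scott C) (hX : X ∈ M C) (h : Red Y X) : Y ∈ M C := by
  have h1 : CI X Y := h
  obtain ⟨Z, hZ, h2⟩ := hC.wkl X hX (fun Z => ∃ n, Z n = !Y n)
    (S1.ex (S1.query (by fun_prop) (by fun_prop))) ⟨Y, by simp⟩
  rwa [show Y = Z from funext fun n => by
    have : ¬ Z n = !Y n := fun h => h2 ⟨n, h⟩
    cases hy : Y n <;> simp_all]

/-- a common upper bound of two members -/
theorem exists_ub (hC : Scott C) (hX : X ∈ M C) (hY : Y ∈ M C) :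
    ∃ Z ∈ M C, Red X Z ∧ Red Y Z :=
  ⟨_, hC.join_mem X hX Y hY, red_left X Y, red_right X Y⟩

/-- a common upper bound of finitely many members -/
theorem exists_ub_finset (hC : Scott C) (T : Finset ℕ) (g : ℕ → ℕ → Bool)
    (hg : ∀ a ∈ T, g a ∈ M C) :
    ∃ Z ∈ M C, CI Z fun p : ℕ × ℕ => if p.1 ∈ T then g p.1 p.2 else false := by
  induction T using Finset.induction_on with
  | empty => exact ⟨_, col_mem C 0, by simpa using CI.const false⟩
  | insert a T _ ih =>
    obtain ⟨Z, hZ, h⟩ := ih fun b hb => hg b (Finset.mem_insert_of_mem hb)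
    obtain ⟨U, hU, h1, h2⟩ := hC.exists_ub hZ (hg a (Finset.mem_insert_self _ _))
    have h3 := h.mono h1
    have h4 : CI U (g a) := h2
    refine ⟨U, hU, CI.of_eq (f := fun p : ℕ × ℕ => if p.1 = a then g a p.2 else
      if p.1 ∈ T then g p.1 p.2 else false) (CI.ite (by fun_prop) (by fun_prop) h3) fun p => ?_⟩
    by_cases hp : p.1 = a <;> simp [hp]

/-- a decidable set is a column -/
theorem exists_col (hC : Scott C) {p : ℕ → Prop} (hp : DM C p) :
    ∃ e, ∀ n, col C e n = true ↔ p n := by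
  obtain ⟨X, hX, h⟩ := hp
  obtain ⟨f, hf, e⟩ := h.exists_bool
  obtain ⟨i, hi⟩ := hC.red_mem hX (Y := f) hf
  exact ⟨i, fun n => by rw [hi, e]⟩

theorem dm_and (hC : Scott C) {p q : α → Prop} (hp : DM C p) (hq : DM C q) :
    DM C fun a => p a ∧ q a := by
  obtain ⟨X, hX, h⟩ := hp
  obtain ⟨Y, hY, h'⟩ := hq
  obtain ⟨Z, hZ, h1, h2⟩ := hC.exists_ub hX hY
  exact ⟨Z, hZ, (h.mono h1).and (h'.mono h2)⟩

theorem dm_or (hC : Scott C) {p q : α → Prop} (hp : DM C p) (hq : DM C q) :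
    DM C fun a => p a ∨ q a := by
  obtain ⟨X, hX, h⟩ := hp
  obtain ⟨Y, hY, h'⟩ := hq
  obtain ⟨Z, hZ, h1, h2⟩ := hC.exists_ub hX hY
  exact ⟨Z, hZ, (h.mono h1).or (h'.mono h2)⟩

end Scott

theorem DM.of_iff {C : ℕ → Bool} {p q : α → Prop} (hp : DM C p) (h : ∀ a, p a ↔ q a) : DM C q :=
  let ⟨X, hX, h'⟩ := hp; ⟨X, hX, h'.of_iff h⟩

theorem DM.di {C : ℕ → Bool} {p : α → Prop} (hp : DM C p) : DI C p :=
  let ⟨_, hX, h⟩ := hp; h.mono (red_of_mem hX)

namespace Tower

variable {C : ℕ → ℕ → Bool}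

theorem self_mem (hC : Tower C) (l : ℕ) : C l ∈ M (C (l + 1)) :=
  (hC.scott _).red_mem (hC.jump_mem l) (red_jump _)

theorem mem_mono (hC : Tower C) {l q : ℕ} (h : l ≤ q) (hX : X ∈ M (C l)) : X ∈ M (C q) := by
  induction h with
  | refl => exact hX
  | step _ ih => exact (hC.scott _).red_mem (hC.self_mem _) (red_of_mem ih)

theorem dm_mono (hC : Tower C) {l q : ℕ} (h : l ≤ q) {p : α → Prop} (hp : DM (C l) p) :
    DM (C q) p :=
  let ⟨X, hX, h'⟩ := hp; ⟨X, hC.mem_mono h hX, h'⟩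

theorem red_le (hC : Tower C) {l q : ℕ} (h : l ≤ q) : Red (C l) (C q) := by
  induction h with
  | refl => exact Red.refl _
  | step _ ih => exact ih.trans (red_of_mem (hC.self_mem _))

theorem jump_mem_of_lt (hC : Tower C) {l q : ℕ} (h : l < q) : jump (C l) ∈ M (C q) :=
  hC.mem_mono h (hC.jump_mem l)

theorem red_jump_of_lt (hC : Tower C) {l q : ℕ} (h : l < q) : Red (jump (C l)) (C q) :=
  red_of_mem (hC.jump_mem_of_lt h)

/-- c.e. in `C l` is decidable one level up -/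
theorem dm_of_sig (hC : Tower C) {l q : ℕ} (h : l < q) {p : α → Prop} (hp : Sig (C l) p) :
    DM (C q) p := ⟨_, hC.jump_mem_of_lt h, hp.di_jump⟩

/-- the codes up to level `q` are uniformly computable in `C q` -/
theorem unif (hC : Tower C) (q : ℕ) :
    CI (C q) fun p : ℕ × ℕ => if p.1 ≤ q then C p.1 p.2 else false := by
  suffices ∀ m ≤ q + 1, CI (C q) fun p : ℕ × ℕ => if p.1 < m then C p.1 p.2 else false from
    (this _ le_rfl).of_eq fun p => by simp
  intro m
  induction m with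
  | zero => exact fun _ => by simpa using CI.const false
  | succ m ih =>
    intro hm
    have h4 : CI (C q) (C m) := hC.red_le (by omega)
    refine CI.of_eq (f := fun p : ℕ × ℕ => if p.1 = m then C m p.2 else
      if p.1 < m then C p.1 p.2 else false)
      (CI.ite (by fun_prop) (by fun_prop) (ih (by omega))) fun p => ?_
    by_cases hp : p.1 = m
    · simp [hp]
    · have : p.1 < m + 1 ↔ p.1 < m := by omega
      simp [hp, this]

end Tower

/-! ### Atoms -/

/-- level of an atom: `0` for points, `l + 1` for functions coded in `C l` -/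
def lev (a : ℕ) : ℕ := a.unpair.1

/-- the atom of the point `x` -/
def pt (x : ℕ) : ℕ := Nat.pair 0 x

/-- total size of the arguments of a function atom -/
def wt (a : ℕ) : ℕ := a.unpair.2.unpair.1

/-- column index of a function atom -/
def ix (a : ℕ) : ℕ := a.unpair.2.unpair.2.unpair.1

/-- the function atom with level `l`, weight `w`, column `e` and padding `n` -/
def fa (l w e n : ℕ) : ℕ := Nat.pair l (Nat.pair w (Nat.pair e n))

/-- graph of a function atom -/
def G (C : ℕ → ℕ → Bool) (a : ℕ) : ℕ → Bool := col (C (lev a - 1)) (ix a)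

/-- size of an atom -/
def z (k a : ℕ) : ℕ := if lev a = 0 then 1 else k + 1 - lev a - wt a

/-- total size -/
def zs (k : ℕ) (T : Finset ℕ) : ℕ := ∑ a ∈ T, z k a

/-- `v` is the value at `τ` of the function with graph `g` -/
def val (g : ℕ → Bool) (τ : Finset ℕ) (v : ℕ) : Prop :=
  g (Nat.pair (fc τ) v) = true ∧ ∀ u < v, g (Nat.pair (fc τ) u) = false

/-- the atom `a` exempts the value `v` -/
def Om (C : ℕ → ℕ → Bool) (a v : ℕ) : Prop :=
  if lev a = 0 then a = pt v else ∀ τ, ¬ val (G C a) τ v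

/-- some atom of `T` exempts `v` -/
def OmS (C : ℕ → ℕ → Bool) (T : Finset ℕ) (v : ℕ) : Prop := ∃ a ∈ T, Om C a v

/-- some atom of `T` of level at most `j` exempts `v` -/
def OmL (C : ℕ → ℕ → Bool) (j : ℕ) (T : Finset ℕ) (v : ℕ) : Prop := ∃ a ∈ T, lev a ≤ j ∧ Om C a v

/-- virtual atoms at level `j` -/
def Virt (k j c : ℕ) : Prop := j < lev c ∧ 1 ≤ wt c ∧ lev c + wt c ≤ k + 1

/-- the graphs `g c` for `c ∈ γ` as one oracle -/
def jn (γ : Finset ℕ) (g : ℕ → ℕ → Bool) : ℕ → Bool :=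
  fun n => decide (n.unpair.1 ∈ γ) && g n.unpair.1 n.unpair.2

@[simp] theorem lev_pt (x : ℕ) : lev (pt x) = 0 := by simp [lev, pt]
@[simp] theorem lev_fa (l w e n : ℕ) : lev (fa l w e n) = l := by simp [lev, fa]
@[simp] theorem wt_fa (l w e n : ℕ) : wt (fa l w e n) = w := by simp [wt, fa]
@[simp] theorem ix_fa (l w e n : ℕ) : ix (fa l w e n) = e := by simp [ix, fa]
theorem le_fa (l w e n : ℕ) : n ≤ fa l w e n :=
  (Nat.right_le_pair _ _).trans ((Nat.right_le_pair _ _).trans (Nat.right_le_pair _ _))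
theorem le_pt (x : ℕ) : x ≤ pt x := Nat.right_le_pair _ _
theorem pt_injective : Function.Injective pt := fun _ _ h => (Nat.pair_eq_pair.1 h).2
theorem pt_lt_pt {x y : ℕ} : pt x < pt y ↔ x < y :=
  (strictMono_nat_of_lt_succ fun n => Nat.pair_lt_pair_right 0 n.lt_succ_self :
    StrictMono pt).lt_iff_lt
theorem col_jn {γ : Finset ℕ} {c : ℕ} (g : ℕ → ℕ → Bool) (h : c ∈ γ) : col (jn γ g) c = g c :=
  funext fun n => by simp [col, jn, h]
theorem val_unique {g : ℕ → Bool} {τ : Finset ℕ} {v w : ℕ} (hv : val g τ v) (hw : val g τ w) :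
    v = w := by
  rcases lt_trichotomy v w with h | h | h
  · simpa [hv.1] using hw.2 v h
  · exact h
  · simpa [hw.1] using hv.2 w h
theorem OmL.omS {C : ℕ → ℕ → Bool} {j v : ℕ} {T : Finset ℕ} (h : OmL C j T v) : OmS C T v :=
  let ⟨a, ha, _, h⟩ := h; ⟨a, ha, h⟩
theorem omL_iff {C : ℕ → ℕ → Bool} {j v : ℕ} {T : Finset ℕ} (h : ∀ a ∈ T, lev a ≤ j) :
    OmL C j T v ↔ OmS C T v :=
  ⟨OmL.omS, fun ⟨a, ha, h'⟩ => ⟨a, ha, h a ha, h'⟩⟩

@[fun_prop] theorem computable_lev : Computable lev := by unfold lev; fun_prop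
@[fun_prop] theorem computable_pt : Computable pt := by unfold pt; fun_prop
@[fun_prop] theorem computable_wt : Computable wt := by unfold wt; fun_prop
@[fun_prop] theorem computable_ix : Computable ix := by unfold ix; fun_prop
@[fun_prop] theorem computable_fa {l w e n : α → ℕ} (hl : Computable l) (hw : Computable w)
    (he : Computable e) (hn : Computable n) : Computable fun a => fa (l a) (w a) (e a) (n a) := by
  unfold fa; fun_prop
@[fun_prop] theorem computable_z (k : ℕ) : Computable (z k) := by unfold z; fun_prop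
@[fun_prop] theorem CI.zs (k : ℕ) {T : α → Finset ℕ} (hT : CI X T) : CI X fun a => zs k (T a) :=
  CI.sumF (by fun_prop) hT
@[fun_prop] theorem DI.virt (k j : ℕ) {c : α → ℕ} (hc : CI X c) : DI X fun a => Virt k j (c a) := by
  unfold Virt; fun_prop
@[fun_prop] theorem CI.jn {γ : α → Finset ℕ} {g : α → ℕ → ℕ → Bool} {n : α → ℕ} (hγ : CI X γ)
    (hg : CI X fun p : α × ℕ × ℕ => g p.1 p.2.1 p.2.2) (hn : CI X n) :
    CI X fun a => jn (γ a) (g a) (n a) := by
  have := hg.comp (g := fun a => (a, (n a).unpair.1, (n a).unpair.2)) (by fun_prop)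
  unfold MP_9014a2_lc.jn
  fun_prop

@[fun_prop] theorem DI.val {g : α → ℕ → Bool} {τ : α → Finset ℕ} {v : α → ℕ}
    (hg : CI X fun p : α × ℕ => g p.1 p.2) (hτ : CI X τ) (hv : CI X v) :
    DI X fun a => val (g a) (τ a) (v a) := by
  refine DI.and (DI.eq ?_ (by fun_prop)) (DI.allLt (DI.eq ?_ (by fun_prop)) hv)
  · exact hg.comp (g := fun a => (a, Nat.pair (fc (τ a)) (v a))) (by fun_prop)
  · exact hg.comp (g := fun x : α × ℕ => (x.1, Nat.pair (fc (τ x.1)) x.2)) (by fun_prop)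

theorem S1.val {c v : α → ℕ} {τ : α → Finset ℕ} (hc : CI X c) (hτ : CI X τ) (hv : CI X v) :
    S1 X fun Z a => val (col Z (c a)) (τ a) (v a) :=
  S1.and (S1.query (by fun_prop) (by fun_prop))
    (S1.allLt (S1.query (by fun_prop) (by fun_prop)) hv)

theorem S1.not_val {c v : α → ℕ} {τ : α → Finset ℕ} (hc : CI X c) (hτ : CI X τ) (hv : CI X v) :
    S1 X fun Z a => ¬ MP_9014a2_lc.val (col Z (c a)) (τ a) (v a) := by
  refine S1.of_iff (P := fun Z a => Z (Nat.pair (c a) (Nat.pair (fc (τ a)) (v a))) = false ∨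
    ∃ u, u < v a ∧ Z (Nat.pair (c a) (Nat.pair (fc (τ a)) u)) = true)
    (S1.or (S1.query (by fun_prop) (by fun_prop)) (S1.ex (S1.and (S1.of_di (by fun_prop))
      (S1.query (by fun_prop) (by fun_prop))))) fun Z a => ?_
  simp only [MP_9014a2_lc.val, col, not_and_or, not_forall, Bool.not_eq_true, Bool.not_eq_false,
    exists_prop]

/-- the graphs of the atoms of level at most `q + 1` are uniformly computable in `C q` -/
theorem Tower.ci_G {C : ℕ → ℕ → Bool} (hC : Tower C) (q : ℕ) :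
    CI (C q) fun p : ℕ × ℕ => if lev p.1 ≤ q + 1 then G C p.1 p.2 else false :=
  ((hC.unif q).comp (g := fun p : ℕ × ℕ => (lev p.1 - 1, Nat.pair (ix p.1) p.2))
    (by fun_prop)).of_eq fun p => by simp [G, col]

theorem Tower.di_val {C : ℕ → ℕ → Bool} (hC : Tower C) (q : ℕ) :
    DI (C q) fun p : ℕ × Finset ℕ × ℕ => lev p.1 ≤ q + 1 ∧ val (G C p.1) p.2.1 p.2.2 := by
  have h := hC.ci_G q
  refine DI.of_iff (p := fun p : ℕ × Finset ℕ × ℕ => lev p.1 ≤ q + 1 ∧
    val (fun n => if lev p.1 ≤ q + 1 then G C p.1 n else false) p.2.1 p.2.2)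
    (DI.and (by fun_prop) (DI.val ?_ (by fun_prop) (by fun_prop))) fun p => ?_
  · exact h.comp (g := fun x : (ℕ × Finset ℕ × ℕ) × ℕ => (x.1.1, x.2)) (by fun_prop)
  · exact and_congr_right fun hp => by simp [hp]

theorem G_mem (C : ℕ → ℕ → Bool) {a l : ℕ} (h : lev a = l + 1) : G C a ∈ M (C l) := by
  simp only [G, h, Nat.add_sub_cancel]
  exact col_mem _ _

theorem Tower.dm_om {C : ℕ → ℕ → Bool} (hC : Tower C) (j : ℕ) :
    DM (C j) fun p : ℕ × ℕ => lev p.1 ≤ j ∧ Om C p.1 p.2 := by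
  cases j with
  | zero =>
    refine ⟨_, col_mem _ 0, DI.of_iff (p := fun p : ℕ × ℕ => p.1 = pt p.2) (by fun_prop)
      fun p => ⟨fun h => by simp [h, Om], fun ⟨h, h'⟩ => ?_⟩⟩
    rwa [Om, if_pos (by omega)] at h'
  | succ q =>
    have h1 : DI (jump (C q)) fun p : ℕ × ℕ => ∃ τ, lev p.1 ≤ q + 1 ∧ val (G C p.1) τ p.2 :=
      (Sig.ex (Sig.of_di ((hC.di_val q).comp
        (g := fun x : (ℕ × ℕ) × Finset ℕ => (x.1.1, x.2, x.1.2)) (by fun_prop)))).di_jump
    refine ⟨_, hC.jump_mem q, DI.of_iff (p := fun p : ℕ × ℕ => p.1 = pt p.2 ∨ (0 < lev p.1 ∧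
      lev p.1 ≤ q + 1 ∧ ¬ ∃ τ, lev p.1 ≤ q + 1 ∧ val (G C p.1) τ p.2))
      (DI.or (by fun_prop) (DI.and (by fun_prop) (DI.and (by fun_prop) h1.not))) fun p => ?_⟩
    by_cases h0 : lev p.1 = 0
    · simp [Om, h0]
    · have : p.1 ≠ pt p.2 := fun h => h0 (by simp [h])
      simp only [Om, h0, this, Nat.pos_of_ne_zero h0, false_or, true_and, if_false, not_exists,
        not_and]
      exact and_congr_right fun h => by simp [h]

theorem Tower.dm_omL {C : ℕ → ℕ → Bool} (hC : Tower C) (j : ℕ) :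
    DM (C j) fun p : Finset ℕ × ℕ => OmL C j p.1 p.2 := by
  obtain ⟨X, hX, h⟩ := hC.dm_om j
  exact ⟨X, hX, DI.exF (h.comp (g := fun x : (Finset ℕ × ℕ) × ℕ => (x.2, x.1.2)) (by fun_prop))
    (by fun_prop)⟩

end Pool.Agent.P.MP_9014a2_lc
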